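import Pool.Agent.H110R3.BP.Defs

/-!
Project LV (helper696): the Las Vergnas conjecture on the derivatives at `-1` of the diagonal Tutte
polynomial of a planar graph (MP_e8163c_co). Definitions and statements of the tasks.
-/

set_option autoImplicit false

namespace Pool.Agent.H696R3.LV

open Polynomial Pool.Agent.H207R2.BL Pool.Agent.H110R3.BP

/-! ### Temperley-Lieb generators over a commutative ring -/

/-- Temperley-Lieb relations with parameter `δ` for `e 0, …, e (M-1)`. -/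
structure TLR (R : Type) [CommRing R] (A : Type) [Ring A] [Algebra R A] (δ : R) (M : ℕ)
    (e : ℕ → A) : Prop where
  sq : ∀ j, j < M → e j * e j = δ • e j
  r1 : ∀ j, j + 1 < M → e j * e (j + 1) * e j = e j
  r2 : ∀ j, j + 1 < M → e (j + 1) * e j * e (j + 1) = e (j + 1)
  comm : ∀ i j, i + 2 ≤ j → j < M → e i * e j = e j * e i

/-- A linear functional for which the even generators can be removed at both ends. -/
structure St (R : Type) [CommRing R] (A : Type) [Ring A] [Algebra R A] (δ : R) (M : ℕ)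
    (e : ℕ → A) (φ : A →ₗ[R] R) : Prop where
  left : ∀ j, j < M → Even j → ∀ x, φ (e j * x) = δ * φ x
  right : ∀ j, j < M → Even j → ∀ x, φ (x * e j) = δ * φ x

/-- The letter `(j, false)` is `e j`, the letter `(j, true)` is `1 + e j`. -/
def lv {A : Type} [Ring A] (e : ℕ → A) (l : ℕ × Bool) : A := if l.2 then 1 + e l.1 else e l.1

/-- The product of a word. -/
def W {A : Type} [Ring A] (e : ℕ → A) (w : List (ℕ × Bool)) : A := (w.map (lv e)).prod

/-- `p` lies in the `k`-th power of the ideal `(2, X)`. -/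
def Ord (k : ℕ) (p : ℤ[X]) : Prop := ∀ i, (2 : ℤ) ^ (k - i) ∣ p.coeff i

/-- CORE: the main theorem on words. -/
def S_CORE : Prop := ∀ (A : Type) [Ring A] [Algebra ℤ[X] A] (n : ℕ) (e : ℕ → A)
  (φ : A →ₗ[ℤ[X]] ℤ[X]), TLR ℤ[X] A X (2 * n + 1) e → St ℤ[X] A X (2 * n + 1) e φ →
  φ 1 = X ^ (n + 1) → ∀ w : List (ℕ × Bool), (∀ l ∈ w, l.1 < 2 * n + 1) →
    ∃ μ : ℕ, |(φ (W e w)).eval (-2)| = 2 ^ μ ∧ Ord μ (φ (W e w))

/-- REP: a representation over `ℤ[X]`. -/
def S_REP : Prop := ∀ n : ℕ, ∃ (A : Type) (_ : Ring A) (_ : Algebra ℤ[X] A) (e : ℕ → A)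
  (φ : A →ₗ[ℤ[X]] ℤ[X]), TLR ℤ[X] A X (2 * n + 1) e ∧ St ℤ[X] A X (2 * n + 1) e φ ∧
    φ 1 = X ^ (n + 1)

/-- UNI: the value of a state on a word in the generators. -/
def S_UNI : Prop := ∀ (n : ℕ) (w : List ℕ), (∀ j ∈ w, j < 2 * n + 1) → ∃ a b : ℕ,
  ∀ (R : Type) [CommRing R] (A : Type) [Ring A] [Algebra R A] (δ : R) (e : ℕ → A)
    (φ : A →ₗ[R] R), (∀ x : R, δ * x = 0 → x = 0) → TLR R A δ (2 * n + 1) e →
    St R A δ (2 * n + 1) e φ → δ ^ a * φ (w.map e).prod = δ ^ b * φ 1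

/-- TRANS: transfer from `ℤ[X]` to real parameters. -/
def S_TRANS : Prop := ∀ (n : ℕ) (A : Type) [Ring A] [Algebra ℤ[X] A] (e : ℕ → A)
  (φ : A →ₗ[ℤ[X]] ℤ[X]), TLR ℤ[X] A X (2 * n + 1) e → St ℤ[X] A X (2 * n + 1) e φ →
  φ 1 = X ^ (n + 1) → ∀ (B : Type) [Ring B] [Algebra ℝ B] (m : ℕ) (f : ℕ → B) (ψ : B →ₗ[ℝ] ℝ),
    1 ≤ m → TLR ℝ B (m : ℝ) (2 * n + 1) f → St ℝ B (m : ℝ) (2 * n + 1) f ψ →
    ∀ w : List (ℕ × Bool), (∀ l ∈ w, l.1 < 2 * n + 1) →
      (m : ℝ) ^ (n + 1) * ψ (W f w) = ψ 1 * (((φ (W e w)).eval (m : ℤ) : ℤ) : ℝ)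

/-! ### The colouring representation -/

/-- The generators in the colouring representation with `m ^ 2` colours. -/
noncomputable def pe (n m : ℕ) (j : ℕ) : Module.End ℝ (Fn (Fin (n + 1)) (Fin (m ^ 2))) :=
  if Even j then (m : ℝ)⁻¹ • (PR n (m ^ 2)).e j else (m : ℝ) • (PR n (m ^ 2)).e j

/-- The functional: sum of all values of the image of the constant function `1`. -/
noncomputable def pst (n m : ℕ) : Module.End ℝ (Fn (Fin (n + 1)) (Fin (m ^ 2))) →ₗ[ℝ] ℝ where
  toFun x := ∑ c, x (fun _ => 1) c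
  map_add' x y := by simp [Finset.sum_add_distrib]
  map_smul' r x := by simp [Finset.mul_sum]

/-- POTTS: the colouring representation has Temperley-Lieb parameter `m`. -/
def S_POTTS : Prop := ∀ n m : ℕ, 1 ≤ m →
  TLR ℝ (Module.End ℝ (Fn (Fin (n + 1)) (Fin (m ^ 2)))) (m : ℝ) (2 * n + 1) (pe n m) ∧
  St ℝ (Module.End ℝ (Fn (Fin (n + 1)) (Fin (m ^ 2)))) (m : ℝ) (2 * n + 1) (pe n m) (pst n m)

/-- LET: words in the letters `C`, `J` of helper110. -/
def S_LET : Prop := ∀ w : List Let, (∀ l ∈ w, ∀ i, l ≠ Let.X i) →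
  ∃ (w' : List (ℕ × Bool)) (a b : ℕ), (∀ N, (∀ l ∈ w, InR N l) → ∀ l ∈ w', l.1 < 2 * N + 1) ∧
    ∀ n m : ℕ, 1 ≤ m → (m : ℝ) ^ a • T (PR n (m ^ 2)) w = (m : ℝ) ^ b • W (pe n m) w'

/-! ### Multigraphs: `E` is the type of edges, `ends x` the pair of ends of the edge `x` -/

section graph

variable {V E : Type} [Fintype V] [Fintype E]

/-- The edge `x` has been processed. -/
def Done (ends : E → Sym2 V) (U : Set V) (Es : Set (Sym2 V)) (x : E) : Prop :=
  ends x ∈ Es ∨ ((ends x).IsDiag ∧ ∃ v ∈ U, v ∈ ends x)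

open Classical in
/-- The weight of the colouring `g` of the vertices: `1 + m` for every processed edge with ends of
the same colour. -/
noncomputable def wt (ends : E → Sym2 V) (m : ℕ) (U : Set V) (Es : Set (Sym2 V))
    (g : V → Fin (m ^ 2)) : ℝ :=
  ∏ x : E, if Done ends U Es x ∧ ((ends x).map g).IsDiag then (1 + m : ℝ) else 1

open Classical in
/-- The weighted number of colourings with prescribed colours on the strands. -/
noncomputable def wc (ends : E → Sym2 V) (m : ℕ) (U : Set V) (Es : Set (Sym2 V)) (L : List V)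
    (l : List (Fin (m ^ 2))) : ℝ :=
  ∑ g : V → Fin (m ^ 2), if L.map g = l then wt ends m U Es g else 0

/-- The number of edges with pair of ends `s`. -/
noncomputable def mul (ends : E → Sym2 V) (s : Sym2 V) : ℕ := Nat.card {x : E // ends x = s}

/-- The state of the sweep is given by a word. -/
def GoodW (ends : E → Sym2 V) (L : List V) (U : Set V) (Es : Set (Sym2 V)) : Prop :=
  ∃ (w : List (ℕ × Bool)) (N a b : ℕ), (∀ l ∈ w, l.1 < 2 * N + 1) ∧ L.length ≤ N ∧
    ∀ n, N ≤ n → ∀ m : ℕ, 1 ≤ m → ∀ c : Fin (n + 1) → Fin (m ^ 2),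
      (m : ℝ) ^ a * (W (pe n m) w (fun _ => 1)) c =
        (m : ℝ) ^ b * wc ends m U Es L (cl (fun i => i) L.length c)

/-- The number of connected components of the subgraph with edge set `A`. -/
noncomputable def kc (ends : E → Sym2 V) (A : Finset E) : ℕ :=
  Nat.card (SimpleGraph.fromEdgeSet (ends '' (A : Set E))).ConnectedComponent

/-- The rank of a set of edges in the cycle matroid. -/
noncomputable def rk (ends : E → Sym2 V) (A : Finset E) : ℕ := Fintype.card V - kc ends A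

/-- The diagonal Tutte polynomial in the variable `δ = x - 1`. -/
noncomputable def tutd (ends : E → Sym2 V) : ℤ[X] :=
  ∑ A : Finset E, X ^ ((rk ends Finset.univ - rk ends A) + (A.card - rk ends A))

/-- The diagonal Tutte polynomial `T(x, x) = ∑ (x-1)^(r(E)-r(A)) (x-1)^(|A|-r(A))`. -/
noncomputable def tut (ends : E → Sym2 V) : ℤ[X] :=
  ∑ A : Finset E, (X - 1) ^ (rk ends Finset.univ - rk ends A) * (X - 1) ^ (A.card - rk ends A)

open Classical in
/-- The incidence of the vertex `v` and the edge `x` modulo two (`0` for loops). -/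
noncomputable def inc (ends : E → Sym2 V) (v : V) (x : E) : ZMod 2 :=
  if ¬ (ends x).IsDiag ∧ v ∈ ends x then 1 else 0

/-- The cycle space: every vertex has even degree. -/
noncomputable def cyc (ends : E → Sym2 V) : Submodule (ZMod 2) (E → ZMod 2) where
  carrier := {c | ∀ v, ∑ x, c x * inc ends v x = 0}
  zero_mem' := by intro v; simp
  add_mem' := by
    intro a b ha hb v
    simp only [Set.mem_setOf_eq] at ha hb
    simp [add_mul, Finset.sum_add_distrib, ha v, hb v]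
  smul_mem' := by
    intro r a ha v
    simp only [Set.mem_setOf_eq] at ha
    simp [mul_assoc, ← Finset.mul_sum, ha v]

/-- The orthogonal complement. -/
def orth (C : Submodule (ZMod 2) (E → ZMod 2)) : Submodule (ZMod 2) (E → ZMod 2) where
  carrier := {c | ∀ c' ∈ C, ∑ x, c x * c' x = 0}
  zero_mem' := by intro c' _; simp
  add_mem' := by
    intro a b ha hb c' hc'
    simp only [Set.mem_setOf_eq] at ha hb
    simp [add_mul, Finset.sum_add_distrib, ha c' hc', hb c' hc']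
  smul_mem' := by
    intro r a ha c' hc'
    simp only [Set.mem_setOf_eq] at ha
    simp [mul_assoc, ← Finset.mul_sum, ha c' hc']

/-- The dimension of the bicycle space. -/
noncomputable def bic (ends : E → Sym2 V) : ℕ :=
  Module.finrank (ZMod 2) ((cyc ends ⊓ orth (cyc ends) : Submodule (ZMod 2) (E → ZMod 2)))

end graph

/-! ### Statements on weighted colourings -/

/-- WNEW -/
def S_WNEW : Prop := ∀ {V E : Type} [Fintype V] [Fintype E] (ends : E → Sym2 V) (m : ℕ),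
  1 ≤ m → ∀ (L1 L2 : List V) (U : Set V) (Es : Set (Sym2 V)) (v : V), v ∉ L1 → v ∉ L2 →
    v ∉ U → (∀ u, s(u, v) ∉ Es) → ∀ (l1 l2 : List (Fin (m ^ 2))) (x : Fin (m ^ 2)),
      l1.length = L1.length →
      ((m ^ 2 : ℕ) : ℝ) * wc ends m (insert v U) Es (L1 ++ v :: L2) (l1 ++ x :: l2) =
        (1 + m : ℝ) ^ mul ends s(v, v) * wc ends m U Es (L1 ++ L2) (l1 ++ l2)

/-- WDUP -/
def S_WDUP : Prop := ∀ {V E : Type} [Fintype V] [Fintype E] (ends : E → Sym2 V) (m : ℕ)
  (L1 L2 : List V) (U : Set V) (Es : Set (Sym2 V)) (v : V) (l1 l2 : List (Fin (m ^ 2)))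
  (x y : Fin (m ^ 2)), l1.length = L1.length →
    wc ends m U Es (L1 ++ v :: v :: L2) (l1 ++ x :: y :: l2) =
      if x = y then wc ends m U Es (L1 ++ v :: L2) (l1 ++ x :: l2) else 0

/-- WDROP -/
def S_WDROP : Prop := ∀ {V E : Type} [Fintype V] [Fintype E] (ends : E → Sym2 V) (m : ℕ)
  (L1 L2 : List V) (U : Set V) (Es : Set (Sym2 V)) (v : V) (l1 l2 : List (Fin (m ^ 2))),
    l1.length = L1.length →
    ∑ x : Fin (m ^ 2), wc ends m U Es (L1 ++ v :: L2) (l1 ++ x :: l2) =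
      wc ends m U Es (L1 ++ L2) (l1 ++ l2)

/-- WEDGE -/
def S_WEDGE : Prop := ∀ {V E : Type} [Fintype V] [Fintype E] (ends : E → Sym2 V) (m : ℕ)
  (L1 L2 : List V) (U : Set V) (Es : Set (Sym2 V)) (u v : V), u ≠ v → s(u, v) ∉ Es →
    ∀ (l1 l2 : List (Fin (m ^ 2))) (x y : Fin (m ^ 2)), l1.length = L1.length →
      wc ends m U (insert s(u, v) Es) (L1 ++ u :: v :: L2) (l1 ++ x :: y :: l2) =
        (if x = y then (1 + m : ℝ) ^ mul ends s(u, v) else 1) *
          wc ends m U Es (L1 ++ u :: v :: L2) (l1 ++ x :: y :: l2)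

/-- GNIL -/
def S_GNIL : Prop := ∀ {V E : Type} [Fintype V] [Fintype E] (ends : E → Sym2 V),
  GoodW ends ([] : List V) ∅ ∅

/-- GNEW -/
def S_GNEW : Prop := ∀ {V E : Type} [Fintype V] [Fintype E] (ends : E → Sym2 V)
  (L1 L2 : List V) (U : Set V) (Es : Set (Sym2 V)) (v : V), v ∉ L1 → v ∉ L2 → v ∉ U →
    (∀ u, s(u, v) ∉ Es) → GoodW ends (L1 ++ L2) U Es → GoodW ends (L1 ++ v :: L2) (insert v U) Es

/-- GDUP -/
def S_GDUP : Prop := ∀ {V E : Type} [Fintype V] [Fintype E] (ends : E → Sym2 V)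
  (L1 L2 : List V) (U : Set V) (Es : Set (Sym2 V)) (v : V),
    GoodW ends (L1 ++ v :: L2) U Es → GoodW ends (L1 ++ v :: v :: L2) U Es

/-- GEDGE -/
def S_GEDGE : Prop := ∀ {V E : Type} [Fintype V] [Fintype E] (ends : E → Sym2 V)
  (L1 L2 : List V) (U : Set V) (Es : Set (Sym2 V)) (u v : V), u ≠ v →
    GoodW ends (L1 ++ u :: v :: L2) U Es → GoodW ends (L1 ++ u :: v :: L2) U (insert s(u, v) Es)

/-- GDROP -/
def S_GDROP : Prop := ∀ {V E : Type} [Fintype V] [Fintype E] (ends : E → Sym2 V)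
  (L1 L2 : List V) (U : Set V) (Es : Set (Sym2 V)) (v : V),
    GoodW ends (L1 ++ v :: L2) U Es → GoodW ends (L1 ++ L2) U Es

/-- GPROC -/
def S_GPROC : Prop := ∀ {V E : Type} [Fintype V] [Fintype E] (ends : E → Sym2 V) (L : List V)
  (U : Set V) (Es : Set (Sym2 V)), Proc L U Es → GoodW ends L U Es

/-- FK: the expansion of Fortuin and Kasteleyn -/
def S_FK : Prop := ∀ {V E : Type} [Fintype V] [Fintype E] (ends : E → Sym2 V) (m : ℕ),
  wc ends m Set.univ (SimpleGraph.fromEdgeSet (Set.range ends)).edgeSet [] [] =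
    ∑ A : Finset E, (m : ℝ) ^ (A.card + 2 * kc ends A)

/-- PLANE: a drawing of the simplification gives a word for the weighted number of colourings. -/
def S_PLANE : Prop := ∀ {V E : Type} [Fintype V] [Fintype E] (ends : E → Sym2 V)
  (f : V → ℝ × ℝ), IsStraight (SimpleGraph.fromEdgeSet (Set.range ends)) f →
    ∃ (w : List (ℕ × Bool)) (N a b : ℕ), (∀ l ∈ w, l.1 < 2 * N + 1) ∧ ∀ m : ℕ, 1 ≤ m →
      (m : ℝ) ^ a * pst N m (W (pe N m) w) =
        (m : ℝ) ^ b * ∑ A : Finset E, (m : ℝ) ^ (A.card + 2 * kc ends A)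

/-- EXP: exponents -/
def S_EXP : Prop := ∀ {V E : Type} [Fintype V] [Fintype E] (ends : E → Sym2 V) (A : Finset E),
  kc ends Finset.univ ≤ kc ends A ∧ kc ends A ≤ Fintype.card V ∧
    Fintype.card V ≤ A.card + kc ends A ∧
    (rk ends Finset.univ - rk ends A) + (A.card - rk ends A) +
      (Fintype.card V + kc ends Finset.univ) = A.card + 2 * kc ends A

/-- POLY: the diagonal Tutte polynomial of a plane graph. -/
def S_POLY : Prop := ∀ {V E : Type} [Fintype V] [Fintype E] (ends : E → Sym2 V)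
  (f : V → ℝ × ℝ), IsStraight (SimpleGraph.fromEdgeSet (Set.range ends)) f →
    ∃ ν : ℕ, |(tutd ends).eval (-2)| = 2 ^ ν ∧ Ord ν (tutd ends)

/-! ### The value at `-1` (Rosenstiehl-Read) -/

open Classical in
/-- CYN: the number of cycles contained in a set of edges. -/
def S_CYN : Prop := ∀ {V E : Type} [Fintype V] [Fintype E] (ends : E → Sym2 V) (A : Finset E),
  Nat.card {c : E → ZMod 2 // c ∈ cyc ends ∧ ∀ x, x ∉ A → c x = 0} = 2 ^ (A.card - rk ends A)

open Classical in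
/-- GRE: Greene's identity for the weight enumerator of pairs of codewords at `-1`. -/
def S_GRE : Prop := ∀ {E : Type} [Fintype E] (C : Submodule (ZMod 2) (E → ZMod 2)),
  ∑ p : C × C, (-1 : ℤ) ^ (Finset.univ.filter (fun x => p.1.1 x ≠ 0 ∨ p.2.1 x ≠ 0)).card =
    ∑ A : Finset E, (-1 : ℤ) ^ A.card * 2 ^ (Fintype.card E - A.card) *
      (Nat.card {c : E → ZMod 2 // c ∈ C ∧ ∀ x, x ∉ A → c x = 0} : ℤ) ^ 2

open Classical in
/-- QUAD: the quadratic exponential sum. -/
def S_QUAD : Prop := ∀ {E : Type} [Fintype E] (C : Submodule (ZMod 2) (E → ZMod 2)),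
  |∑ p : C × C, (-1 : ℤ) ^ (Finset.univ.filter (fun x => p.1.1 x ≠ 0 ∨ p.2.1 x ≠ 0)).card| =
    2 ^ (Module.finrank (ZMod 2) C + Module.finrank (ZMod 2) (C ⊓ orth C :
      Submodule (ZMod 2) (E → ZMod 2)))

/-- RR: the value of the diagonal Tutte polynomial at `-1`. -/
def S_RR : Prop := ∀ {V E : Type} [Fintype V] [Fintype E] (ends : E → Sym2 V),
  |(tutd ends).eval (-2)| = 2 ^ bic ends

/-- DER: derivatives. -/
def S_DER : Prop := ∀ {V E : Type} [Fintype V] [Fintype E] (ends : E → Sym2 V) (d : ℕ),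
  Ord d (tutd ends) → ∀ k : ℕ, k ≤ d →
    (2 : ℤ) ^ (d - k) ∣ ((derivative^[k]) (tut ends)).eval (-1)

/-- MAIN: the conjecture of Las Vergnas. -/
def S_MAIN : Prop := ∀ {V E : Type} [Fintype V] [Fintype E] (ends : E → Sym2 V)
  (f : V → ℝ × ℝ), IsStraight (SimpleGraph.fromEdgeSet (Set.range ends)) f →
    Ord (bic ends) (tutd ends) ∧ ∀ k : ℕ, k ≤ bic ends →
      (2 : ℤ) ^ (bic ends - k) ∣ ((derivative^[k]) (tut ends)).eval (-1)

end Pool.Agent.H696R3.LV
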