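import Pool.Agent.H696R3.LV.Defs

set_option autoImplicit false
set_option linter.unusedSectionVars false
set_option linter.unusedSimpArgs false
set_option linter.unnecessarySeqFocus false

namespace Pool.Agent.H696R3.LV

open Polynomial

/-! ### the filtration -/

theorem Ord.zero (k : ℕ) : Ord k 0 := fun i => by simp

theorem Ord.add {k : ℕ} {p q : ℤ[X]} (hp : Ord k p) (hq : Ord k q) : Ord k (p + q) := fun i => by
  rw [coeff_add]; exact dvd_add (hp i) (hq i)

theorem Ord.neg {k : ℕ} {p : ℤ[X]} (hp : Ord k p) : Ord k (-p) := fun i => by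
  rw [coeff_neg]; exact (dvd_neg).2 (hp i)

theorem Ord.sub {k : ℕ} {p q : ℤ[X]} (hp : Ord k p) (hq : Ord k q) : Ord k (p - q) := by
  rw [sub_eq_add_neg]; exact hp.add hq.neg

theorem Ord.mono {k j : ℕ} {p : ℤ[X]} (hp : Ord k p) (h : j ≤ k) : Ord j p := fun i =>
  (pow_dvd_pow 2 (by omega)).trans (hp i)

theorem Ord.mulX {k : ℕ} {p : ℤ[X]} (hp : Ord k p) : Ord (k + 1) (X * p) := fun i => by
  cases i with
  | zero => simp
  | succ i => rw [coeff_X_mul]; exact (pow_dvd_pow 2 (by omega)).trans (hp i)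

theorem Ord.ofX {k : ℕ} {p : ℤ[X]} (hp : Ord (k + 1) (X * p)) : Ord k p := fun i => by
  have := hp (i + 1)
  rw [coeff_X_mul] at this
  exact (pow_dvd_pow 2 (by omega)).trans this

theorem Ord.mul2 {k : ℕ} {p : ℤ[X]} (hp : Ord k p) : Ord (k + 1) (2 * p) := fun i => by
  have h : ((2 : ℤ[X]) * p).coeff i = 2 * p.coeff i := by
    rw [show (2 : ℤ[X]) = C 2 by simp, coeff_C_mul]
  rw [h]
  rcases Nat.lt_or_ge i (k + 1) with h1 | h1
  · have h2 : k + 1 - i = (k - i) + 1 := by omega
    rw [h2, pow_succ']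
    exact mul_dvd_mul_left 2 (hp i)
  · have h2 : k + 1 - i = 0 := by omega
    rw [h2]; simp

theorem Ord.mulT {k : ℕ} {p : ℤ[X]} (hp : Ord k p) : Ord (k + 1) ((X + 2) * p) := by
  rw [add_mul]; exact hp.mulX.add hp.mul2

theorem Ord.mulX' {k : ℕ} {p : ℤ[X]} (hp : Ord k p) : Ord k (X * p) := hp.mulX.mono (by omega)

theorem Ord.mul1X {k : ℕ} {p : ℤ[X]} (hp : Ord k p) : Ord k ((1 + X) * p) := by
  rw [add_mul, one_mul]; exact hp.add hp.mulX'

theorem Ord.Xpow (k : ℕ) : Ord k (X ^ k) := by
  induction k with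
  | zero => intro i; simp
  | succ k ih => rw [pow_succ']; exact ih.mulX

namespace COREaux

/-! ### powers of two -/

theorem half {x y z : ℤ} {α β γ : ℕ} (hx : |x| = 2 ^ α) (hy : |y| = 2 ^ β) (hz : |z| = 2 ^ γ)
    (h : x = y + z) : α ≤ β + 1 := by
  by_contra hcon
  push Not at hcon
  have h4 : (4 : ℤ) * 2 ^ β ≤ 2 ^ α := by
    have : (2 : ℤ) ^ (β + 2) ≤ 2 ^ α := pow_le_pow_right₀ (by norm_num) (by omega)
    calc (4 : ℤ) * 2 ^ β = 2 ^ (β + 2) := by ring
      _ ≤ _ := this
  have hpos : (0 : ℤ) < 2 ^ α := by positivity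
  have hposb : (0 : ℤ) < 2 ^ β := by positivity
  have h1 : |x| ≤ |y| + |z| := by rw [h]; exact abs_add_le y z
  have h2 : |z| ≤ |x| + |y| := by
    have : z = x - y := by rw [h]; ring
    rw [this]; exact abs_sub x y
  rw [hx, hy, hz] at h1 h2
  rcases lt_trichotomy γ α with h3 | h3 | h3
  · have h5 : (2 : ℤ) * 2 ^ γ ≤ 2 ^ α := by
      have : (2 : ℤ) ^ (γ + 1) ≤ 2 ^ α := pow_le_pow_right₀ (by norm_num) (by omega)
      calc (2 : ℤ) * 2 ^ γ = 2 ^ (γ + 1) := by ring
        _ ≤ _ := this
    linarith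
  · subst h3
    rcases abs_eq_abs.1 (hx.trans hz.symm) with h5 | h5
    · have : y = 0 := by linarith
      rw [this] at hy
      simp at hy
      linarith
    · have h6 : y = 2 * x := by linarith
      have h7 : |y| = 2 * |x| := by rw [h6, abs_mul]; norm_num
      rw [hx, hy] at h7
      linarith
  · have h5 : (2 : ℤ) * 2 ^ α ≤ 2 ^ γ := by
      have : (2 : ℤ) ^ (α + 1) ≤ 2 ^ γ := pow_le_pow_right₀ (by norm_num) (by omega)
      calc (2 : ℤ) * 2 ^ α = 2 ^ (α + 1) := by ring
        _ ≤ _ := this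
    linarith

theorem half' {x y z : ℤ} {α β γ : ℕ} (hx : |x| = 2 ^ α) (hy : |y| = 2 ^ β) (hz : |z| = 2 ^ γ)
    (h : x = y + z) : α ≤ γ + 1 := half hx hz hy (by rw [h]; ring)

/-- the absolute value is a power of two -/
def P2 (x : ℤ) : Prop := ∃ μ : ℕ, |x| = 2 ^ μ

theorem P2.of_abs {x y : ℤ} (h : |x| = |y|) (hy : P2 y) : P2 x := by
  obtain ⟨μ, hμ⟩ := hy; exact ⟨μ, h.trans hμ⟩

theorem P2.of_pow {x y : ℤ} {k : ℕ} (h : |x| = 2 ^ k * |y|) (hy : P2 y) : P2 x := by
  obtain ⟨μ, hμ⟩ := hy; exact ⟨k + μ, by rw [h, hμ, pow_add]⟩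

theorem P2.of_two {x y : ℤ} (h : 2 * |x| = |y|) (hy : P2 y) : P2 x := by
  obtain ⟨μ, hμ⟩ := hy
  cases μ with
  | zero => rw [hμ] at h; omega
  | succ μ => exact ⟨μ, by rw [hμ, pow_succ'] at h; linarith⟩

theorem pow_inj {α β : ℕ} (h : (2 : ℤ) ^ α = 2 ^ β) : α = β :=
  Int.pow_right_injective (le_refl 2) h

/-! ### words -/

abbrev Wd := List (ℕ × Bool)

def In (m : ℕ) (w : Wd) : Prop := ∀ l ∈ w, l.1 < m

theorem In.nil (m : ℕ) : In m [] := by intro l hl; simp at hl

theorem In.append {m : ℕ} {u v : Wd} (hu : In m u) (hv : In m v) : In m (u ++ v) := by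
  intro l hl
  rcases List.mem_append.1 hl with h | h
  · exact hu l h
  · exact hv l h

theorem In.cons {m : ℕ} {l : ℕ × Bool} {v : Wd} (hl : l.1 < m) (hv : In m v) : In m (l :: v) := by
  intro x hx
  rcases List.mem_cons.1 hx with h | h
  · rw [h]; exact hl
  · exact hv x h

theorem In.tail {m : ℕ} {l : ℕ × Bool} {v : Wd} (h : In m (l :: v)) : In m v :=
  fun x hx => h x (List.mem_cons_of_mem _ hx)

theorem In.mono {m k : ℕ} {w : Wd} (h : In m w) (hmk : m ≤ k) : In k w :=
  fun l hl => lt_of_lt_of_le (h l hl) hmk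

theorem In.zero {w : Wd} (h : In 0 w) : w = [] := by
  cases w with
  | nil => rfl
  | cons l w => exact absurd (h l List.mem_cons_self) (by omega)

/-! ### abstract normal form -/

structure Rules (m0 : ℕ) (Rel : Wd → Wd → Prop) (Kill : Wd → Prop) : Prop where
  refl : ∀ w, Rel w w
  trans : ∀ w1 w2 w3, Rel w1 w2 → Rel w2 w3 → Rel w1 w3
  congr : ∀ u v w w', In m0 u → In m0 v → Rel w w' → Rel (u ++ w ++ v) (u ++ w' ++ v)
  kcongr : ∀ u v w, In m0 u → In m0 v → Kill w → Kill (u ++ w ++ v)
  kof : ∀ w w', Rel w w' → Kill w' → Kill w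
  comm : ∀ i j b c, i + 2 ≤ j → j < m0 → Rel [(j, b), (i, c)] [(i, c), (j, b)]
  comm' : ∀ i j b c, i + 2 ≤ j → j < m0 → Rel [(i, c), (j, b)] [(j, b), (i, c)]
  dbl : ∀ j b c, j < m0 → Kill [(j, b), (j, c)] ∨ Rel [(j, b), (j, c)] [] ∨
    ∃ b', Rel [(j, b), (j, c)] [(j, b')]
  tri : ∀ j b d c, j + 1 < m0 → ∃ (p q : Wd) (b' : Bool), In (j + 1) p ∧ In (j + 1) q ∧
    Rel [(j + 1, b), (j, d), (j + 1, c)] (p ++ (j + 1, b') :: q)

namespace Rules

variable {m0 : ℕ} {Rel : Wd → Wd → Prop} {Kill : Wd → Prop} (R : Rules m0 Rel Kill)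

include R

theorem cons {l : ℕ × Bool} {w w' : Wd} (hl : l.1 < m0) (h : Rel w w') :
    Rel (l :: w) (l :: w') := by
  have := R.congr [l] [] w w' (In.cons hl (In.nil _)) (In.nil _) h
  simpa using this

theorem kcons {l : ℕ × Bool} {w : Wd} (hl : l.1 < m0) (h : Kill w) : Kill (l :: w) := by
  have := R.kcongr [l] [] w (In.cons hl (In.nil _)) (In.nil _) h
  simpa using this

theorem right {w w' v : Wd} (hv : In m0 v) (h : Rel w w') : Rel (w ++ v) (w' ++ v) := by
  have := R.congr [] v w w' (In.nil _) hv h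
  simpa using this

theorem left {w w' u : Wd} (hu : In m0 u) (h : Rel w w') : Rel (u ++ w) (u ++ w') := by
  have := R.congr u [] w w' hu (In.nil _) h
  simpa using this

/-- a letter moves to the right over smaller letters -/
theorem move (m : ℕ) (b : Bool) (hm : m + 1 < m0) (x : Wd) (hx : In m x) :
    Rel ((m + 1, b) :: x) (x ++ [(m + 1, b)]) := by
  induction x with
  | nil => exact R.refl _
  | cons l x ih =>
    obtain ⟨i, c⟩ := l
    have hi : i < m := hx (i, c) List.mem_cons_self
    have h1 := R.right (v := x) (hx.tail.mono (by omega)) (R.comm i (m + 1) b c (by omega) hm)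
    have h2 := R.cons (l := (i, c)) (by simp; omega) (ih hx.tail)
    exact R.trans _ _ _ h1 h2

/-- a letter moves to the left over smaller letters -/
theorem move' (m : ℕ) (b : Bool) (hm : m + 1 < m0) (x : Wd) (hx : In m x) :
    Rel (x ++ [(m + 1, b)]) ((m + 1, b) :: x) := by
  induction x with
  | nil => exact R.refl _
  | cons l x ih =>
    obtain ⟨i, c⟩ := l
    have hi : i < m := hx (i, c) List.mem_cons_self
    have h1 := R.right (v := x) (hx.tail.mono (by omega)) (R.comm' i (m + 1) b c (by omega) hm)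
    have h2 := R.cons (l := (i, c)) (by simp; omega) (ih hx.tail)
    exact R.trans _ _ _ h2 h1

/-- Jones normal form: the letter `m` occurs at most once -/
theorem nf (m : ℕ) (hm : m < m0) (w : Wd) (hw : In (m + 1) w) :
    Kill w ∨ (∃ w', In m w' ∧ Rel w w') ∨
      ∃ (x y : Wd) (b : Bool), In m x ∧ In m y ∧ Rel w (x ++ (m, b) :: y) := by
  induction m generalizing w with
  | zero =>
    induction w with
    | nil => exact Or.inr (Or.inl ⟨[], In.nil _, R.refl _⟩)
    | cons l w ih =>
      obtain ⟨j, b⟩ := l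
      have hj : j = 0 := by
        have : j < 0 + 1 := hw (j, b) List.mem_cons_self
        omega
      subst hj
      rcases ih hw.tail with h | ⟨w', hw', h⟩ | ⟨x, y, c, hx, hy, h⟩
      · exact Or.inl (R.kcons hm h)
      · rw [hw'.zero] at h
        exact Or.inr (Or.inr ⟨[], [], b, In.nil _, In.nil _, R.cons hm h⟩)
      · rw [hx.zero, hy.zero] at h
        have h1 := R.cons (l := (0, b)) hm h
        rcases R.dbl 0 b c hm with h2 | h2 | ⟨b', h2⟩
        · exact Or.inl (R.kof _ _ h1 h2)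
        · exact Or.inr (Or.inl ⟨[], In.nil _, R.trans _ _ _ h1 h2⟩)
        · exact Or.inr (Or.inr ⟨[], [], b', In.nil _, In.nil _, R.trans _ _ _ h1 h2⟩)
  | succ m ihm =>
    induction w with
    | nil => exact Or.inr (Or.inl ⟨[], In.nil _, R.refl _⟩)
    | cons l w ih =>
      obtain ⟨j, b⟩ := l
      have hj : j < m + 1 + 1 := hw (j, b) List.mem_cons_self
      have hjm0 : j < m0 := by omega
      rcases ih hw.tail with h | ⟨w', hw', h⟩ | ⟨x, y, c, hx, hy, h⟩
      · exact Or.inl (R.kcons hjm0 h)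
      · rcases Nat.lt_or_ge j (m + 1) with hj1 | hj1
        · exact Or.inr (Or.inl ⟨(j, b) :: w', In.cons hj1 hw', R.cons hjm0 h⟩)
        · have hj2 : j = m + 1 := by omega
          subst hj2
          exact Or.inr (Or.inr ⟨[], w', b, In.nil _, hw', R.cons hjm0 h⟩)
      · rcases Nat.lt_or_ge j (m + 1) with hj1 | hj1
        · exact Or.inr (Or.inr ⟨(j, b) :: x, y, c, In.cons hj1 hx, hy, R.cons hjm0 h⟩)
        · have hj2 : j = m + 1 := by omega
          subst hj2
          have h1 := R.cons (l := (m + 1, b)) hm h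
          have hy0 : In m0 y := hy.mono (by omega)
          have hcy : In m0 ((m + 1, c) :: y) := In.cons hm hy0
          have hb0 : In m0 [(m + 1, b)] := In.cons hm (In.nil _)
          rcases ihm (by omega) x hx with h2 | ⟨x', hx', h2⟩ | ⟨x1, x2, d, hx1, hx2, h2⟩
          · refine Or.inl (R.kof _ _ h1 ?_)
            have := R.kcongr [(m + 1, b)] ((m + 1, c) :: y) x hb0 hcy h2
            simpa using this
          · have h3 := R.congr [(m + 1, b)] ((m + 1, c) :: y) x x' hb0 hcy h2
            have h4 := R.right hcy (R.move m b hm x' hx')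
            have h5 : Rel ((m + 1, b) :: w) (x' ++ [(m + 1, b), (m + 1, c)] ++ y) := by
              refine R.trans _ _ _ h1 (R.trans _ ((m + 1, b) :: x' ++ (m + 1, c) :: y) _ ?_ ?_)
              · simpa using h3
              · simpa using h4
            have hx0 : In m0 x' := hx'.mono (by omega)
            rcases R.dbl (m + 1) b c hm with h6 | h6 | ⟨b', h6⟩
            · exact Or.inl (R.kof _ _ h5 (R.kcongr x' y _ hx0 hy0 h6))
            · refine Or.inr (Or.inl ⟨x' ++ y, (hx'.mono (by omega)).append hy, ?_⟩)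
              have := R.congr x' y _ _ hx0 hy0 h6
              refine R.trans _ _ _ h5 ?_
              simpa using this
            · refine Or.inr (Or.inr ⟨x', y, b', hx'.mono (by omega), hy, ?_⟩)
              have := R.congr x' y _ _ hx0 hy0 h6
              refine R.trans _ _ _ h5 ?_
              simpa using this
          · have h3 := R.congr [(m + 1, b)] ((m + 1, c) :: y) x _ hb0 hcy h2
            have hx10 : In m0 x1 := hx1.mono (by omega)
            have hx20 : In m0 x2 := hx2.mono (by omega)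
            have hd0 : In m0 ((m, d) :: x2 ++ (m + 1, c) :: y) :=
              (In.cons (by simp; omega) hx20).append hcy
            have h4 := R.right hd0 (R.move m b hm x1 hx1)
            have h4' := R.congr (x1 ++ [(m + 1, b), (m, d)]) y _ _
              (hx10.append (In.cons hm (In.cons (by simp; omega) (In.nil _)))) hy0
              (R.move' m c hm x2 hx2)
            obtain ⟨p, q, b', hp, hq, h5⟩ := R.tri m b d c hm
            have h6 := R.congr x1 (x2 ++ y) _ _ hx10 (hx20.append hy0) h5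
            refine Or.inr (Or.inr ⟨x1 ++ p, q ++ (x2 ++ y), b', (hx1.mono (by omega)).append hp,
              hq.append ((hx2.mono (by omega)).append hy), ?_⟩)
            refine R.trans _ _ _ h1 (R.trans _
              ((m + 1, b) :: x1 ++ ((m, d) :: x2 ++ (m + 1, c) :: y)) _ (by simpa using h3) ?_)
            refine R.trans _ (x1 ++ [(m + 1, b), (m, d)] ++ (x2 ++ [(m + 1, c)]) ++ y) _
              (by simpa using h4) ?_
            refine R.trans _ (x1 ++ [(m + 1, b), (m, d), (m + 1, c)] ++ (x2 ++ y)) _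
              (by simpa using h4') ?_
            simpa using h6

end Rules

/-- the induction step, abstractly -/
theorem step {m0 : ℕ} {Rel : Wd → Wd → Prop} {Kill : Wd → Prop} (R : Rules m0 Rel Kill)
    (Q : Wd → Prop) (hkill : ∀ u v w, In m0 u → In m0 v → Kill w → Q (u ++ w ++ v))
    (hrel : ∀ u v w w', In m0 u → In m0 v → Rel w w' → Q (u ++ w' ++ v) → Q (u ++ w ++ v))
    (m : ℕ) (hm : m < m0) (h0 : ∀ w, In m w → Q w)
    (hodd : Odd m → ∀ x y b, In m x → In m y → Q (x ++ (m, b) :: y))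
    (hev : Even m → ∀ x y b, In m x → In (m - 1) y → Q (x ++ (m, b) :: y))
    (htop : ∀ m', m = m' + 1 → Even m → ∀ Z Y b d, In m Z → In m' Y →
      Q (Z ++ (m, b) :: (m', d) :: Y)) :
    ∀ w, In (m + 1) w → Q w := by
  intro w hw
  rcases R.nf m hm w hw with h | ⟨w', hw', h⟩ | ⟨x, y, b, hx, hy, h⟩
  · have := hkill [] [] w (In.nil _) (In.nil _) h
    simpa using this
  · have := hrel [] [] w w' (In.nil _) (In.nil _) h (by simpa using h0 w' hw')
    simpa using this
  · have key : Q (x ++ (m, b) :: y) := by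
      rcases Nat.even_or_odd m with he | ho
      · cases m with
        | zero => exact hev he x y b hx (by simpa using hy)
        | succ m' =>
          have hxb : In m0 (x ++ [(m' + 1, b)]) :=
            (hx.mono (by omega)).append (In.cons hm (In.nil _))
          rcases R.nf m' (by omega) y hy with h1 | ⟨y', hy', h1⟩ | ⟨y1, y2, d, hy1, hy2, h1⟩
          · have := hkill (x ++ [(m' + 1, b)]) [] y hxb (In.nil _) h1
            simpa using this
          · have := hrel (x ++ [(m' + 1, b)]) [] y y' hxb (In.nil _) h1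
              (by simpa using hev he x y' b hx (by simpa using hy'))
            simpa using this
          · have h2 : Q (x ++ (m' + 1, b) :: (y1 ++ (m', d) :: y2)) := by
              have hd0 : In m0 ((m', d) :: y2) := In.cons (by simp; omega) (hy2.mono (by omega))
              have := hrel x ((m', d) :: y2) _ _ (hx.mono (by omega)) hd0
                (R.move m' b hm y1 hy1)
                (by simpa using htop m' rfl he (x ++ y1) y2 b d
                      (hx.append (hy1.mono (by omega))) hy2)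
              simpa using this
            have := hrel (x ++ [(m' + 1, b)]) [] y _ hxb (In.nil _) h1 (by simpa using h2)
            simpa using this
      · exact hodd ho x y b hx hy
    have := hrel [] [] w _ (In.nil _) (In.nil _) h (by simpa using key)
    simpa using this

/-! ### identities -/

section alg

variable {A : Type} [Ring A] [Algebra ℤ[X] A] {M : ℕ} {e : ℕ → A}

theorem W_nil : W e ([] : Wd) = 1 := by simp [W]

theorem W_append (u v : Wd) : W e (u ++ v) = W e u * W e v := by simp [W]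

theorem W_cons (l : ℕ × Bool) (v : Wd) : W e (l :: v) = lv e l * W e v := by simp [W]

theorem comm_W (h : TLR ℤ[X] A X M e) {m j : ℕ} (hmj : m + 1 ≤ j) (hj : j < M) {y : Wd}
    (hy : In m y) : e j * W e y = W e y * e j := by
  induction y with
  | nil => simp [W_nil]
  | cons l y ih =>
    obtain ⟨i, c⟩ := l
    have hi : i < m := hy (i, c) List.mem_cons_self
    have h1 : e j * lv e (i, c) = lv e (i, c) * e j := by
      have h2 := h.comm i j (by omega) hj
      cases c
      · simp [lv, h2]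
      · simp [lv, mul_add, add_mul, h2]
    rw [W_cons, ← mul_assoc, h1, mul_assoc, ih hy.tail, mul_assoc]

theorem two_smul' (a : A) : (2 : ℤ[X]) • a = a + a := two_smul _ _

theorem id_ex (h : TLR ℤ[X] A X M e) {j : ℕ} (hj : j < M) :
    e j * (1 + e j) = e j + (X : ℤ[X]) • e j := by
  rw [mul_add, mul_one, h.sq j hj]

theorem id_xe (h : TLR ℤ[X] A X M e) {j : ℕ} (hj : j < M) :
    (1 + e j) * e j = e j + (X : ℤ[X]) • e j := by
  rw [add_mul, one_mul, h.sq j hj]

theorem id_xx (h : TLR ℤ[X] A X M e) {j : ℕ} (hj : j < M) :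
    (1 + e j) * (1 + e j) = 1 + (X + 2 : ℤ[X]) • e j := by
  rw [add_smul, two_smul', mul_add, mul_one, id_xe h hj]; abel

theorem id_ExE (h : TLR ℤ[X] A X M e) {j : ℕ} (hj : j + 1 < M) :
    e (j + 1) * (1 + e j) * e (j + 1) = e (j + 1) + (X : ℤ[X]) • e (j + 1) := by
  rw [mul_add, add_mul, mul_one, h.sq (j + 1) hj, h.r2 j hj]; abel

theorem id_YeY (h : TLR ℤ[X] A X M e) {j : ℕ} (hj : j + 1 < M) :
    (1 + e (j + 1)) * e j * (1 + e (j + 1)) =
      e j + e (j + 1) + e j * e (j + 1) + e (j + 1) * e j := by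
  have h1 := h.r2 j hj
  simp only [mul_add, add_mul, mul_one, one_mul, h1]; abel

theorem id_xEx (h : TLR ℤ[X] A X M e) {j : ℕ} (hj : j + 1 < M) :
    (1 + e j) * e (j + 1) * (1 + e j) =
      e j + e (j + 1) + e j * e (j + 1) + e (j + 1) * e j := by
  have h1 := h.r1 j hj
  simp only [mul_add, add_mul, mul_one, one_mul, h1]; abel

theorem id_YeE (h : TLR ℤ[X] A X M e) {j : ℕ} (hj : j + 1 < M) :
    (1 + e (j + 1)) * e j * e (j + 1) = (1 + e j) * e (j + 1) := by
  have h1 := h.r2 j hj
  simp only [add_mul, one_mul, h1]; abel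

theorem id_EeY (h : TLR ℤ[X] A X M e) {j : ℕ} (hj : j + 1 < M) :
    e (j + 1) * e j * (1 + e (j + 1)) = e (j + 1) * (1 + e j) := by
  have h1 := h.r2 j hj
  simp only [mul_add, mul_one, h1]; abel

theorem id_YxE (h : TLR ℤ[X] A X M e) {j : ℕ} (hj : j + 1 < M) :
    (1 + e (j + 1)) * (1 + e j) * e (j + 1) =
      (X + 2 : ℤ[X]) • e (j + 1) + e j * e (j + 1) := by
  have h1 := h.r2 j hj
  have h2 := h.sq (j + 1) hj
  rw [add_smul, two_smul']
  simp only [mul_add, add_mul, mul_one, one_mul, h1, h2]; abel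

theorem id_ExY (h : TLR ℤ[X] A X M e) {j : ℕ} (hj : j + 1 < M) :
    e (j + 1) * (1 + e j) * (1 + e (j + 1)) =
      (X + 2 : ℤ[X]) • e (j + 1) + e (j + 1) * e j := by
  have h1 := h.r2 j hj
  have h2 := h.sq (j + 1) hj
  rw [add_smul, two_smul']
  simp only [mul_add, add_mul, mul_one, one_mul, h1, h2]; abel

theorem id_YxY (h : TLR ℤ[X] A X M e) {j : ℕ} (hj : j + 1 < M) :
    (1 + e (j + 1)) * (1 + e j) * (1 + e (j + 1)) =
      1 + (X + 2 : ℤ[X]) • e (j + 1) +
        (e j + e (j + 1) + e j * e (j + 1) + e (j + 1) * e j) := by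
  have h1 := h.r2 j hj
  have h2 := h.sq (j + 1) hj
  rw [add_smul, two_smul']
  simp only [mul_add, add_mul, mul_one, one_mul, h1, h2]; abel

theorem id_xYx (h : TLR ℤ[X] A X M e) {j : ℕ} (hj : j + 1 < M) :
    (1 + e j) * (1 + e (j + 1)) * (1 + e j) =
      1 + (X + 2 : ℤ[X]) • e j +
        (e j + e (j + 1) + e j * e (j + 1) + e (j + 1) * e j) := by
  have h1 := h.r1 j hj
  have h2 := h.sq j (by omega)
  rw [add_smul, two_smul']
  simp only [mul_add, add_mul, mul_one, one_mul, h1, h2]; abel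

end alg

/-! ### values -/

section val

variable {A : Type} [Ring A] [Algebra ℤ[X] A] (e : ℕ → A) (φ : A →ₗ[ℤ[X]] ℤ[X])

/-- the value of a word -/
noncomputable def Fv (w : Wd) : ℤ[X] := φ (W e w)

/-- the integer value of a word -/
noncomputable def av (w : Wd) : ℤ := (Fv e φ w).eval (-2)

/-- the functional in a context -/
noncomputable def ctx (u v : Wd) : A →ₗ[ℤ[X]] ℤ[X] :=
  φ ∘ₗ (LinearMap.mulRight ℤ[X] (W e v)) ∘ₗ (LinearMap.mulLeft ℤ[X] (W e u))

theorem F_ctx (u w v : Wd) : Fv e φ (u ++ w ++ v) = ctx e φ u v (W e w) := by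
  simp [Fv, ctx, W_append, mul_assoc]

theorem W1 (l : ℕ × Bool) : W e [l] = lv e l := by simp [W]

theorem W2 (l l' : ℕ × Bool) : W e [l, l'] = lv e l * lv e l' := by simp [W]

theorem W3 (l l' l'' : ℕ × Bool) : W e [l, l', l''] = lv e l * lv e l' * lv e l'' := by
  simp [W, mul_assoc]

theorem lvf (j : ℕ) : lv e (j, false) = e j := by simp [lv]

theorem lvt (j : ℕ) : lv e (j, true) = 1 + e j := by simp [lv]

variable {e} {M : ℕ} (h : TLR ℤ[X] A X M e)

include h

theorem fi_comm {i j : ℕ} (b c : Bool) (hij : i + 2 ≤ j) (hj : j < M) (u v : Wd) :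
    Fv e φ (u ++ [(j, b), (i, c)] ++ v) = Fv e φ (u ++ [(i, c), (j, b)] ++ v) := by
  rw [F_ctx, F_ctx, W2, W2]
  congr 1
  have h2 := h.comm i j hij hj
  cases b <;> cases c <;> simp only [lvf, lvt, mul_add, add_mul, mul_one, one_mul, h2] <;> abel

theorem fi_ff {j : ℕ} (hj : j < M) (u v : Wd) :
    Fv e φ (u ++ [(j, false), (j, false)] ++ v) = X * Fv e φ (u ++ [(j, false)] ++ v) := by
  rw [F_ctx, F_ctx, W2, W1, lvf, h.sq j hj, map_smul, smul_eq_mul]

theorem fi_ft {j : ℕ} (hj : j < M) (u v : Wd) :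
    Fv e φ (u ++ [(j, false), (j, true)] ++ v) =
      Fv e φ (u ++ [(j, false)] ++ v) + X * Fv e φ (u ++ [(j, false)] ++ v) := by
  rw [F_ctx, F_ctx, W2, W1, lvf, lvt, id_ex h hj, map_add, map_smul, smul_eq_mul]

theorem fi_tf {j : ℕ} (hj : j < M) (u v : Wd) :
    Fv e φ (u ++ [(j, true), (j, false)] ++ v) =
      Fv e φ (u ++ [(j, false)] ++ v) + X * Fv e φ (u ++ [(j, false)] ++ v) := by
  rw [F_ctx, F_ctx, W2, W1, lvf, lvt, id_xe h hj, map_add, map_smul, smul_eq_mul]

theorem fi_tt {j : ℕ} (hj : j < M) (u v : Wd) :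
    Fv e φ (u ++ [(j, true), (j, true)] ++ v) =
      Fv e φ (u ++ [] ++ v) + (X + 2) * Fv e φ (u ++ [(j, false)] ++ v) := by
  rw [F_ctx, F_ctx, F_ctx, W2, W1, W_nil, lvf, lvt, id_xx h hj, map_add, map_smul, smul_eq_mul]

theorem fi_fff {j : ℕ} (hj : j + 1 < M) (u v : Wd) :
    Fv e φ (u ++ [(j + 1, false), (j, false), (j + 1, false)] ++ v) =
      Fv e φ (u ++ [(j + 1, false)] ++ v) := by
  rw [F_ctx, F_ctx, W3, W1, lvf, lvf, h.r2 j hj]

theorem fi_tff {j : ℕ} (hj : j + 1 < M) (u v : Wd) :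
    Fv e φ (u ++ [(j + 1, true), (j, false), (j + 1, false)] ++ v) =
      Fv e φ (u ++ [(j, true), (j + 1, false)] ++ v) := by
  rw [F_ctx, F_ctx, W3, W2, lvf, lvf, lvt, lvt, id_YeE h hj]

theorem fi_fft {j : ℕ} (hj : j + 1 < M) (u v : Wd) :
    Fv e φ (u ++ [(j + 1, false), (j, false), (j + 1, true)] ++ v) =
      Fv e φ (u ++ [(j + 1, false), (j, true)] ++ v) := by
  rw [F_ctx, F_ctx, W3, W2, lvf, lvf, lvt, lvt, id_EeY h hj]

theorem fi_tft {j : ℕ} (hj : j + 1 < M) (u v : Wd) :
    Fv e φ (u ++ [(j + 1, true), (j, false), (j + 1, true)] ++ v) =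
      Fv e φ (u ++ [(j, true), (j + 1, false), (j, true)] ++ v) := by
  rw [F_ctx, F_ctx, W3, W3, lvf, lvf, lvt, lvt, id_YeY h hj, id_xEx h hj]

theorem fi_ftf {j : ℕ} (hj : j + 1 < M) (u v : Wd) :
    Fv e φ (u ++ [(j + 1, false), (j, true), (j + 1, false)] ++ v) =
      Fv e φ (u ++ [(j + 1, false)] ++ v) + X * Fv e φ (u ++ [(j + 1, false)] ++ v) := by
  rw [F_ctx, F_ctx, W3, W1, lvf, lvt, id_ExE h hj, map_add, map_smul, smul_eq_mul]

theorem fi_ttf {j : ℕ} (hj : j + 1 < M) (u v : Wd) :
    Fv e φ (u ++ [(j + 1, true), (j, true), (j + 1, false)] ++ v) =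
      Fv e φ (u ++ [(j, false), (j + 1, false)] ++ v) +
        (X + 2) * Fv e φ (u ++ [(j + 1, false)] ++ v) := by
  rw [F_ctx, F_ctx, F_ctx, W3, W2, W1, lvf, lvf, lvt, lvt, id_YxE h hj, map_add, map_smul,
    smul_eq_mul, add_comm]

theorem fi_ftt {j : ℕ} (hj : j + 1 < M) (u v : Wd) :
    Fv e φ (u ++ [(j + 1, false), (j, true), (j + 1, true)] ++ v) =
      Fv e φ (u ++ [(j + 1, false), (j, false)] ++ v) +
        (X + 2) * Fv e φ (u ++ [(j + 1, false)] ++ v) := by
  rw [F_ctx, F_ctx, F_ctx, W3, W2, W1, lvf, lvf, lvt, lvt, id_ExY h hj, map_add, map_smul,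
    smul_eq_mul, add_comm]

theorem fi_ttt {j : ℕ} (hj : j + 1 < M) (u v : Wd) :
    Fv e φ (u ++ [(j + 1, true), (j, true), (j + 1, true)] ++ v) =
      Fv e φ (u ++ [(j, true), (j + 1, true), (j, true)] ++ v) +
        (X + 2) * (Fv e φ (u ++ [(j, true), (j + 1, true)] ++ v) - Fv e φ (u ++ [] ++ v) -
          Fv e φ (u ++ [(j, false), (j + 1, false)] ++ v)) -
        2 * ((X + 2) * Fv e φ (u ++ [(j, false)] ++ v)) := by
  simp only [F_ctx, W3, W2, W1, W_nil, lvf, lvt, id_YxY h hj, id_xYx h hj, map_add, map_smul,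
    smul_eq_mul]
  have : (1 + e j) * (1 + e (j + 1)) = 1 + e j + e (j + 1) + e j * e (j + 1) := by
    simp only [mul_add, add_mul, mul_one, one_mul]; abel
  rw [this]
  simp only [map_add]
  ring

theorem q1 {j : ℕ} (u v : Wd) :
    Fv e φ (u ++ [(j, false), (j + 1, true)] ++ v) =
      Fv e φ (u ++ [(j, false)] ++ v) + Fv e φ (u ++ [(j, false), (j + 1, false)] ++ v) := by
  simp only [F_ctx, W3, W2, W1, W_nil, lvf, lvt, mul_add, mul_one, map_add]

theorem q2 {j : ℕ} (u v : Wd) :
    Fv e φ (u ++ [(j, true), (j + 1, false)] ++ v) =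
      Fv e φ (u ++ [(j + 1, false)] ++ v) + Fv e φ (u ++ [(j, false), (j + 1, false)] ++ v) := by
  simp only [F_ctx, W3, W2, W1, W_nil, lvf, lvt, add_mul, one_mul, map_add]

theorem q3 {j : ℕ} (u v : Wd) :
    Fv e φ (u ++ [(j + 1, false), (j, true)] ++ v) =
      Fv e φ (u ++ [(j + 1, false)] ++ v) + Fv e φ (u ++ [(j + 1, false), (j, false)] ++ v) := by
  simp only [F_ctx, W3, W2, W1, W_nil, lvf, lvt, mul_add, mul_one, map_add]

theorem q5 {j : ℕ} (u v : Wd) :
    Fv e φ (u ++ [(j, true)] ++ v) =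
      Fv e φ (u ++ [] ++ v) + Fv e φ (u ++ [(j, false)] ++ v) := by
  simp only [F_ctx, W3, W2, W1, W_nil, lvf, lvt, map_add]

theorem q4a {j : ℕ} (hj : j + 1 < M) (u v : Wd) :
    Fv e φ (u ++ [(j + 1, true), (j, true), (j + 1, true)] ++ v) =
      Fv e φ (u ++ [(j, true), (j + 1, true)] ++ v) +
        Fv e φ (u ++ [(j + 1, false), (j, false)] ++ v) +
        (X + 2) * Fv e φ (u ++ [(j + 1, false)] ++ v) := by
  simp only [F_ctx, W3, W2, W1, W_nil, lvf, lvt, id_YxY h hj, map_add, map_smul, smul_eq_mul]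
  have : (1 + e j) * (1 + e (j + 1)) = 1 + e j + e (j + 1) + e j * e (j + 1) := by
    simp only [mul_add, add_mul, mul_one, one_mul]; abel
  rw [this]
  simp only [map_add]
  ring

theorem q4b {j : ℕ} (hj : j + 1 < M) (u v : Wd) :
    Fv e φ (u ++ [(j + 1, true), (j, true), (j + 1, true)] ++ v) =
      Fv e φ (u ++ [(j + 1, true), (j, true)] ++ v) +
        Fv e φ (u ++ [(j, false), (j + 1, false)] ++ v) +
        (X + 2) * Fv e φ (u ++ [(j + 1, false)] ++ v) := by
  simp only [F_ctx, W3, W2, W1, W_nil, lvf, lvt, id_YxY h hj, map_add, map_smul, smul_eq_mul]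
  have : (1 + e (j + 1)) * (1 + e j) = 1 + e j + e (j + 1) + e (j + 1) * e j := by
    simp only [mul_add, add_mul, mul_one, one_mul]; abel
  rw [this]
  simp only [map_add]
  ring

theorem q4c {j : ℕ} (hj : j + 1 < M) (u v : Wd) :
    Fv e φ (u ++ [(j + 1, true), (j, true), (j + 1, true)] ++ v) =
      Fv e φ (u ++ [] ++ v) +
        Fv e φ (u ++ [(j + 1, true), (j, false), (j + 1, true)] ++ v) +
        (X + 2) * Fv e φ (u ++ [(j + 1, false)] ++ v) := by
  simp only [F_ctx, W3, W2, W1, W_nil, lvf, lvt, id_YxY h hj, id_YeY h hj, map_add, map_smul,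
    smul_eq_mul]
  ring


theorem X_cancel {p q : ℤ[X]} (hpq : X * p = X * q) : p = q := mul_left_cancel₀ X_ne_zero hpq

variable {φ} (hs : St ℤ[X] A X M e φ)

include hs

/-- even top letter commuting with everything to the right -/
theorem evR {m : ℕ} (hm : m < M) (he : Even m) (x y : Wd) (hy : In (m - 1) y) :
    Fv e φ (x ++ (m, false) :: y) = X * Fv e φ (x ++ y) ∧
      Fv e φ (x ++ (m, true) :: y) = Fv e φ (x ++ y) + X * Fv e φ (x ++ y) := by
  have hc : e m * W e y = W e y * e m := by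
    rcases Nat.eq_zero_or_pos m with h0 | h0
    · subst h0
      have : y = [] := In.zero (by simpa using hy)
      rw [this, W_nil]; simp
    · exact comm_W h (by omega) hm hy
  have h1 : φ (W e x * (e m * W e y)) = X * φ (W e x * W e y) := by
    rw [hc, ← mul_assoc, hs.right m hm he]
  constructor
  · simp only [Fv, W_append, W_cons, lvf]
    exact h1
  · simp only [Fv, W_append, W_cons, lvt, add_mul, mul_add, one_mul, map_add]
    rw [h1]

/-- odd top letter -/
theorem evO {m : ℕ} (hm : m + 1 < M) (ho : Odd m) (x y : Wd) (hx : In m x) (hy : In m y) :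
    X * Fv e φ (x ++ (m, false) :: y) = Fv e φ (x ++ y) ∧
      X * Fv e φ (x ++ (m, true) :: y) = Fv e φ (x ++ y) + X * Fv e φ (x ++ y) := by
  have he : Even (m + 1) := Odd.add_one ho
  have hcx := comm_W h (le_refl (m + 1)) hm hx
  have hcy := comm_W h (le_refl (m + 1)) hm hy
  have h1 : X * (X * φ (W e x * (e m * W e y))) = X * φ (W e x * W e y) := by
    rw [← hs.right (m + 1) hm he, ← hs.left (m + 1) hm he, ← hs.right (m + 1) hm he]
    congr 1
    calc e (m + 1) * (W e x * (e m * W e y) * e (m + 1))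
        = (e (m + 1) * W e x) * e m * (W e y * e (m + 1)) := by simp only [mul_assoc]
      _ = (W e x * e (m + 1)) * e m * (e (m + 1) * W e y) := by rw [hcx, hcy]
      _ = W e x * (e (m + 1) * e m * e (m + 1)) * W e y := by simp only [mul_assoc]
      _ = W e x * e (m + 1) * W e y := by rw [h.r2 m hm]
      _ = W e x * (e (m + 1) * W e y) := by simp only [mul_assoc]
      _ = W e x * (W e y * e (m + 1)) := by rw [hcy]
      _ = W e x * W e y * e (m + 1) := by simp only [mul_assoc]
  have h2 := X_cancel h h1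
  constructor
  · simp only [Fv, W_append, W_cons, lvf]
    exact h2
  · simp only [Fv, W_append, W_cons, lvt, add_mul, mul_add, one_mul, map_add]
    rw [h2]; ring

/-- even top letter followed by the previous letter -/
theorem evT {m : ℕ} (hm : m + 1 < M) (he : Even (m + 1)) (Z Y : Wd) (hY : In m Y) :
    Fv e φ (Z ++ (m + 1, false) :: (m, false) :: Y) = Fv e φ (Z ++ Y) ∧
    Fv e φ (Z ++ (m + 1, false) :: (m, true) :: Y) = Fv e φ (Z ++ Y) + X * Fv e φ (Z ++ Y) ∧
    Fv e φ (Z ++ (m + 1, true) :: (m, false) :: Y) = Fv e φ (Z ++ (m, true) :: Y) ∧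
    Fv e φ (Z ++ (m + 1, true) :: (m, true) :: Y) =
      Fv e φ (Z ++ (m, false) :: Y) + (X + 2) * Fv e φ (Z ++ Y) := by
  have hc := comm_W h (le_refl (m + 1)) hm hY
  have h1 : φ (W e Z * (e (m + 1) * W e Y)) = X * φ (W e Z * W e Y) := by
    rw [hc, ← mul_assoc, hs.right (m + 1) hm he]
  have h2 : φ (W e Z * (e (m + 1) * (e m * W e Y))) = φ (W e Z * W e Y) := by
    apply X_cancel h
    rw [← hs.right (m + 1) hm he, ← h1]
    congr 1
    calc W e Z * (e (m + 1) * (e m * W e Y)) * e (m + 1)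
        = W e Z * (e (m + 1) * (e m * (W e Y * e (m + 1)))) := by simp only [mul_assoc]
      _ = W e Z * (e (m + 1) * (e m * (e (m + 1) * W e Y))) := by rw [hc]
      _ = W e Z * ((e (m + 1) * e m * e (m + 1)) * W e Y) := by simp only [mul_assoc]
      _ = W e Z * (e (m + 1) * W e Y) := by rw [h.r2 m hm]
  refine ⟨?_, ?_, ?_, ?_⟩
  · simp only [Fv, W_append, W_cons, lvf]
    exact h2
  · simp only [Fv, W_append, W_cons, lvf, lvt, add_mul, mul_add, one_mul, map_add]
    rw [h2, h1]; ring
  · simp only [Fv, W_append, W_cons, lvf, lvt, add_mul, mul_add, one_mul, map_add]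
    rw [h2]; ring
  · simp only [Fv, W_append, W_cons, lvf, lvt, add_mul, mul_add, one_mul, map_add]
    rw [h2, h1]; ring

end val

/-! ### large powers of two -/

/-- a power of two (up to sign) with exponent at least `p` -/
def Big (p : ℕ) (x : ℤ) : Prop := ∃ μ : ℕ, |x| = 2 ^ μ ∧ p ≤ μ

theorem Big.of_abs {p : ℕ} {x y : ℤ} (hxy : |x| = |y|) (hx : Big p x) : Big p y := by
  obtain ⟨μ, h1, h2⟩ := hx; exact ⟨μ, hxy ▸ h1, h2⟩

theorem Big.mono {p q : ℕ} {x : ℤ} (hpq : q ≤ p) (hx : Big p x) : Big q x := by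
  obtain ⟨μ, h1, h2⟩ := hx; exact ⟨μ, h1, hpq.trans h2⟩

theorem P2.neg {x : ℤ} (hx : P2 x) : P2 (-x) := P2.of_abs (abs_neg x) hx

theorem Big.half1 {p : ℕ} {x y z : ℤ} (hx : Big (p + 1) x) (hy : P2 y) (hz : P2 z)
    (hxyz : x = y + z) : Big p y := by
  obtain ⟨μ, h1, h2⟩ := hx
  obtain ⟨β, hβ⟩ := hy
  obtain ⟨γ, hγ⟩ := hz
  exact ⟨β, hβ, by have := half h1 hβ hγ hxyz; omega⟩

theorem Big.half2 {p : ℕ} {x y z : ℤ} (hx : Big (p + 1) x) (hy : P2 y) (hz : P2 z)
    (hxyz : x = y + z) : Big p z := hx.half1 hz hy (by rw [hxyz]; ring)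

theorem Big.half3 {p : ℕ} {x y z : ℤ} (hx : Big (p + 1) x) (hy : P2 y) (hz : P2 z)
    (hxyz : y = x + z) : Big p z := by
  have h1 : Big p (-z) := hx.half2 hy hz.neg (by rw [hxyz]; ring)
  exact h1.of_abs (abs_neg z)

theorem Big.of_two {p : ℕ} {x y : ℤ} (hx : Big (p + 1) x) (hxy : |x| = 2 * |y|) : Big p y := by
  obtain ⟨μ, h1, h2⟩ := hx
  cases μ with
  | zero => omega
  | succ μ => exact ⟨μ, by rw [h1, pow_succ'] at hxy; linarith, by omega⟩

theorem Big.two {p : ℕ} {x y : ℤ} (hx : Big p x) (hxy : |y| = 2 * |x|) : Big (p + 1) y := by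
  obtain ⟨μ, h1, h2⟩ := hx
  exact ⟨μ + 1, by rw [hxy, h1, pow_succ'], by omega⟩

/-! ### the value at `-2` is a power of two -/

section partA

variable {A : Type} [Ring A] [Algebra ℤ[X] A] {e : ℕ → A} {φ : A →ₗ[ℤ[X]] ℤ[X]} {M : ℕ}

/-- relation for the value at `-2` -/
def RA (e : ℕ → A) (φ : A →ₗ[ℤ[X]] ℤ[X]) (w w' : Wd) : Prop :=
  ∃ k : ℕ, ∀ u v : Wd, |av e φ (u ++ w ++ v)| = 2 ^ k * |av e φ (u ++ w' ++ v)|

theorem eX (p : ℤ[X]) : (X * p).eval (-2) = -2 * p.eval (-2) := by simp

theorem eXX (p : ℤ[X]) : ((X + 2) * p).eval (-2) = 0 := by simp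

theorem eadd (p q : ℤ[X]) : (p + q).eval (-2) = p.eval (-2) + q.eval (-2) := by simp

theorem rulesA (h : TLR ℤ[X] A X M e) : Rules M (RA e φ) (fun _ => False) where
  refl w := ⟨0, fun u v => by simp⟩
  trans w1 w2 w3 := by
    rintro ⟨k, hk⟩ ⟨l, hl⟩
    exact ⟨k + l, fun u v => by rw [hk, hl, pow_add]; ring⟩
  congr u v w w' _ _ := by
    rintro ⟨k, hk⟩
    refine ⟨k, fun u' v' => ?_⟩
    have := hk (u' ++ u) (v ++ v')
    simpa using this
  kcongr u v w _ _ hw := hw
  kof w w' _ hw := hw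
  comm i j b c hij hj := ⟨0, fun u v => by
    rw [av, av, fi_comm φ h b c hij hj]; simp⟩
  comm' i j b c hij hj := ⟨0, fun u v => by
    rw [av, av, fi_comm φ h b c hij hj]; simp⟩
  dbl j b c hj := by
    right
    cases b <;> cases c
    · right; exact ⟨false, 1, fun u v => by
        rw [av, av, fi_ff φ h hj, eX, abs_mul]; norm_num⟩
    · right; exact ⟨false, 0, fun u v => by
        rw [av, av, fi_ft φ h hj, eadd, eX, pow_zero, one_mul, ← abs_neg]; congr 1; ring⟩
    · right; exact ⟨false, 0, fun u v => by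
        rw [av, av, fi_tf φ h hj, eadd, eX, pow_zero, one_mul, ← abs_neg]; congr 1; ring⟩
    · left; exact ⟨0, fun u v => by
        rw [av, av, fi_tt φ h hj, eadd, eXX, pow_zero, one_mul, add_zero]⟩
  tri j b d c hj := by
    have i0 : In (j + 1) [] := In.nil _
    have i1 : ∀ b, In (j + 1) [(j, b)] := fun b => In.cons (by simp) i0
    cases b <;> cases d <;> cases c
    · exact ⟨[], [], false, i0, i0, 0, fun u v => by
        rw [List.nil_append, av, av, fi_fff φ h hj]; simp⟩
    · exact ⟨[], [(j, true)], false, i0, i1 _, 0, fun u v => by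
        rw [List.nil_append, av, av, fi_fft φ h hj]; simp⟩
    · exact ⟨[], [], false, i0, i0, 0, fun u v => by
        rw [List.nil_append, av, av, fi_ftf φ h hj, eadd, eX, pow_zero, one_mul, ← abs_neg]
        congr 1; ring⟩
    · exact ⟨[], [(j, false)], false, i0, i1 _, 0, fun u v => by
        rw [List.nil_append, av, av, fi_ftt φ h hj, eadd, eXX, pow_zero, one_mul, add_zero]⟩
    · exact ⟨[(j, true)], [], false, i1 _, i0, 0, fun u v => by
        rw [List.singleton_append, av, av, fi_tff φ h hj]; simp⟩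
    · exact ⟨[(j, true)], [(j, true)], false, i1 _, i1 _, 0, fun u v => by
        rw [List.singleton_append, av, av, fi_tft φ h hj]; simp⟩
    · exact ⟨[(j, false)], [], false, i1 _, i0, 0, fun u v => by
        rw [List.singleton_append, av, av, fi_ttf φ h hj, eadd, eXX, pow_zero, one_mul, add_zero]⟩
    · exact ⟨[(j, true)], [(j, true)], true, i1 _, i1 _, 0, fun u v => by
        rw [List.singleton_append, av, av, fi_ttt φ h hj]; simp⟩

theorem partA {n : ℕ} (h : TLR ℤ[X] A X (2 * n + 1) e) (hs : St ℤ[X] A X (2 * n + 1) e φ)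
    (h1 : φ 1 = X ^ (n + 1)) (m : ℕ) (hm : m ≤ 2 * n + 1) (w : Wd) (hw : In m w) :
    P2 (av e φ w) := by
  induction m generalizing w with
  | zero =>
    rw [hw.zero]
    refine ⟨n + 1, ?_⟩
    rw [av, Fv, W_nil, h1, eval_pow, eval_X, abs_pow]; norm_num
  | succ m ih =>
    have hm' : m < 2 * n + 1 := hm
    refine step (rulesA (φ := φ) h) (fun w => P2 (av e φ w)) (fun u v w _ _ hf => hf.elim)
      (fun u v w w' _ _ hR hQ => ?_) m hm' (fun w hw => ih (by omega) w hw) ?_ ?_ ?_ w hw
    · obtain ⟨k, hk⟩ := hR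
      exact P2.of_pow (hk u v) hQ
    · intro ho x y b hx hy
      have hm1 : m + 1 < 2 * n + 1 := by obtain ⟨k, hk⟩ := ho; omega
      obtain ⟨h2, h3⟩ := evO h hs hm1 ho x y hx hy
      have h4 := ih (by omega) (x ++ y) (hx.append hy)
      refine P2.of_two (y := av e φ (x ++ y)) ?_ h4
      cases b
      · have := congrArg (eval (-2)) h2
        rw [eX] at this
        rw [av, av, ← this, abs_mul]; norm_num
      · have := congrArg (eval (-2)) h3
        rw [eX, eadd, eX] at this
        have h5 : (Fv e φ (x ++ y)).eval (-2) = 2 * (Fv e φ (x ++ (m, true) :: y)).eval (-2) := by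
          linarith
        rw [av, av, h5, abs_mul]; norm_num
    · intro he x y b hx hy
      obtain ⟨h2, h3⟩ := evR h hs hm' he x y hy
      have h4 := ih (by omega) (x ++ y) (hx.append (hy.mono (by omega)))
      cases b
      · refine P2.of_pow (y := av e φ (x ++ y)) (k := 1) ?_ h4
        rw [av, av, h2, eX, abs_mul]; norm_num
      · refine P2.of_abs (y := av e φ (x ++ y)) ?_ h4
        rw [av, av, h3, eadd, eX, ← abs_neg]; congr 1; ring
    · intro m' hmm he Z Y b d hZ hY
      subst hmm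
      obtain ⟨h2, h3, h4, h5⟩ := evT h hs hm' he Z Y hY
      have hY' : In (m' + 1) Y := hY.mono (by omega)
      have h6 := ih (by omega) (Z ++ Y) (hZ.append hY')
      cases b <;> cases d
      · rw [av, h2]; exact h6
      · refine P2.of_abs (y := av e φ (Z ++ Y)) ?_ h6
        rw [av, av, h3, eadd, eX, ← abs_neg]; congr 1; ring
      · rw [av, h4]
        exact ih (by omega) _ (hZ.append (In.cons (by simp) hY'))
      · rw [av, h5, eadd, eXX, add_zero]
        exact ih (by omega) _ (hZ.append (In.cons (by simp) hY'))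

end partA

/-! ### the order of the value -/

section partB

variable {A : Type} [Ring A] [Algebra ℤ[X] A] {e : ℕ → A} {φ : A →ₗ[ℤ[X]] ℤ[X]} {M : ℕ}

/-- relation to precision `p + 1` -/
def RB (e : ℕ → A) (φ : A →ₗ[ℤ[X]] ℤ[X]) (m0 p : ℕ) (w w' : Wd) : Prop :=
  ∀ u v : Wd, In m0 u → In m0 v → |av e φ (u ++ w ++ v)| = |av e φ (u ++ w' ++ v)| ∧
    (Big (p + 1) (av e φ (u ++ w ++ v)) →
      Ord (p + 1) (Fv e φ (u ++ w ++ v) - Fv e φ (u ++ w' ++ v)))

/-- zero to precision `p + 1` -/
def KB (e : ℕ → A) (φ : A →ₗ[ℤ[X]] ℤ[X]) (m0 p : ℕ) (w : Wd) : Prop :=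
  ∀ u v : Wd, In m0 u → In m0 v → Big (p + 1) (av e φ (u ++ w ++ v)) →
      Ord (p + 1) (Fv e φ (u ++ w ++ v))

theorem RB_of_eq {m0 p : ℕ} {w w' : Wd} (hw : ∀ u v, Fv e φ (u ++ w ++ v) = Fv e φ (u ++ w' ++ v)) :
    RB e φ m0 p w w' := fun u v _ _ => by
  refine ⟨by rw [av, av, hw], fun _ => ?_⟩
  rw [hw, sub_self]; exact Ord.zero _

theorem RB_dblft {m0 p j : ℕ} {w : Wd} (hj : j < m0)
    (hS : ∀ q, q ≤ p → ∀ w, In m0 w → Big q (av e φ w) → Ord q (Fv e φ w))
    (hw : ∀ u v, Fv e φ (u ++ w ++ v) = Fv e φ (u ++ [(j, false)] ++ v) +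
      X * Fv e φ (u ++ [(j, false)] ++ v)) : RB e φ m0 p w [(j, false)] := fun u v hu hv => by
  have hab : |av e φ (u ++ w ++ v)| = |av e φ (u ++ [(j, false)] ++ v)| := by
    rw [av, av, hw, eadd, eX, ← abs_neg]; congr 1; ring
  refine ⟨hab, fun hB => ?_⟩
  have h1 : Ord p (Fv e φ (u ++ [(j, false)] ++ v)) :=
    hS p le_rfl _ ((hu.append (In.cons hj (In.nil _))).append hv) ((hB.of_abs hab).mono (by omega))
  rw [hw, add_sub_cancel_left]
  exact h1.mulX

theorem rulesB (h : TLR ℤ[X] A X M e) {m0 p : ℕ} (hm0 : m0 ≤ M)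
    (hA : ∀ w, In M w → P2 (av e φ w))
    (hS : ∀ q, q ≤ p → ∀ w, In m0 w → Big q (av e φ w) → Ord q (Fv e φ w)) :
    Rules m0 (RB e φ m0 p) (KB e φ m0 p) where
  refl w := RB_of_eq (fun u v => rfl)
  trans w1 w2 w3 h12 h23 := fun u v hu hv => by
    obtain ⟨h1, h2⟩ := h12 u v hu hv
    obtain ⟨h3, h4⟩ := h23 u v hu hv
    refine ⟨h1.trans h3, fun hB => ?_⟩
    have := (h2 hB).add (h4 (hB.of_abs h1))
    simpa using this
  congr u v w w' hu hv hR := fun u' v' hu' hv' => by
    have := hR (u' ++ u) (v ++ v') (hu'.append hu) (hv.append hv')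
    simpa using this
  kcongr u v w hu hv hK := fun u' v' hu' hv' => by
    have := hK (u' ++ u) (v ++ v') (hu'.append hu) (hv.append hv')
    simpa using this
  kof w w' hR hK := fun u v hu hv hB => by
    obtain ⟨h1, h2⟩ := hR u v hu hv
    have := (h2 hB).add (hK u v hu hv (hB.of_abs h1))
    simpa using this
  comm i j b c hij hj := RB_of_eq (fi_comm φ h b c hij (by omega))
  comm' i j b c hij hj := RB_of_eq (fun u v => (fi_comm φ h b c hij (by omega) u v).symm)
  dbl j b c hj := by
    have hjM : j < M := by omega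
    cases b <;> cases c
    · left
      intro u v hu hv hB
      have hB1 : Big p (av e φ (u ++ [(j, false)] ++ v)) := by
        refine hB.of_two ?_
        rw [av, av, fi_ff φ h hjM, eX, abs_mul]; norm_num
      rw [fi_ff φ h hjM]
      exact (hS p le_rfl _ ((hu.append (In.cons hj (In.nil _))).append hv) hB1).mulX
    · right; right
      exact ⟨false, RB_dblft hj hS (fi_ft φ h hjM)⟩
    · right; right
      exact ⟨false, RB_dblft hj hS (fi_tf φ h hjM)⟩
    · right; left
      intro u v hu hv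
      have hab : av e φ (u ++ [(j, true), (j, true)] ++ v) = av e φ (u ++ [] ++ v) := by
        rw [av, av, fi_tt φ h hjM, eadd, eXX, add_zero]
      refine ⟨by rw [hab], fun hB => ?_⟩
      rw [fi_tt φ h hjM, add_sub_cancel_left]
      rw [hab] at hB
      have i1 : ∀ b, In m0 (u ++ [(j, b)] ++ v) := fun b =>
        (hu.append (In.cons hj (In.nil _))).append hv
      have hB1 : Big p (av e φ (u ++ [(j, false)] ++ v)) := by
        refine hB.half3 (hA _ ((i1 true).mono hm0)) (hA _ ((i1 false).mono hm0)) ?_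
        rw [av, q5 φ h, eadd]; rfl
      exact (hS p le_rfl _ (i1 false) hB1).mulT
  tri j b d c hj := by
    have hjM : j + 1 < M := by omega
    have i0 : In (j + 1) [] := In.nil _
    have i1 : ∀ b, In (j + 1) [(j, b)] := fun b => In.cons (by simp) i0
    have k1 : ∀ b, In m0 [(j, b)] := fun b => In.cons (by simp; omega) (In.nil _)
    have k2 : ∀ b, In m0 [(j + 1, b)] := fun b => In.cons hj (In.nil _)
    have k12 : ∀ b c, In m0 [(j, b), (j + 1, c)] := fun b c =>
      In.cons (by simp; omega) (k2 c)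
    have k21 : ∀ b c, In m0 [(j + 1, b), (j, c)] := fun b c => In.cons hj (k1 c)
    have k212 : ∀ b c d, In m0 [(j + 1, b), (j, c), (j + 1, d)] := fun b c d =>
      In.cons hj (k12 c d)
    cases b <;> cases d <;> cases c
    · exact ⟨[], [], false, i0, i0, RB_of_eq (fi_fff φ h hjM)⟩
    · exact ⟨[], [(j, true)], false, i0, i1 _, RB_of_eq (fi_fft φ h hjM)⟩
    · exact ⟨[], [], false, i0, i0, RB_dblft hj hS (fi_ftf φ h hjM)⟩
    · refine ⟨[], [(j, false)], false, i0, i1 _, fun u v hu hv => ?_⟩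
      have hin : ∀ w, In m0 w → In m0 (u ++ w ++ v) := fun w hw => (hu.append hw).append hv
      have hab : av e φ (u ++ [(j + 1, false), (j, true), (j + 1, true)] ++ v) =
          av e φ (u ++ [(j + 1, false), (j, false)] ++ v) := by
        rw [av, av, fi_ftt φ h hjM, eadd, eXX, add_zero]
      refine ⟨by rw [List.nil_append, hab], fun hB => ?_⟩
      rw [List.nil_append, fi_ftt φ h hjM, add_sub_cancel_left]
      rw [hab] at hB
      have hB1 : Big p (av e φ (u ++ [(j + 1, false)] ++ v)) := by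
        refine hB.half3 (hA _ ((hin _ (k21 false true)).mono hm0))
          (hA _ ((hin _ (k2 false)).mono hm0)) ?_
        rw [av, q3 φ h, eadd, add_comm]; rfl
      exact (hS p le_rfl _ (hin _ (k2 false)) hB1).mulT
    · exact ⟨[(j, true)], [], false, i1 _, i0, RB_of_eq (fi_tff φ h hjM)⟩
    · exact ⟨[(j, true)], [(j, true)], false, i1 _, i1 _, RB_of_eq (fi_tft φ h hjM)⟩
    · refine ⟨[(j, false)], [], false, i1 _, i0, fun u v hu hv => ?_⟩
      have hin : ∀ w, In m0 w → In m0 (u ++ w ++ v) := fun w hw => (hu.append hw).append hv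
      have hab : av e φ (u ++ [(j + 1, true), (j, true), (j + 1, false)] ++ v) =
          av e φ (u ++ [(j, false), (j + 1, false)] ++ v) := by
        rw [av, av, fi_ttf φ h hjM, eadd, eXX, add_zero]
      refine ⟨by rw [List.singleton_append, hab], fun hB => ?_⟩
      rw [List.singleton_append, fi_ttf φ h hjM, add_sub_cancel_left]
      rw [hab] at hB
      have hB1 : Big p (av e φ (u ++ [(j + 1, false)] ++ v)) := by
        refine hB.half3 (hA _ ((hin _ (k12 true false)).mono hm0))
          (hA _ ((hin _ (k2 false)).mono hm0)) ?_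
        rw [av, q2 φ h, eadd, add_comm]; rfl
      exact (hS p le_rfl _ (hin _ (k2 false)) hB1).mulT
    · refine ⟨[(j, true)], [(j, true)], true, i1 _, i1 _, fun u v hu hv => ?_⟩
      have hin : ∀ w, In m0 w → In m0 (u ++ w ++ v) := fun w hw => (hu.append hw).append hv
      have hP : ∀ w, In m0 w → P2 (av e φ (u ++ w ++ v)) := fun w hw => hA _ ((hin w hw).mono hm0)
      have hab : av e φ (u ++ [(j + 1, true), (j, true), (j + 1, true)] ++ v) =
          av e φ (u ++ [(j, true), (j + 1, true), (j, true)] ++ v) := by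
        rw [av, av, fi_ttt φ h hjM]; simp
      refine ⟨by rw [List.singleton_append, hab], fun hB => ?_⟩
      rw [List.singleton_append, fi_ttt φ h hjM]
      have c1 : Big p (av e φ (u ++ [(j, true), (j + 1, true)] ++ v)) := by
        refine hB.half1 (hP _ (k12 true true)) (hP _ (k21 false false)) ?_
        rw [av, q4a φ h hjM, eadd, eadd, eXX, add_zero]; rfl
      have c2 : Big p (av e φ (u ++ [(j, false), (j + 1, false)] ++ v)) := by
        refine hB.half2 (hP _ (k21 true true)) (hP _ (k12 false false)) ?_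
        rw [av, q4b φ h hjM, eadd, eadd, eXX, add_zero]; rfl
      have c3 : Big p (av e φ (u ++ [] ++ v)) := by
        refine hB.half1 (hP _ (In.nil _)) (hP _ (k212 true false true)) ?_
        rw [av, q4c φ h hjM, eadd, eadd, eXX, add_zero]; rfl
      have c4 : Big (p - 1) (av e φ (u ++ [(j, false)] ++ v)) := by
        cases p with
        | zero =>
          obtain ⟨μ, hμ⟩ := hP _ (k1 false)
          exact ⟨μ, hμ, by omega⟩
        | succ p =>
          refine c2.half3 (hP _ (k12 false true)) (hP _ (k1 false)) ?_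
          rw [av, q1 φ h, eadd, add_comm]; rfl
      have o1 := hS p le_rfl _ (hin _ (k12 true true)) c1
      have o2 := hS p le_rfl _ (hin _ (k12 false false)) c2
      have o3 := hS p le_rfl _ (hin _ (In.nil _)) c3
      have o4 := hS (p - 1) (by omega) _ (hin _ (k1 false)) c4
      have o5 := ((o1.sub o3).sub o2).mulT
      have o6 : Ord (p + 1) (2 * ((X + 2) * Fv e φ (u ++ [(j, false)] ++ v))) :=
        (o4.mulT.mul2).mono (by omega)
      have := o5.sub o6
      refine (congrArg (Ord (p + 1)) ?_).mp this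
      ring

theorem partB {n : ℕ} (h : TLR ℤ[X] A X (2 * n + 1) e) (hs : St ℤ[X] A X (2 * n + 1) e φ)
    (h1 : φ 1 = X ^ (n + 1)) (m : ℕ) (hm : m ≤ 2 * n + 1) :
    ∀ q w, In m w → Big q (av e φ w) → Ord q (Fv e φ w) := by
  have hA : ∀ w, In (2 * n + 1) w → P2 (av e φ w) := fun w hw => partA h hs h1 _ le_rfl w hw
  induction m with
  | zero =>
    intro q w hw hB
    rw [hw.zero] at hB ⊢
    obtain ⟨μ, h2, h3⟩ := hB
    have h4 : |av e φ ([] : Wd)| = 2 ^ (n + 1) := by
      rw [av, Fv, W_nil, h1, eval_pow, eval_X, abs_pow]; norm_num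
    rw [h4] at h2
    have h5 := pow_inj h2
    rw [Fv, W_nil, h1]
    exact (Ord.Xpow _).mono (by omega)
  | succ m ih =>
    have hm' : m < 2 * n + 1 := hm
    have ih' := ih (by omega)
    intro q
    have key : ∀ p, ∀ q, q ≤ p → ∀ w, In (m + 1) w → Big q (av e φ w) → Ord q (Fv e φ w) := by
      intro p
      induction p with
      | zero =>
        intro q hq w _ _ i
        have : q - i = 0 := by omega
        rw [this]; simp
      | succ p ihp =>
        intro q hq
        rcases Nat.lt_or_ge p q with hpq | hpq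
        swap
        · exact ihp q hpq
        have hq' : q = p + 1 := by omega
        subst hq'
        refine step (rulesB h hm hA ihp)
          (fun w => Big (p + 1) (av e φ w) → Ord (p + 1) (Fv e φ w))
          (fun u v w hu hv hK => hK u v hu hv) (fun u v w w' hu hv hR hQ hB => ?_) m (by omega)
          (fun w hw => ih' (p + 1) w hw) ?_ ?_ ?_
        · obtain ⟨h2, h3⟩ := hR u v hu hv
          have := (h3 hB).add (hQ (hB.of_abs h2))
          simpa using this
        · intro ho x y b hx hy hB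
          have hm1 : m + 1 < 2 * n + 1 := by obtain ⟨k, hk⟩ := ho; omega
          obtain ⟨h2, h3⟩ := evO h hs hm1 ho x y hx hy
          apply Ord.ofX
          cases b
          · have h4 := congrArg (eval (-2)) h2
            rw [eX] at h4
            have hB2 : Big (p + 1 + 1) (av e φ (x ++ y)) := by
              refine hB.two ?_
              rw [av, av, ← h4, abs_mul]; norm_num
            rw [h2]
            exact ih' _ _ (hx.append hy) hB2
          · have h4 := congrArg (eval (-2)) h3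
            rw [eX, eadd, eX] at h4
            have hB2 : Big (p + 1 + 1) (av e φ (x ++ y)) := by
              refine hB.two ?_
              have h5 : (Fv e φ (x ++ y)).eval (-2) =
                  2 * (Fv e φ (x ++ (m, true) :: y)).eval (-2) := by linarith
              rw [av, av, h5, abs_mul]; norm_num
            rw [h3]
            have := ih' _ _ (hx.append hy) hB2
            exact this.add this.mulX'
        · intro he x y b hx hy hB
          obtain ⟨h2, h3⟩ := evR h hs hm' he x y hy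
          have hxy : In m (x ++ y) := hx.append (hy.mono (by omega))
          cases b
          · rw [h2]
            refine (ih' p _ hxy (hB.of_two ?_)).mulX
            rw [av, av, h2, eX, abs_mul]; norm_num
          · rw [h3]
            have := ih' (p + 1) _ hxy (hB.of_abs (by
              rw [av, av, h3, eadd, eX, ← abs_neg]; congr 1; ring))
            exact this.add this.mulX'
        · intro m' hmm he Z Y b d hZ hY hB
          subst hmm
          obtain ⟨h2, h3, h4, h5⟩ := evT h hs hm' he Z Y hY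
          have hY' : In (m' + 1) Y := hY.mono (by omega)
          have hZY : In (m' + 1) (Z ++ Y) := hZ.append hY'
          have hZb : ∀ b, In (m' + 1) (Z ++ (m', b) :: Y) := fun b =>
            hZ.append (In.cons (by simp) hY')
          cases b <;> cases d
          · rw [h2]
            refine ih' _ _ hZY (hB.of_abs ?_)
            rw [av, av, h2]
          · rw [h3]
            have := ih' (p + 1) _ hZY (hB.of_abs (by
              rw [av, av, h3, eadd, eX, ← abs_neg]; congr 1; ring))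
            exact this.add this.mulX'
          · rw [h4]
            refine ih' _ _ (hZb true) (hB.of_abs ?_)
            rw [av, av, h4]
          · rw [h5]
            have hB1 : Big (p + 1) (av e φ (Z ++ (m', false) :: Y)) := hB.of_abs (by
              rw [av, av, h5, eadd, eXX, add_zero])
            have hB2 : Big p (av e φ (Z ++ Y)) := by
              refine hB1.half3 (hA _ ((hZb true).mono (by omega)))
                (hA _ (hZY.mono (by omega))) ?_
              have := q5 (j := m') φ h Z Y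
              simp only [List.append_assoc, List.singleton_append, List.nil_append] at this
              rw [av, this, eadd, add_comm]; rfl
            exact (ih' _ _ (hZb false) hB1).add (ih' _ _ hZY hB2).mulT
    exact key q q le_rfl

end partB

end COREaux

theorem CORE_ok : S_CORE := by
  intro A _ _ n e φ hT hS h1 w hw
  obtain ⟨μ, hμ⟩ := COREaux.partA hT hS h1 _ le_rfl w hw
  exact ⟨μ, hμ, COREaux.partB hT hS h1 _ le_rfl μ w hw ⟨μ, hμ, le_rfl⟩⟩

end Pool.Agent.H696R3.LV
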