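import Pool.Agent.H696R3.LV.Defs

/-!
CYN: the number of cycles contained in a set of edges (helper501).
-/

set_option autoImplicit false

namespace Pool.Agent.H696R3.LV

open Polynomial Pool.Agent.H207R2.BL Pool.Agent.H110R3.BP

namespace CYNaux

variable {V E : Type} [Fintype V] [Fintype E]

open Classical in
theorem sum_inc (ends : E → Sym2 V) (f : V → ZMod 2) (x : E) (a b : V) (h : ends x = s(a, b))
    (hab : a ≠ b) : ∑ v, inc ends v x * f v = f a + f b := by
  have h1 : ∀ v, inc ends v x * f v = if v ∈ ({a, b} : Finset V) then f v else 0 := by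
    intro v
    unfold inc
    rw [h]
    by_cases hv : v = a ∨ v = b
    · rw [if_pos, if_pos, one_mul]
      · rw [Finset.mem_insert, Finset.mem_singleton]
        exact hv
      · refine ⟨?_, ?_⟩
        · rw [Sym2.mk_isDiag_iff]
          exact hab
        · rw [Sym2.mem_iff]
          exact hv
    · rw [if_neg, if_neg, zero_mul]
      · rw [Finset.mem_insert, Finset.mem_singleton]
        exact hv
      · rintro ⟨_, h2⟩
        rw [Sym2.mem_iff] at h2
        exact hv h2
  simp_rw [h1]
  rw [Finset.sum_ite_mem, Finset.univ_inter, Finset.sum_pair hab]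

open Classical in
theorem sum_inc_loop (ends : E → Sym2 V) (f : V → ZMod 2) (x : E) (h : (ends x).IsDiag) :
    ∑ v, inc ends v x * f v = 0 := by
  refine Finset.sum_eq_zero fun v _ => ?_
  unfold inc
  rw [if_neg, zero_mul]
  rintro ⟨h1, _⟩
  exact h1 h

/-- the boundary matrix -/
noncomputable def bd (ends : E → Sym2 V) (A : Finset E) : Matrix V A (ZMod 2) :=
  Matrix.of fun v x => inc ends v (x : E)

theorem ker_transpose (ends : E → Sym2 V) (A : Finset E) :
    LinearMap.ker (bd ends A).transpose.mulVecLin = LinearMap.range (LinearMap.funLeft (ZMod 2)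
      (ZMod 2) (SimpleGraph.fromEdgeSet (ends '' (A : Set E))).connectedComponentMk) := by
  classical
  set G := SimpleGraph.fromEdgeSet (ends '' (A : Set E)) with hG
  ext f
  rw [LinearMap.mem_ker, LinearMap.mem_range]
  have h0 : (bd ends A).transpose.mulVecLin f = 0 ↔ ∀ x ∈ A, ∑ v, inc ends v x * f v = 0 := by
    constructor
    · intro h x hx
      exact congrFun h ⟨x, hx⟩
    · intro h
      funext x
      exact h x x.2
  rw [h0]
  constructor
  · intro h
    have hadj : ∀ a b, G.Adj a b → f a = f b := by
      intro a b hab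
      rw [hG, SimpleGraph.fromEdgeSet_adj] at hab
      obtain ⟨⟨x, hx, hxe⟩, hne⟩ := hab
      have h1 := h x hx
      rw [sum_inc ends f x a b hxe hne] at h1
      have h2 : f a = - f b := eq_neg_of_add_eq_zero_left h1
      rw [h2]
      exact ZMod.neg_eq_self_mod_two _
    have hreach : ∀ a b, G.Reachable a b → f a = f b := by
      intro a b hab
      obtain ⟨w⟩ := hab
      induction w with
      | nil => rfl
      | cons hadj' _ ih => exact (hadj _ _ hadj').trans ih
    refine ⟨fun c => c.lift f (fun v w p _ => hreach v w ⟨p⟩), ?_⟩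
    funext v
    rfl
  · rintro ⟨g, rfl⟩ x hx
    by_cases hd : (ends x).IsDiag
    · exact sum_inc_loop ends _ x hd
    · obtain ⟨a, b, hab⟩ : ∃ a b, ends x = s(a, b) := by
        induction hz : ends x using Sym2.ind with
        | h a b => exact ⟨a, b, rfl⟩
      have hne : a ≠ b := by
        intro h
        apply hd
        rw [hab, h]
        exact Sym2.mk_isDiag_iff.2 rfl
      rw [sum_inc ends _ x a b hab hne]
      have h1 : G.connectedComponentMk a = G.connectedComponentMk b := by
        apply SimpleGraph.ConnectedComponent.sound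
        apply SimpleGraph.Adj.reachable
        rw [hG, SimpleGraph.fromEdgeSet_adj]
        exact ⟨⟨x, hx, hab⟩, hne⟩
      rw [LinearMap.funLeft_apply, LinearMap.funLeft_apply, h1]
      exact CharTwo.add_self_eq_zero _

theorem finrank_ker (ends : E → Sym2 V) (A : Finset E) :
    Module.finrank (ZMod 2) (LinearMap.ker (bd ends A).mulVecLin) = A.card - rk ends A := by
  classical
  have hsurj : Function.Surjective
      (SimpleGraph.fromEdgeSet (ends '' (A : Set E))).connectedComponentMk := Quot.mk_surjective
  haveI : Finite (SimpleGraph.fromEdgeSet (ends '' (A : Set E))).ConnectedComponent :=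
    Finite.of_surjective _ hsurj
  haveI : Fintype (SimpleGraph.fromEdgeSet (ends '' (A : Set E))).ConnectedComponent :=
    Fintype.ofFinite _
  have h1 : Module.finrank (ZMod 2) (LinearMap.ker (bd ends A).transpose.mulVecLin) =
      kc ends A := by
    rw [ker_transpose, LinearMap.finrank_range_of_inj
      (LinearMap.funLeft_injective_of_surjective _ _ _ hsurj), Module.finrank_fintype_fun_eq_card]
    unfold kc
    rw [Nat.card_eq_fintype_card]
  have h2 := LinearMap.finrank_range_add_finrank_ker (bd ends A).transpose.mulVecLin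
  rw [h1, Module.finrank_fintype_fun_eq_card] at h2
  have h3 := LinearMap.finrank_range_add_finrank_ker (bd ends A).mulVecLin
  rw [Module.finrank_fintype_fun_eq_card, Fintype.card_coe] at h3
  have h4 : Module.finrank (ZMod 2) (LinearMap.range (bd ends A).transpose.mulVecLin) =
      Module.finrank (ZMod 2) (LinearMap.range (bd ends A).mulVecLin) :=
    Matrix.rank_transpose (bd ends A)
  unfold rk
  omega

end CYNaux

open CYNaux

theorem CYN_ok : S_CYN := by
  intro V E _ _ ends A
  classical
  rw [← finrank_ker ends A]
  have h1 : Nat.card (LinearMap.ker (bd ends A).mulVecLin) =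
      2 ^ Module.finrank (ZMod 2) (LinearMap.ker (bd ends A).mulVecLin) := by
    rw [Module.natCard_eq_pow_finrank (K := ZMod 2)]
    simp
  rw [← h1]
  have hsum : ∀ (c : E → ZMod 2), (∀ x, x ∉ A → c x = 0) → ∀ v,
      ∑ x : A, inc ends v (x : E) * c x = ∑ x, c x * inc ends v x := by
    intro c hc v
    rw [Finset.sum_coe_sort A (fun x => inc ends v x * c x)]
    symm
    rw [← Finset.sum_subset (Finset.subset_univ A)]
    · exact Finset.sum_congr rfl fun x _ => mul_comm _ _
    · intro x _ hx
      rw [hc x hx, zero_mul]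
  refine Nat.card_congr
    { toFun := fun c => ⟨fun x : A => c.1 x, ?_⟩
      invFun := fun g => ⟨fun x => if h : x ∈ A then g.1 ⟨x, h⟩ else 0, ?_, ?_⟩
      left_inv := ?_
      right_inv := ?_ }
  · rw [LinearMap.mem_ker]
    funext v
    exact (hsum c.1 c.2.2 v).trans (c.2.1 v)
  · intro v
    have h2 : ∀ x, x ∉ A → (fun x => if h : x ∈ A then g.1 ⟨x, h⟩ else 0) x = 0 := by
      intro x hx
      exact dif_neg hx
    rw [← hsum _ h2 v]
    have h3 := congrFun (LinearMap.mem_ker.1 g.2) v
    refine Eq.trans ?_ h3
    refine Finset.sum_congr rfl fun x _ => ?_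
    show inc ends v (x : E) * (if h : (x : E) ∈ A then g.1 ⟨x, h⟩ else 0) = inc ends v (x : E) * g.1 x
    rw [dif_pos x.2]
  · intro x hx
    exact dif_neg hx
  · rintro ⟨c, hc1, hc2⟩
    apply Subtype.ext
    funext x
    by_cases hx : x ∈ A
    · exact dif_pos hx
    · exact (dif_neg hx).trans (hc2 x hx).symm
  · rintro ⟨g, hg⟩
    apply Subtype.ext
    funext x
    exact dif_pos x.2

end Pool.Agent.H696R3.LV
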