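import Pool.Agent.H696R3.LV.Defs

set_option autoImplicit false

namespace Pool.Agent.H696R3.LV

open Polynomial Pool.Agent.H207R2.BL Pool.Agent.H110R3.BP

namespace DERaux

lemma iter_comp (p : ℤ[X]) (k : ℕ) :
    (derivative^[k]) (p.comp (X - 1)) = ((derivative^[k]) p).comp (X - 1) := by
  induction k with
  | zero => rfl
  | succ k ih =>
    rw [Function.iterate_succ_apply', Function.iterate_succ_apply', ih, derivative_comp]
    simp

lemma tut_eq {V E : Type} [Fintype V] [Fintype E] (ends : E → Sym2 V) :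
    tut ends = (tutd ends).comp (X - 1) := by
  unfold tut tutd
  rw [← Polynomial.coe_compRingHom_apply, map_sum]
  refine Finset.sum_congr rfl fun A _ => ?_
  rw [Polynomial.coe_compRingHom_apply, X_pow_comp, pow_add]

lemma dvd_eval (p : ℤ[X]) (d k : ℕ) (h : Ord d p) :
    (2 : ℤ) ^ (d - k) ∣ ((derivative^[k]) p).eval (-2) := by
  rw [eval_eq_sum_range]
  refine Finset.dvd_sum fun m _ => ?_
  rw [coeff_iterate_derivative]
  obtain ⟨z, hz⟩ := h (m + k)
  have h2 : ((-2 : ℤ)) ^ m = (-1) ^ m * 2 ^ m := by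
    rw [← mul_pow]; norm_num
  have h3 : (2 : ℤ) ^ (d - k) ∣ 2 ^ (d - (m + k)) * 2 ^ m := by
    rw [← pow_add]
    exact pow_dvd_pow 2 (by omega)
  obtain ⟨y, hy⟩ := h3
  rw [hz, h2, nsmul_eq_mul]
  refine ⟨y * (((m + k).descFactorial k : ℕ) : ℤ) * z * (-1) ^ m, ?_⟩
  calc (((m + k).descFactorial k : ℕ) : ℤ) * (2 ^ (d - (m + k)) * z) * ((-1) ^ m * 2 ^ m)
      = (2 ^ (d - (m + k)) * 2 ^ m) * ((((m + k).descFactorial k : ℕ) : ℤ) * z * (-1) ^ m) := by
        ring
    _ = _ := by rw [hy]; ring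

end DERaux

theorem DER_ok : S_DER := by
  intro V E _ _ ends d hd k _
  rw [DERaux.tut_eq, DERaux.iter_comp, eval_comp]
  have h : (X - 1 : ℤ[X]).eval (-1) = -2 := by
    simp
  rw [h]
  exact DERaux.dvd_eval _ d k hd

end Pool.Agent.H696R3.LV
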