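import Pool.Agent.H696R3.LV.Defs

/-!
# EXP: exponents
-/

set_option autoImplicit false

namespace Pool.Agent.H696R3.LV

open SimpleGraph

namespace EXPaux

variable {V E : Type}

/-- the subgraph of a set of edges -/
def gr (ends : E → Sym2 V) (A : Finset E) : SimpleGraph V :=
  SimpleGraph.fromEdgeSet (ends '' (A : Set E))

theorem kc_eq (ends : E → Sym2 V) (A : Finset E) :
    kc ends A = Nat.card (gr ends A).ConnectedComponent := rfl

theorem fin_cc [Finite V] (G : SimpleGraph V) : Finite G.ConnectedComponent :=
  Finite.of_surjective G.connectedComponentMk (fun c => c.exists_rep)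

theorem gr_mono (ends : E → Sym2 V) {A B : Finset E} (h : A ⊆ B) : gr ends A ≤ gr ends B := by
  unfold gr
  apply SimpleGraph.fromEdgeSet_mono
  exact Set.image_mono (by exact_mod_cast h)

theorem kc_anti [Finite V] (ends : E → Sym2 V) {A B : Finset E} (h : A ⊆ B) :
    kc ends B ≤ kc ends A := by
  have := fin_cc (gr ends A)
  rw [kc_eq, kc_eq]
  apply Nat.card_le_card_of_surjective
    (fun c : (gr ends A).ConnectedComponent => c.map (SimpleGraph.Hom.ofLE (gr_mono ends h)))
  intro c
  obtain ⟨x, rfl⟩ := c.exists_rep
  exact ⟨(gr ends A).connectedComponentMk x, rfl⟩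

theorem kc_le [Fintype V] (ends : E → Sym2 V) (A : Finset E) : kc ends A ≤ Fintype.card V := by
  rw [kc_eq, ← Nat.card_eq_fintype_card]
  exact Nat.card_le_card_of_surjective (gr ends A).connectedComponentMk (fun c => c.exists_rep)

theorem reach_step [DecidableEq E] (ends : E → Sym2 V) (A : Finset E) (e : E) (u v : V)
    (he : ends e = s(u, v)) (x y : V) (h : (gr ends (insert e A)).Reachable x y) :
    (gr ends A).Reachable x y ∨ ((gr ends A).Reachable x u ∧ (gr ends A).Reachable v y) ∨
      ((gr ends A).Reachable x v ∧ (gr ends A).Reachable u y) := by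
  rw [SimpleGraph.reachable_iff_reflTransGen] at h
  induction h with
  | refl => exact Or.inl (SimpleGraph.Reachable.refl _)
  | @tail y z _ hyz ih =>
    unfold gr at hyz
    rw [SimpleGraph.fromEdgeSet_adj] at hyz
    obtain ⟨⟨e', he', hee⟩, hne⟩ := hyz
    rw [Finset.coe_insert, Set.mem_insert_iff] at he'
    rcases he' with rfl | he'
    · rw [he, Sym2.eq_iff] at hee
      rcases hee with ⟨rfl, rfl⟩ | ⟨rfl, rfl⟩
      · rcases ih with h1 | ⟨h1, h2⟩ | ⟨h1, h2⟩
        · exact Or.inr (Or.inl ⟨h1, SimpleGraph.Reachable.refl _⟩)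
        · exact Or.inr (Or.inl ⟨h1, SimpleGraph.Reachable.refl _⟩)
        · exact Or.inl h1
      · rcases ih with h1 | ⟨h1, h2⟩ | ⟨h1, h2⟩
        · exact Or.inr (Or.inr ⟨h1, SimpleGraph.Reachable.refl _⟩)
        · exact Or.inl h1
        · exact Or.inr (Or.inr ⟨h1, SimpleGraph.Reachable.refl _⟩)
    · have hadj : (gr ends A).Adj y z := by
        unfold gr
        rw [SimpleGraph.fromEdgeSet_adj]
        exact ⟨⟨e', he', hee⟩, hne⟩
      have hr := hadj.reachable
      rcases ih with h1 | ⟨h1, h2⟩ | ⟨h1, h2⟩
      · exact Or.inl (h1.trans hr)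
      · exact Or.inr (Or.inl ⟨h1, h2.trans hr⟩)
      · exact Or.inr (Or.inr ⟨h1, h2.trans hr⟩)

theorem kc_insert [Finite V] [DecidableEq E] (ends : E → Sym2 V) (A : Finset E) (e : E) :
    kc ends A ≤ kc ends (insert e A) + 1 := by
  classical
  obtain ⟨u, v, he⟩ : ∃ u v, ends e = s(u, v) := by
    induction hh : ends e with
    | _ u v => exact ⟨u, v, rfl⟩
  have := fin_cc (gr ends (insert e A))
  rw [kc_eq, kc_eq, ← Finite.card_option]
  have hle : gr ends A ≤ gr ends (insert e A) := gr_mono ends (Finset.subset_insert e A)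
  apply Nat.card_le_card_of_injective
    (fun c : (gr ends A).ConnectedComponent =>
      if c = (gr ends A).connectedComponentMk u then none
      else some (c.map (SimpleGraph.Hom.ofLE hle)))
  intro c d hcd
  simp only at hcd
  by_cases hc : c = (gr ends A).connectedComponentMk u
  · by_cases hd : d = (gr ends A).connectedComponentMk u
    · rw [hc, hd]
    · rw [if_pos hc, if_neg hd] at hcd
      exact absurd hcd (by simp)
  · by_cases hd : d = (gr ends A).connectedComponentMk u
    · rw [if_neg hc, if_pos hd] at hcd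
      exact absurd hcd (by simp)
    · rw [if_neg hc, if_neg hd, Option.some.injEq] at hcd
      obtain ⟨x, rfl⟩ := c.exists_rep
      obtain ⟨y, rfl⟩ := d.exists_rep
      have h1 : (gr ends (insert e A)).Reachable x y := SimpleGraph.ConnectedComponent.exact hcd
      rcases reach_step ends A e u v he x y h1 with h2 | ⟨h2, _⟩ | ⟨_, h2⟩
      · exact SimpleGraph.ConnectedComponent.sound h2
      · exact absurd (SimpleGraph.ConnectedComponent.sound h2) hc
      · exact absurd (SimpleGraph.ConnectedComponent.sound h2.symm) hd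

theorem card_le [Fintype V] (ends : E → Sym2 V) (A : Finset E) :
    Fintype.card V ≤ A.card + kc ends A := by
  classical
  induction A using Finset.induction_on with
  | empty =>
    rw [Finset.card_empty, zero_add, kc_eq, ← Nat.card_eq_fintype_card]
    have := fin_cc (gr ends (∅ : Finset E))
    apply Nat.card_le_card_of_injective (gr ends (∅ : Finset E)).connectedComponentMk
    intro x y hxy
    have h1 := SimpleGraph.ConnectedComponent.exact hxy
    have h2 : gr ends (∅ : Finset E) = ⊥ := by
      unfold gr
      simp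
    rw [h2, SimpleGraph.reachable_bot] at h1
    exact h1
  | insert e A heA ih =>
    rw [Finset.card_insert_of_notMem heA]
    have := kc_insert ends A e
    omega

end EXPaux

theorem EXP_ok : S_EXP := by
  intro V E _ _ ends A
  have h1 := EXPaux.kc_anti ends (Finset.subset_univ A)
  have h2 := EXPaux.kc_le ends A
  have h3 := EXPaux.card_le ends A
  refine ⟨h1, h2, h3, ?_⟩
  unfold rk
  omega

end Pool.Agent.H696R3.LV
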