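import Pool.Agent.H696R3.LV.Defs

set_option autoImplicit false

namespace Pool.Agent.H696R3.LV

open Polynomial Pool.Agent.H207R2.BL Pool.Agent.H110R3.BP

namespace FKaux

variable {V E : Type}

lemma const_of_adj {α : Type} (H : SimpleGraph V) (g : V → α)
    (h : ∀ u v, H.Adj u v → g u = g v) {u v : V} (p : H.Walk u v) : g u = g v := by
  induction p with
  | nil => rfl
  | cons hadj _ ih => exact (h _ _ hadj).trans ih

/-- colourings which are constant on the components -/
noncomputable def equiv {α : Type} (ends : E → Sym2 V) (A : Finset E) :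
    {g : V → α // ∀ x ∈ A, ((ends x).map g).IsDiag} ≃
      ((SimpleGraph.fromEdgeSet (ends '' (A : Set E))).ConnectedComponent → α) where
  toFun g := fun c => c.lift g.1 (by
    intro v w p _
    refine const_of_adj _ g.1 ?_ p
    intro u v huv
    rw [SimpleGraph.fromEdgeSet_adj] at huv
    obtain ⟨⟨x, hx, hxe⟩, -⟩ := huv
    have := g.2 x hx
    rw [hxe, Sym2.map_pair_eq, Sym2.mk_isDiag_iff] at this
    exact this)
  invFun f := ⟨fun v => f (SimpleGraph.connectedComponentMk _ v), by
    intro x hx
    obtain ⟨⟨u, v⟩, huv⟩ := Quot.exists_rep (ends x)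
    have huv' : s(u, v) = ends x := huv
    rw [← huv', Sym2.map_pair_eq, Sym2.mk_isDiag_iff]
    by_cases h : u = v
    · rw [h]
    · congr 1
      rw [SimpleGraph.ConnectedComponent.eq]
      refine SimpleGraph.Adj.reachable ?_
      rw [SimpleGraph.fromEdgeSet_adj]
      exact ⟨⟨x, hx, huv'.symm⟩, h⟩⟩
  left_inv g := by
    apply Subtype.ext
    funext v
    rfl
  right_inv f := by
    funext c
    induction c using SimpleGraph.ConnectedComponent.ind with
    | _ v => rfl

end FKaux

open FKaux in
theorem FK_ok : S_FK := by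
  classical
  intro V E _ _ ends m
  have hDone : ∀ x : E, Done ends Set.univ
      (SimpleGraph.fromEdgeSet (Set.range ends)).edgeSet x := by
    intro x
    by_cases h : (ends x).IsDiag
    · right
      refine ⟨h, ?_⟩
      obtain ⟨⟨u, v⟩, huv⟩ := Quot.exists_rep (ends x)
      have huv' : s(u, v) = ends x := huv
      exact ⟨u, Set.mem_univ _, by rw [← huv']; exact Sym2.mem_mk_left u v⟩
    · left
      rw [SimpleGraph.edgeSet_fromEdgeSet]
      exact ⟨⟨x, rfl⟩, h⟩
  have hwt : ∀ g : V → Fin (m ^ 2), wt ends m Set.univ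
      (SimpleGraph.fromEdgeSet (Set.range ends)).edgeSet g =
      ∑ A : Finset E, if ∀ x ∈ A, ((ends x).map g).IsDiag then (m : ℝ) ^ A.card else 0 := by
    intro g
    unfold wt
    have e1 : ∀ x : E, (if Done ends Set.univ
        (SimpleGraph.fromEdgeSet (Set.range ends)).edgeSet x ∧ ((ends x).map g).IsDiag
        then (1 + m : ℝ) else 1) = 1 + (if ((ends x).map g).IsDiag then (m : ℝ) else 0) := by
      intro x
      by_cases h : ((ends x).map g).IsDiag
      · rw [if_pos ⟨hDone x, h⟩, if_pos h]
      · rw [if_neg (fun h' => h h'.2), if_neg h, add_zero]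
    rw [Finset.prod_congr rfl (fun x _ => e1 x), Finset.prod_one_add, Finset.powerset_univ]
    refine Finset.sum_congr rfl fun A _ => ?_
    by_cases h : ∀ x ∈ A, ((ends x).map g).IsDiag
    · rw [if_pos h, Finset.prod_congr rfl (fun x hx => if_pos (h x hx)), Finset.prod_const]
    · rw [if_neg h]
      push Not at h
      obtain ⟨x, hx, hxd⟩ := h
      exact Finset.prod_eq_zero hx (if_neg hxd)
  unfold wc
  simp only [List.map_nil, if_true]
  rw [Finset.sum_congr rfl (fun g _ => hwt g), Finset.sum_comm]
  refine Finset.sum_congr rfl fun A _ => ?_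
  rw [← Finset.sum_filter, Finset.sum_const, nsmul_eq_mul, ← Fintype.card_subtype,
    ← Nat.card_eq_fintype_card, Nat.card_congr (equiv ends A), Nat.card_fun, Nat.card_fin]
  unfold kc
  rw [pow_add, pow_mul]
  push_cast
  ring

end Pool.Agent.H696R3.LV
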