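import Pool.Agent.H696R3.LV.Defs
import Pool.Agent.H110R3.BP.Core

set_option autoImplicit false

namespace Pool.Agent.H696R3.LV

open Polynomial Pool.Agent.H207R2.BL Pool.Agent.H110R3.BP

namespace GDROPaux

theorem noX_shl (p d : ℕ) : ∀ l ∈ shlW p d, ∀ i, l ≠ Let.X i := by
  induction d with
  | zero => intro l hl; simp [shlW] at hl
  | succ d ih =>
    intro l hl i
    simp only [shlW, Shl, List.mem_append, List.mem_cons, List.not_mem_nil, or_false] at hl
    rcases hl with (rfl | rfl | rfl) | hl
    · exact fun h => Let.noConfusion h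
    · exact fun h => Let.noConfusion h
    · exact fun h => Let.noConfusion h
    · exact ih l hl i

theorem noX_del (p d : ℕ) : ∀ l ∈ delW p d, ∀ i, l ≠ Let.X i := by
  intro l hl i
  rcases List.mem_append.1 hl with h | h
  · exact noX_shl p d l h i
  · rw [List.mem_singleton] at h
    subst h
    exact fun h => Let.noConfusion h

theorem W_append {A : Type} [Ring A] (e : ℕ → A) (v w : List (ℕ × Bool)) :
    W e (v ++ w) = W e v * W e w := by
  simp [W]

end GDROPaux

open GDROPaux in
theorem GDROP_ok (h1 : S_WDROP) (h2 : S_LET) : S_GDROP := by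
  intro V E _ _ ends L1 L2 U Es v h
  obtain ⟨w, N, a, b, hin, hlen, hid⟩ := h
  have hl : (L1 ++ v :: L2).length = L1.length + 1 + L2.length := by
    simp only [List.length_append, List.length_cons]; omega
  rw [hl] at hlen
  obtain ⟨w', a', b', hw', hT⟩ := h2 (delW L1.length L2.length) (noX_del _ _)
  refine ⟨w' ++ w, N, b' + a, a' + b + 2 * L2.length, ?_, ?_, ?_⟩
  · intro l hl'
    rcases List.mem_append.1 hl' with h1 | h1
    · exact hw' N (inr_del N L1.length L2.length (by omega)) l h1
    · exact hin l h1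
  · rw [List.length_append]; omega
  · intro n hn m hm c
    have hd := del_act n (m ^ 2) L1.length L2.length (by omega)
      (fun l => (m : ℝ) ^ b * wc ends m U Es (L1 ++ v :: L2) l) c
    have hg : (fun c : Fin (n + 1) → Fin (m ^ 2) => (m : ℝ) ^ b * wc ends m U Es (L1 ++ v :: L2)
        (cl (fun i => i) (L1.length + 1 + L2.length) c)) =
        (m : ℝ) ^ a • (W (pe n m) w (fun _ => 1)) := by
      funext c'
      rw [← hl]
      exact (hid n hn m hm c').symm
    rw [hg, map_smul] at hd
    have hT' := congrArg (fun f : Module.End ℝ (Fn (Fin (n + 1)) (Fin (m ^ 2))) =>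
      f (W (pe n m) w (fun _ => 1)) c) (hT n m hm)
    have hT'' : (m : ℝ) ^ a' * (T (PR n (m ^ 2)) (delW L1.length L2.length))
        (W (pe n m) w (fun _ => 1)) c =
        (m : ℝ) ^ b' * (W (pe n m) w') (W (pe n m) w (fun _ => 1)) c := hT'
    have hd' : (m : ℝ) ^ a * (T (PR n (m ^ 2)) (delW L1.length L2.length))
        ((W (pe n m) w) (fun _ => 1)) c = _ := hd
    rw [W_append, Module.End.mul_apply, List.length_append, good_drop_cl]
    rw [← h1 ends m L1 L2 U Es v (cl (fun i => i) L1.length c)
      (cl (fun i => L1.length + i) L2.length c) (by simp [cl])]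
    have e1 : (m : ℝ) ^ (b' + a) * (W (pe n m) w') (W (pe n m) w (fun _ => 1)) c =
        (m : ℝ) ^ a' * ((m : ℝ) ^ a * (T (PR n (m ^ 2)) (delW L1.length L2.length))
        ((W (pe n m) w) (fun _ => 1)) c) := by
      rw [pow_add]
      linear_combination (-(m : ℝ) ^ a) * hT''
    rw [e1, hd', ← Finset.mul_sum]
    push_cast
    ring

end Pool.Agent.H696R3.LV
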