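import Pool.Agent.H696R3.LV.Defs
import Pool.Agent.H110R3.BP.Core

/-!
Project LV, task GDUP: word for a duplication.
-/

set_option autoImplicit false

namespace Pool.Agent.H696R3.LV

open Polynomial Pool.Agent.H207R2.BL Pool.Agent.H110R3.BP

namespace GDUPaux

theorem W_append {A : Type} [Ring A] (e : ℕ → A) (v w : List (ℕ × Bool)) :
    W e (v ++ w) = W e v * W e w := by
  simp [W]

theorem noX_shrW (d : ℕ) : ∀ p : ℕ, ∀ l ∈ shrW p d, ∀ i, l ≠ Let.X i := by
  induction d with
  | zero => intro p l hl; simp [shrW] at hl
  | succ d ih =>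
    intro p l hl i
    simp only [shrW, List.mem_append] at hl
    rcases hl with hl | hl
    · simp only [Shr, List.mem_cons, List.not_mem_nil, or_false] at hl
      rcases hl with rfl | rfl | rfl <;> simp
    · exact ih (p + 1) l hl i

theorem noX (q p d : ℕ) : ∀ l ∈ Let.J q :: insW p d, ∀ i, l ≠ Let.X i := by
  intro l hl i
  rcases List.mem_cons.1 hl with rfl | hl
  · simp
  · rcases List.mem_cons.1 hl with rfl | hl
    · simp
    · exact noX_shrW d p l hl i

end GDUPaux

open GDUPaux in
theorem GDUP_ok (h1 : S_WDUP) (h2 : S_LET) : S_GDUP := by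
  intro V E _ _ ends L1 L2 U Es v h
  obtain ⟨w, N, a, b, hr, hN, hT⟩ := h
  have hlen : (L1 ++ v :: L2).length = L1.length + 1 + L2.length := by simp; omega
  have hlen' : (L1 ++ v :: v :: L2).length = L1.length + (L2.length + 1 + 1) := by simp
  obtain ⟨w', a', b', hr', hw'⟩ := h2 (Let.J L1.length :: insW (L1.length + 1) L2.length)
    (noX _ _ _)
  refine ⟨w' ++ w, N + 1, b' + a, a' + b + 2 * (L2.length + 1), ?_, ?_, ?_⟩
  · intro l hl
    rcases List.mem_append.1 hl with hl | hl
    · refine hr' (N + 1) ?_ l hl
      intro l hl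
      rcases List.mem_cons.1 hl with rfl | hl
      · show L1.length < N + 1
        omega
      · exact inr_ins (N + 1) (L1.length + 1) L2.length (by omega) l hl
    · have := hr l hl
      omega
  · omega
  · intro n hn m hm c
    have hm0 : (m : ℝ) ≠ 0 := by
      have : (1 : ℝ) ≤ m := by exact_mod_cast hm
      positivity
    have hfun : (W (pe n m) w (fun _ => 1)) = fun c : Fin (n + 1) → Fin (m ^ 2) =>
        (fun l : List (Fin (m ^ 2)) => (m : ℝ) ^ b / (m : ℝ) ^ a *
          wc ends m U Es (L1 ++ v :: L2) l)
          (cl (fun i => i) (L1.length + 1 + L2.length) c) := by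
      funext c
      have h1 := hT n (by omega) m hm c
      rw [hlen] at h1
      simp only
      have ha : (m : ℝ) ^ a ≠ 0 := pow_ne_zero _ hm0
      field_simp
      linarith
    have hins := ins_act n (m ^ 2) (L1.length + 1) L2.length (by omega)
      (fun l : List (Fin (m ^ 2)) => (m : ℝ) ^ b / (m : ℝ) ^ a *
        wc ends m U Es (L1 ++ v :: L2) l) c
    have key : (T (PR n (m ^ 2)) (Let.J L1.length :: insW (L1.length + 1) L2.length)
          (W (pe n m) w (fun _ => 1))) c =
        if c (pt n L1.length) = c (pt n (L1.length + 1)) then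
          (T (PR n (m ^ 2)) (insW (L1.length + 1) L2.length) (W (pe n m) w (fun _ => 1))) c
        else 0 := by
      have : T (PR n (m ^ 2)) (Let.J L1.length :: insW (L1.length + 1) L2.length) =
          (PR n (m ^ 2)).e (2 * L1.length + 1) *
            T (PR n (m ^ 2)) (insW (L1.length + 1) L2.length) := by
        simp [T, ev]
      rw [this, PR_odd, Module.End.mul_apply, Jop_apply]
    have hcl : cl (fun i => i) (L1 ++ v :: v :: L2).length c =
        cl (fun i => i) L1.length c ++ c (pt n L1.length) :: c (pt n (L1.length + 1)) ::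
          cl (fun i => L1.length + (i + 1 + 1)) L2.length c := by
      rw [hlen', good_dup_cl_add, good_dup_cl_succ, good_dup_cl_succ]
      rfl
    have hup : cl (up (L1.length + 1)) (L1.length + 1 + L2.length) c =
        cl (fun i => i) L1.length c ++ c (pt n L1.length) ::
          cl (fun i => L1.length + (i + 1 + 1)) L2.length c := by
      have e3 : L1.length + 1 + L2.length = L1.length + (L2.length + 1) := by omega
      rw [e3, good_dup_cl_add, good_dup_cl_succ]
      have e4 : cl (up (L1.length + 1)) L1.length c = cl (fun i => i) L1.length c := by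
        apply good_dup_cl_congr
        intro i hi
        simp only [up]
        rw [if_pos (by omega)]
      have e5 : up (L1.length + 1) (L1.length + 0) = L1.length := by
        simp [up]
      have e6 : cl (fun i => up (L1.length + 1) (L1.length + (i + 1))) L2.length c =
          cl (fun i => L1.length + (i + 1 + 1)) L2.length c := by
        apply good_dup_cl_congr
        intro i hi
        simp only [up]
        rw [if_neg (by omega)]
        omega
      rw [e4, e5, e6]
    have hW : (m : ℝ) ^ b' * (W (pe n m) w' (W (pe n m) w (fun _ => 1))) c =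
        (m : ℝ) ^ a' * (T (PR n (m ^ 2)) (Let.J L1.length :: insW (L1.length + 1) L2.length)
          (W (pe n m) w (fun _ => 1))) c := by
      have h3 := hw' n m hm
      have h4 := congrArg (fun F : Module.End ℝ (Fn (Fin (n + 1)) (Fin (m ^ 2))) =>
        F (W (pe n m) w (fun _ => 1)) c) h3
      simp only [LinearMap.smul_apply, Pi.smul_apply, smul_eq_mul] at h4
      exact h4.symm
    have hdup := @h1 V E _ _ ends m L1 L2 U Es v (cl (fun i => i) L1.length c)
      (cl (fun i => L1.length + (i + 1 + 1)) L2.length c) (c (pt n L1.length))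
      (c (pt n (L1.length + 1))) (by simp [cl])
    rw [W_append, Module.End.mul_apply, pow_add (m : ℝ) b' a, mul_comm ((m : ℝ) ^ b') _,
      mul_assoc, hW, key, hcl, hdup, hfun, hins, hup]
    split_ifs with hc
    · have ha : (m : ℝ) ^ a ≠ 0 := pow_ne_zero _ hm0
      have hX : ∀ (A A' B D Y : ℝ), A ≠ 0 → A * (A' * (D * (B / A * Y))) = A' * B * D * Y := by
        intro A A' B D Y hA
        field_simp
      rw [pow_add (m : ℝ) (a' + b) (2 * (L2.length + 1)), pow_add (m : ℝ) a' b,
        pow_mul (m : ℝ) 2 (L2.length + 1)]
      push_cast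
      exact hX _ _ _ _ _ ha
    · simp

end Pool.Agent.H696R3.LV
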