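import Pool.Agent.H696R3.LV.Defs

/-!
Task GEDGE: the word for an edge.
-/

set_option autoImplicit false

namespace Pool.Agent.H696R3.LV

open Polynomial Pool.Agent.H207R2.BL Pool.Agent.H110R3.BP

namespace GEDGEaux

theorem cl_add {n k : ℕ} (σ : ℕ → ℕ) (m d : ℕ) (c : Fin (n + 1) → Fin k) :
    cl σ (m + d) c = cl σ m c ++ cl (fun i => σ (m + i)) d c := by
  simp [cl, List.range_add, List.map_append, Function.comp_def]

theorem cl_succ {n k : ℕ} (σ : ℕ → ℕ) (d : ℕ) (c : Fin (n + 1) → Fin k) :
    cl σ (d + 1) c = c (pt n (σ 0)) :: cl (fun i => σ (i + 1)) d c := by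
  simp [cl, List.range_succ_eq_map, Function.comp_def]

theorem key (n m p k : ℕ) (w : List (ℕ × Bool)) (c : Fin (n + 1) → Fin (m ^ 2)) :
    (W (pe n m) (List.replicate k (2 * p + 1, true) ++ w) (fun _ => 1)) c =
      (if c (pt n p) = c (pt n (p + 1)) then (1 + m : ℝ) ^ k else 1) *
        (W (pe n m) w (fun _ => 1)) c := by
  induction k with
  | zero => simp
  | succ k ih =>
    have h1 : W (pe n m) (List.replicate (k + 1) (2 * p + 1, true) ++ w) =
        (1 + pe n m (2 * p + 1)) * W (pe n m) (List.replicate k (2 * p + 1, true) ++ w) := by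
      simp [W, lv, List.replicate_succ]
    have h2 : pe n m (2 * p + 1) = (m : ℝ) • (PR n (m ^ 2)).e (2 * p + 1) := by
      unfold pe
      rw [if_neg]
      simp
    rw [h1, h2, PR_odd, Module.End.mul_apply, LinearMap.add_apply, Module.End.one_apply]
    generalize W (pe n m) (List.replicate k (2 * p + 1, true) ++ w) (fun _ => 1) = F at ih ⊢
    show F c + (m : ℝ) * Jop _ _ F c = _
    rw [Jop_apply, ih]
    split_ifs
    · ring
    · ring

end GEDGEaux

theorem GEDGE_ok (hW : S_WEDGE) : S_GEDGE := by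
  intro V E _ _ ends L1 L2 U Es u v huv h
  by_cases hmem : s(u, v) ∈ Es
  · rw [Set.insert_eq_of_mem hmem]
    exact h
  obtain ⟨w, N, a, b, hr, hN, hT⟩ := h
  have hlen : (L1 ++ u :: v :: L2).length = L1.length + (L2.length + 1 + 1) := by simp
  refine ⟨List.replicate (mul ends s(u, v)) (2 * L1.length + 1, true) ++ w, N, a, b, ?_, hN, ?_⟩
  · intro l hl
    rcases List.mem_append.1 hl with hl | hl
    · rw [(List.mem_replicate.1 hl).2]
      show 2 * L1.length + 1 < 2 * N + 1
      omega
    · exact hr l hl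
  · intro n hn m hm c
    have h1 := hT n hn m hm c
    have hcl : cl (fun i => i) (L1 ++ u :: v :: L2).length c =
        cl (fun i => i) L1.length c ++ c (pt n L1.length) :: c (pt n (L1.length + 1)) ::
          cl (fun i => L1.length + (i + 1 + 1)) L2.length c := by
      rw [hlen, GEDGEaux.cl_add, GEDGEaux.cl_succ, GEDGEaux.cl_succ]
      rfl
    rw [GEDGEaux.key, hcl, hW ends m L1 L2 U Es u v huv hmem _ _ _ _ (by simp [cl])]
    rw [hcl] at h1
    linear_combination (if c (pt n L1.length) = c (pt n (L1.length + 1)) then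
      (1 + m : ℝ) ^ mul ends s(u, v) else 1) * h1

end Pool.Agent.H696R3.LV
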