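import Pool.Agent.H696R3.LV.Defs
import Pool.Agent.H110R3.BP.Core

/-!
# Task GNEW: the word for a new vertex (helper228)
-/

set_option autoImplicit false

namespace Pool.Agent.H696R3.LV

open Polynomial Pool.Agent.H207R2.BL Pool.Agent.H110R3.BP

namespace GNEWaux

theorem W_append {A : Type} [Ring A] (e : ℕ → A) (v w : List (ℕ × Bool)) :
    W e (v ++ w) = W e v * W e w := by
  simp [W]

/-- a letter `(2 p, true)` multiplies functions which do not depend on the colour of the column
`p` by `1 + m` -/
theorem letter (n m p : ℕ) (hm : 1 ≤ m) (G : Fn (Fin (n + 1)) (Fin (m ^ 2)))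
    (hG : ∀ c x, G (Function.update c (pt n p) x) = G c) :
    (lv (pe n m) (2 * p, true) : Module.End ℝ (Fn (Fin (n + 1)) (Fin (m ^ 2)))) G =
      (1 + m : ℝ) • G := by
  have hm0 : (m : ℝ) ≠ 0 := by
    have : 0 < m := hm
    positivity
  funext c
  have h1 : (lv (pe n m) (2 * p, true) : Module.End ℝ (Fn (Fin (n + 1)) (Fin (m ^ 2)))) =
      1 + (m : ℝ)⁻¹ • Cop (pt n p) := by
    unfold lv pe
    rw [if_pos rfl, if_pos (even_two_mul p), PR_even]
  rw [h1]
  simp only [LinearMap.add_apply, Module.End.one_apply, LinearMap.smul_apply, Pi.add_apply,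
    Pi.smul_apply, Cop_apply, smul_eq_mul, hG, Finset.sum_const, Finset.card_univ,
    Fintype.card_fin, nsmul_eq_mul]
  push_cast
  field_simp

theorem letters (n m p : ℕ) (hm : 1 ≤ m) (G : Fn (Fin (n + 1)) (Fin (m ^ 2)))
    (hG : ∀ c x, G (Function.update c (pt n p) x) = G c) (k : ℕ) :
    (W (pe n m) (List.replicate k (2 * p, true)) :
      Module.End ℝ (Fn (Fin (n + 1)) (Fin (m ^ 2)))) G = (1 + m : ℝ) ^ k • G := by
  induction k with
  | zero => simp [W]
  | succ k ih =>
    have h1 : (W (pe n m) (List.replicate (k + 1) (2 * p, true)) :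
        Module.End ℝ (Fn (Fin (n + 1)) (Fin (m ^ 2)))) =
        lv (pe n m) (2 * p, true) * W (pe n m) (List.replicate k (2 * p, true)) := by
      simp [W, List.replicate_succ]
    rw [h1, Module.End.mul_apply, ih, map_smul, letter n m p hm G hG, smul_smul,
      pow_succ (1 + (m : ℝ)) k]

end GNEWaux

theorem GNEW_ok (h1 : S_WNEW) (h2 : S_LET) : S_GNEW := by
  intro V E _ _ ends L1 L2 U Es v hv1 hv2 hU hE hg
  obtain ⟨w, N, a, b, hin, hlen, heq⟩ := hg
  obtain ⟨w', a', b', hin', heq'⟩ := h2 (insW L1.length L2.length) (by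
    intro l hl i he
    have h3 := inr_ins (L1.length + L2.length) L1.length L2.length (le_refl _) l hl
    subst he
    have h4 : ∀ (d p : ℕ), Let.X i ∉ shrW p d := by
      intro d
      induction d with
      | zero => intro p; simp [shrW]
      | succ d ih =>
        intro p
        simp only [shrW, Shr, List.mem_append, List.mem_cons, List.not_mem_nil, or_false]
        rintro ((h | h | h) | h)
        · cases h
        · cases h
        · cases h
        · exact ih _ h
    simp only [insW, List.mem_cons] at hl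
    rcases hl with h | h
    · cases h
    · exact h4 _ _ h)
  have hlen' : L1.length + L2.length ≤ N := by
    rw [List.length_append] at hlen
    exact hlen
  refine ⟨List.replicate (mul ends s(v, v)) (2 * L1.length, true) ++ (w' ++ w), N + 1, a + b',
    a' + 2 * (L2.length + 1) + b + 2, ?_, ?_, ?_⟩
  · intro l hl
    rw [List.mem_append, List.mem_append] at hl
    rcases hl with hl | hl | hl
    · rw [List.eq_of_mem_replicate hl]
      show 2 * L1.length < 2 * (N + 1) + 1
      omega
    · exact hin' (N + 1) (inr_ins (N + 1) L1.length L2.length (by omega)) l hl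
    · have := hin l hl
      omega
  · rw [List.length_append, List.length_cons]
    omega
  · intro n hn m hm c
    have hm0 : (m : ℝ) ≠ 0 := by
      have : 0 < m := hm
      positivity
    have hma : (m : ℝ) ^ a ≠ 0 := pow_ne_zero _ hm0
    have hmb' : (m : ℝ) ^ b' ≠ 0 := pow_ne_zero _ hm0
    set F : List (Fin (m ^ 2)) → ℝ :=
      fun l => (m : ℝ) ^ b / (m : ℝ) ^ a * wc ends m U Es (L1 ++ L2) l with hFdef
    have hF : (W (pe n m) w (fun _ => 1)) = fun c : Fin (n + 1) → Fin (m ^ 2) =>
        F (cl (fun i => i) (L1.length + L2.length) c) := by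
      funext c
      have := heq n (by omega) m hm c
      rw [List.length_append] at this
      simp only [hFdef]
      field_simp
      linarith
    have hins := ins_act n (m ^ 2) L1.length L2.length (by omega) F
    have hW : (W (pe n m) w' : Module.End ℝ (Fn (Fin (n + 1)) (Fin (m ^ 2)))) =
        ((m : ℝ) ^ a' / (m : ℝ) ^ b') • T (PR n (m ^ 2)) (insW L1.length L2.length) := by
      have h3 := heq' n m hm
      rw [div_eq_inv_mul, mul_smul, h3, smul_smul, inv_mul_cancel₀ hmb', one_smul]
    set G : Fn (Fin (n + 1)) (Fin (m ^ 2)) := fun c =>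
      (m : ℝ) ^ a' / (m : ℝ) ^ b' * (((m ^ 2 : ℕ) : ℝ) ^ (L2.length + 1) *
        F (cl (up L1.length) (L1.length + L2.length) c)) with hGdef
    have hG1 : (W (pe n m) w' : Module.End ℝ (Fn (Fin (n + 1)) (Fin (m ^ 2))))
        (W (pe n m) w (fun _ => 1)) = G := by
      rw [hF, hW]
      funext c
      rw [LinearMap.smul_apply, Pi.smul_apply, smul_eq_mul]
      have := hins c
      rw [this]
    have hG2 : ∀ c x, G (Function.update c (pt n L1.length) x) = G c := by
      intro c x
      simp only [hGdef]
      rw [ins_act_indep n (m ^ 2) L1.length L2.length (by omega) c x]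
    rw [GNEWaux.W_append, GNEWaux.W_append, Module.End.mul_apply, Module.End.mul_apply, hG1,
      GNEWaux.letters n m L1.length hm G hG2, Pi.smul_apply, smul_eq_mul]
    have hnew := h1 ends m hm L1 L2 U Es v hv1 hv2 hU hE (cl (fun i => i) L1.length c)
      (cl (fun i => L1.length + 1 + i) L2.length c) (c (pt n L1.length)) (by simp [cl])
    have hcl : cl (fun i => i) (L1 ++ v :: L2).length c =
        cl (fun i => i) L1.length c ++ c (pt n L1.length) ::
          cl (fun i => L1.length + 1 + i) L2.length c := by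
      rw [List.length_append, List.length_cons, good_new_cl']
    simp only [hGdef, hFdef]
    rw [hcl, good_new_cl]
    push_cast at hnew ⊢
    have e1 : (m : ℝ) ^ (a + b') * ((1 + m) ^ mul ends s(v, v) * ((m : ℝ) ^ a' / (m : ℝ) ^ b' *
        (((m : ℝ) ^ 2) ^ (L2.length + 1) * ((m : ℝ) ^ b / (m : ℝ) ^ a *
          wc ends m U Es (L1 ++ L2) (cl (fun i => i) L1.length c ++
            cl (fun i => L1.length + 1 + i) L2.length c))))) =
        (m : ℝ) ^ a' * ((m : ℝ) ^ 2) ^ (L2.length + 1) * (m : ℝ) ^ b *
          ((1 + m) ^ mul ends s(v, v) * wc ends m U Es (L1 ++ L2)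
            (cl (fun i => i) L1.length c ++ cl (fun i => L1.length + 1 + i) L2.length c)) := by
      rw [pow_add]
      field_simp
    rw [e1, ← hnew, ← pow_mul]
    rw [pow_add (m : ℝ) (a' + 2 * (L2.length + 1) + b) 2, pow_add, pow_add]
    ring

end Pool.Agent.H696R3.LV
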