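import Pool.Agent.H696R3.LV.Defs

/-!
# Task GNIL: the empty word (helper228)
-/

set_option autoImplicit false

namespace Pool.Agent.H696R3.LV

open Polynomial Pool.Agent.H207R2.BL Pool.Agent.H110R3.BP

theorem GNIL_ok : S_GNIL := by
  intro V E _ _ ends
  classical
  refine ⟨[], 0, 2 * Fintype.card V, 0, by simp, by simp, ?_⟩
  intro n _ m _ c
  have h1 : wc ends m (∅ : Set V) (∅ : Set (Sym2 V)) ([] : List V)
      (cl (fun i => i) ([] : List V).length c) = ((m : ℝ) ^ 2) ^ Fintype.card V := by
    have hcl : cl (fun i => i) ([] : List V).length c = [] := by simp [cl]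
    rw [hcl]
    unfold wc wt
    have hD : ∀ x : E, ¬ Done ends (∅ : Set V) (∅ : Set (Sym2 V)) x := by
      intro x hx
      rcases hx with hx | ⟨_, v, hv, _⟩
      · exact hx
      · exact hv
    simp [hD]
  rw [h1, ← pow_mul]
  simp [W]

end Pool.Agent.H696R3.LV
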