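import Pool.Agent.H696R3.LV.Defs
import Pool.Agent.H110R3.BP.Core

/-! Task GPROC of project LV (helper696): words for processes. -/

set_option autoImplicit false

namespace Pool.Agent.H696R3.LV

open Polynomial Pool.Agent.H207R2.BL Pool.Agent.H110R3.BP

theorem GPROC_ok (h1 : S_GNIL) (h2 : S_GNEW) (h3 : S_GDUP) (h4 : S_GEDGE) (h5 : S_GDROP) :
    S_GPROC := by
  intro V E _ _ ends L U Es h
  induction h with
  | nil => exact h1 ends
  | new L1 L2 U F v h hv ih =>
    have hi := proc_inv h
    exact h2 ends L1 L2 U F v (fun hm => hv (hi.1 v (List.mem_append_left _ hm)))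
      (fun hm => hv (hi.1 v (List.mem_append_right _ hm)))
      hv (fun u hu => hv (hi.2 u v hu).2.1) ih
  | dup L1 L2 U F v h ih => exact h3 ends L1 L2 U F v ih
  | edge L1 L2 U F u v h huv ih => exact h4 ends L1 L2 U F u v huv ih
  | drop L1 L2 U F v h ih => exact h5 ends L1 L2 U F v ih

end Pool.Agent.H696R3.LV
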