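import Pool.Agent.H696R3.LV.Defs

/-!
Project LV (helper696), task GRE: Greene's identity.
-/

set_option autoImplicit false

namespace Pool.Agent.H696R3.LV

open Polynomial Pool.Agent.H207R2.BL Pool.Agent.H110R3.BP

open Classical in
theorem GREaux.sign {E : Type} [Fintype E] (S : Finset E) :
    (-1 : ℤ) ^ S.card = ∑ A : Finset E, (-1 : ℤ) ^ A.card * 2 ^ (Fintype.card E - A.card) *
      (if S ⊆ A then 1 else 0) := by
  have h1 : (-1 : ℤ) ^ S.card = ∏ x : E, ((-1 : ℤ) + (if x ∈ S then 0 else 2)) := by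
    have h2 : ∀ x : E, ((-1 : ℤ) + (if x ∈ S then 0 else 2)) = if x ∈ S then -1 else 1 := by
      intro x
      split_ifs <;> norm_num
    rw [Finset.prod_congr rfl (fun x _ => h2 x), Finset.prod_ite_mem, Finset.univ_inter,
      Finset.prod_const]
  rw [h1, Finset.prod_add, Finset.powerset_univ]
  refine Finset.sum_congr rfl fun A _ => ?_
  rw [Finset.prod_const, mul_assoc]
  congr 1
  split_ifs with h
  · rw [mul_one]
    have h3 : ∀ x ∈ Finset.univ \ A, (if x ∈ S then (0 : ℤ) else 2) = 2 := by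
      intro x hx
      rw [if_neg]
      intro hxS
      exact (Finset.mem_sdiff.mp hx).2 (h hxS)
    rw [Finset.prod_congr rfl h3, Finset.prod_const, Finset.card_univ_sdiff]
  · rw [mul_zero]
    obtain ⟨x, hxS, hxA⟩ := Finset.not_subset.mp h
    exact Finset.prod_eq_zero (Finset.mem_sdiff.mpr ⟨Finset.mem_univ x, hxA⟩) (if_pos hxS)

theorem GRE_ok : S_GRE := by
  classical
  intro E _ C
  have h1 : ∀ p : C × C,
      (-1 : ℤ) ^ (Finset.univ.filter (fun x => p.1.1 x ≠ 0 ∨ p.2.1 x ≠ 0)).card =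
      ∑ A : Finset E, (-1 : ℤ) ^ A.card * 2 ^ (Fintype.card E - A.card) *
      (if (∀ x, x ∉ A → p.1.1 x = 0) ∧ (∀ x, x ∉ A → p.2.1 x = 0) then 1 else 0) := by
    intro p
    rw [GREaux.sign]
    refine Finset.sum_congr rfl fun A _ => ?_
    congr 1
    refine if_congr ?_ rfl rfl
    constructor
    · intro h
      constructor
      · intro x hx
        by_contra h0
        exact hx (h (Finset.mem_filter.mpr ⟨Finset.mem_univ x, Or.inl h0⟩))
      · intro x hx
        by_contra h0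
        exact hx (h (Finset.mem_filter.mpr ⟨Finset.mem_univ x, Or.inr h0⟩))
    · rintro ⟨h2, h3⟩ x hx
      by_contra hA
      rcases (Finset.mem_filter.mp hx).2 with h | h
      · exact h (h2 x hA)
      · exact h (h3 x hA)
  have h0 : (∑ p : C × C,
      (-1 : ℤ) ^ (Finset.univ.filter (fun x => p.1.1 x ≠ 0 ∨ p.2.1 x ≠ 0)).card) =
      ∑ p : C × C, ∑ A : Finset E, (-1 : ℤ) ^ A.card * 2 ^ (Fintype.card E - A.card) *
      (if (∀ x, x ∉ A → p.1.1 x = 0) ∧ (∀ x, x ∉ A → p.2.1 x = 0) then 1 else 0) :=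
    Finset.sum_congr rfl fun p _ => h1 p
  have h4 : ∀ A : Finset E,
      (∑ p : C × C, (-1 : ℤ) ^ A.card * 2 ^ (Fintype.card E - A.card) *
        (if (∀ x, x ∉ A → p.1.1 x = 0) ∧ (∀ x, x ∉ A → p.2.1 x = 0) then 1 else 0)) =
      (-1 : ℤ) ^ A.card * 2 ^ (Fintype.card E - A.card) *
      (Nat.card {c : E → ZMod 2 // c ∈ C ∧ ∀ x, x ∉ A → c x = 0} : ℤ) ^ 2 := by
    intro A
    rw [← Finset.mul_sum]
    congr 1
    have h5 : ∀ p : C × C, (if (∀ x, x ∉ A → p.1.1 x = 0) ∧ (∀ x, x ∉ A → p.2.1 x = 0)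
        then (1 : ℤ) else 0) = (if (∀ x, x ∉ A → p.1.1 x = 0) then 1 else 0) *
        (if (∀ x, x ∉ A → p.2.1 x = 0) then 1 else 0) := by
      intro p
      by_cases ha : ∀ x, x ∉ A → p.1.1 x = 0
      · by_cases hb : ∀ x, x ∉ A → p.2.1 x = 0
        · rw [if_pos ⟨ha, hb⟩, if_pos ha, if_pos hb, mul_one]
        · rw [if_neg (fun h => hb h.2), if_neg hb, mul_zero]
      · rw [if_neg (fun h => ha h.1), if_neg ha, zero_mul]
    rw [Finset.sum_congr rfl (fun p _ => h5 p), Fintype.sum_prod_type]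
    have h6 : (∑ c : C, (if (∀ x, x ∉ A → c.1 x = 0) then (1 : ℤ) else 0)) =
        (Nat.card {c : E → ZMod 2 // c ∈ C ∧ ∀ x, x ∉ A → c x = 0} : ℤ) := by
      rw [Finset.sum_boole, Nat.card_eq_fintype_card, Fintype.card_subtype]
      norm_cast
      refine Finset.card_bij (fun c _ => c.1) ?_ ?_ ?_
      · intro c hc
        exact Finset.mem_filter.mpr ⟨Finset.mem_univ _, c.2, (Finset.mem_filter.mp hc).2⟩
      · intro c _ c' _ h
        exact Subtype.ext h
      · intro c hc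
        exact ⟨⟨c, (Finset.mem_filter.mp hc).2.1⟩,
          Finset.mem_filter.mpr ⟨Finset.mem_univ _, (Finset.mem_filter.mp hc).2.2⟩, rfl⟩
    rw [← h6, sq, Finset.sum_mul_sum]
  rw [Finset.sum_comm] at h0
  rw [← Finset.sum_congr rfl (fun A _ => h4 A), ← h0]

end Pool.Agent.H696R3.LV
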