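import Pool.Agent.H696R3.LV.Defs

/-! Task LET: words in the letters `C`, `J` as words in the generators. -/

set_option autoImplicit false

namespace Pool.Agent.H696R3.LV

open Polynomial Pool.Agent.H207R2.BL Pool.Agent.H110R3.BP

namespace LETaux

theorem e_even (n m i : ℕ) (hm : 1 ≤ m) :
    (PR n (m ^ 2)).e (2 * i) = (m : ℝ) • pe n m (2 * i) := by
  have hm0 : (m : ℝ) ≠ 0 := by
    have : (0 : ℝ) < m := by exact_mod_cast hm
    exact this.ne'
  unfold pe
  rw [if_pos (even_two_mul i), smul_smul, mul_inv_cancel₀ hm0, one_smul]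

theorem e_odd (n m i : ℕ) : (m : ℝ) • (PR n (m ^ 2)).e (2 * i + 1) = pe n m (2 * i + 1) := by
  unfold pe
  rw [if_neg (by simp)]

end LETaux

open LETaux in
theorem LET_ok : S_LET := by
  intro w
  induction w with
  | nil =>
    intro _
    refine ⟨[], 0, 0, fun N _ l hl => by simp at hl, fun n m _ => ?_⟩
    simp [T, W]
  | cons x w ih =>
    intro hX
    obtain ⟨w', a, b, h1, h2⟩ := ih (fun l hl i => hX l (List.mem_cons_of_mem _ hl) i)
    cases x with
    | C i =>
      refine ⟨(2 * i, false) :: w', a, b + 1, ?_, ?_⟩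
      · intro N hN l hl
        rcases List.mem_cons.1 hl with rfl | hl
        · have : i ≤ N := hN _ (List.mem_cons_self ..)
          simp only
          omega
        · exact h1 N (fun l hl => hN l (List.mem_cons_of_mem _ hl)) l hl
      · intro n m hm
        have e1 : T (PR n (m ^ 2)) (Let.C i :: w) = (PR n (m ^ 2)).e (2 * i) *
            T (PR n (m ^ 2)) w := by simp [T, ev]
        have e2 : W (pe n m) ((2 * i, false) :: w') = pe n m (2 * i) * W (pe n m) w' := by
          simp [W, lv]
        rw [e1, e2, ← mul_smul_comm, h2 n m hm, e_even n m i hm, mul_smul_comm, smul_mul_assoc,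
          smul_smul, pow_succ (m : ℝ) b]
    | J i =>
      refine ⟨(2 * i + 1, false) :: w', a + 1, b, ?_, ?_⟩
      · intro N hN l hl
        rcases List.mem_cons.1 hl with rfl | hl
        · have : i < N := hN _ (List.mem_cons_self ..)
          simp only
          omega
        · exact h1 N (fun l hl => hN l (List.mem_cons_of_mem _ hl)) l hl
      · intro n m hm
        have e1 : T (PR n (m ^ 2)) (Let.J i :: w) = (PR n (m ^ 2)).e (2 * i + 1) *
            T (PR n (m ^ 2)) w := by simp [T, ev]
        have e2 : W (pe n m) ((2 * i + 1, false) :: w') = pe n m (2 * i + 1) * W (pe n m) w' := by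
          simp [W, lv]
        rw [e1, e2, ← e_odd n m i]
        calc (m : ℝ) ^ (a + 1) • ((PR n (m ^ 2)).e (2 * i + 1) * T (PR n (m ^ 2)) w)
            = (m : ℝ) • ((PR n (m ^ 2)).e (2 * i + 1) * ((m : ℝ) ^ a • T (PR n (m ^ 2)) w)) := by
              rw [mul_smul_comm, smul_smul, pow_succ (m : ℝ) a, mul_comm (m : ℝ)]
          _ = (m : ℝ) • ((PR n (m ^ 2)).e (2 * i + 1) * ((m : ℝ) ^ b • W (pe n m) w')) := by
              rw [h2 n m hm]
          _ = (m : ℝ) ^ b • ((m : ℝ) • (PR n (m ^ 2)).e (2 * i + 1) * W (pe n m) w') := by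
              rw [mul_smul_comm, smul_mul_assoc, smul_comm]
    | X i => exact absurd rfl (hX (Let.X i) (List.mem_cons_self ..) i)

end Pool.Agent.H696R3.LV
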