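import Pool.Agent.H696R3.LV.Defs

/-! Project LV (helper696): the conjecture of Las Vergnas from POLY, RR and DER. -/

set_option autoImplicit false

namespace Pool.Agent.H696R3.LV

open Polynomial Pool.Agent.H207R2.BL Pool.Agent.H110R3.BP

theorem MAIN_ok (h1 : S_POLY) (h2 : S_RR) (h3 : S_DER) : S_MAIN := by
  intro V E _ _ ends f hf
  obtain ⟨ν, hν, ho⟩ := h1 ends f hf
  rw [h2 ends] at hν
  have hb : bic ends = ν := Int.pow_right_injective (le_refl 2) hν
  rw [← hb] at ho
  exact ⟨ho, h3 ends _ ho⟩

/-- the diagonal Tutte polynomial in the variable `x - 1` -/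
theorem tut_comp {V E : Type} [Fintype V] [Fintype E] (ends : E → Sym2 V) :
    (tut ends).comp (X + 1) = tutd ends := by
  have h0 : ((X : ℤ[X]) - 1).comp (X + 1) = X := by simp
  unfold tut tutd
  rw [← Polynomial.coe_compRingHom_apply, map_sum]
  refine Finset.sum_congr rfl (fun A _ => ?_)
  rw [map_mul, map_pow, map_pow, Polynomial.coe_compRingHom_apply, h0, ← pow_add]

end Pool.Agent.H696R3.LV
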