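import Pool.Agent.H696R3.LV.Defs
import Pool.Agent.H110R3.BP.Core

/-!
Project LV (helper696), task PLANE: a drawing gives a word.
-/

set_option autoImplicit false

namespace Pool.Agent.H696R3.LV

open Polynomial Pool.Agent.H207R2.BL Pool.Agent.H110R3.BP

theorem PLANE_ok (h1 : S_GPROC) (h2 : S_FK) : S_PLANE := by
  intro V E _ _ ends f hf
  have hp := straight_proc f hf
  obtain ⟨w, N, a, b, hw, -, hN⟩ := h1 ends _ _ _ hp
  refine ⟨w, N, a, b + 2 * (N + 1), hw, fun m hm => ?_⟩
  have h3 : ∀ c : Fin (N + 1) → Fin (m ^ 2), (m : ℝ) ^ a * (W (pe N m) w (fun _ => 1)) c =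
      (m : ℝ) ^ b * ∑ A : Finset E, (m : ℝ) ^ (A.card + 2 * kc ends A) := by
    intro c
    have h4 := hN N le_rfl m hm c
    rw [h4]
    congr 1
    have h5 : cl (fun i => i) ([] : List V).length c = [] := by
      simp [cl]
    rw [h5]
    exact h2 ends m
  have h6 : pst N m (W (pe N m) w) = ∑ c, (W (pe N m) w (fun _ => 1)) c := rfl
  rw [h6, Finset.mul_sum, Finset.sum_congr rfl (fun c _ => h3 c), Finset.sum_const,
    Finset.card_univ, Fintype.card_fun, Fintype.card_fin, Fintype.card_fin, nsmul_eq_mul]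
  push_cast
  rw [← pow_mul, pow_add]
  ring

end Pool.Agent.H696R3.LV
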