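import Pool.Agent.H696R3.LV.Defs

set_option autoImplicit false

/-! Task POLY (helper553): the diagonal Tutte polynomial of a plane graph. -/

namespace Pool.Agent.H696R3.LV

open Polynomial Pool.Agent.H207R2.BL Pool.Agent.H110R3.BP

namespace POLYaux

theorem pst_one (n m : ℕ) : pst n m 1 = ((m : ℝ) ^ 2) ^ (n + 1) := by
  show (∑ _c : (Fin (n + 1) → Fin (m ^ 2)), (1 : ℝ)) = _
  simp

/-- comparison of the two polynomials -/
theorem compare (p t : ℤ[X]) (α β μ : ℕ) (h : X ^ α * p = X ^ β * t)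
    (h1 : |p.eval (-2)| = 2 ^ μ) (h2 : Ord μ p) : ∃ ν : ℕ, |t.eval (-2)| = 2 ^ ν ∧ Ord ν t := by
  have he := congrArg (fun q : ℤ[X] => |q.eval (-2)|) h
  simp only [eval_mul, eval_pow, eval_X, abs_mul, abs_pow, abs_neg, h1] at he
  have ha : |(2 : ℤ)| = 2 := by norm_num
  rw [ha, ← pow_add] at he
  have ht : 1 ≤ |t.eval (-2)| := by
    rcases Int.lt_or_le 0 |t.eval (-2)| with h3 | h3
    · exact h3
    · exfalso
      have h4 : |t.eval (-2)| = 0 := le_antisymm h3 (abs_nonneg _)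
      rw [h4, mul_zero] at he
      exact absurd he (by positivity)
  have hle : β ≤ α + μ := by
    by_contra hcon
    push Not at hcon
    have h5 : (2 : ℤ) ^ (α + μ) < 2 ^ β := pow_lt_pow_right₀ (by norm_num) hcon
    have h6 : (0 : ℤ) < 2 ^ β := by positivity
    nlinarith
  refine ⟨α + μ - β, ?_, ?_⟩
  · have h5 : (2 : ℤ) ^ (α + μ) = 2 ^ β * 2 ^ (α + μ - β) := by
      rw [← pow_add]
      congr 1
      omega
    rw [h5] at he
    have h6 : (2 : ℤ) ^ β ≠ 0 := by positivity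
    exact (mul_left_cancel₀ h6 he).symm
  · intro i
    have hc := congrArg (fun q : ℤ[X] => q.coeff (i + β)) h
    simp only [coeff_X_pow_mul] at hc
    rw [coeff_X_pow_mul'] at hc
    rw [← hc]
    split_ifs with h7
    · refine dvd_trans (pow_dvd_pow 2 ?_) (h2 (i + β - α))
      omega
    · exact dvd_zero _

end POLYaux

open POLYaux in
theorem POLY_ok (hCORE : S_CORE) (hREP : S_REP) (hTRANS : S_TRANS) (hPOTTS : S_POTTS)
    (hPLANE : S_PLANE) (hEXP : S_EXP) : S_POLY := by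
  intro V E _ _ ends f hf
  obtain ⟨w, N, a, b, hw, hP⟩ := hPLANE ends f hf
  obtain ⟨A, _, _, e, φ, hT, hS, h1⟩ := hREP N
  obtain ⟨μ, hμ1, hμ2⟩ := hCORE A N e φ hT hS h1 w hw
  obtain ⟨p, hp⟩ : ∃ p : ℤ[X], p = φ (W e w) := ⟨_, rfl⟩
  rw [← hp] at hμ1 hμ2
  refine compare p (tutd ends) (a + N + 1) (b + (Fintype.card V + kc ends Finset.univ)) μ ?_
    hμ1 hμ2
  have key : ∀ m : ℕ, 1 ≤ m → eval (m : ℤ) (X ^ (a + N + 1) * p) =
      eval (m : ℤ) (X ^ (b + (Fintype.card V + kc ends Finset.univ)) * tutd ends) := by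
    intro m hm
    have hm0 : (m : ℝ) ≠ 0 := by
      have : (0 : ℝ) < m := by exact_mod_cast hm
      exact this.ne'
    obtain ⟨hp1, hp2⟩ := hPOTTS N m hm
    have e1 := hTRANS N A e φ hT hS h1 _ m (pe N m) (pst N m) hm hp1 hp2 w hw
    rw [pst_one, ← hp] at e1
    have e2 : pst N m (W (pe N m) w) = (m : ℝ) ^ (N + 1) * ((p.eval (m : ℤ) : ℤ) : ℝ) := by
      apply mul_left_cancel₀ (pow_ne_zero (N + 1) hm0)
      rw [e1]
      ring
    have e3 := hP m hm
    rw [e2] at e3
    have e4 : ∑ A : Finset E, (m : ℝ) ^ (A.card + 2 * kc ends A) =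
        (m : ℝ) ^ (Fintype.card V + kc ends Finset.univ) *
          (((tutd ends).eval (m : ℤ) : ℤ) : ℝ) := by
      unfold tutd
      rw [eval_finset_sum]
      push_cast
      rw [Finset.mul_sum]
      refine Finset.sum_congr rfl fun A _ => ?_
      rw [← (hEXP ends A).2.2.2]
      simp only [eval_pow, eval_X]
      push_cast
      rw [pow_add _ _ (Fintype.card V + kc ends Finset.univ)]
      ring
    rw [e4] at e3
    have e5 : (((m : ℤ) ^ (a + N + 1) * p.eval (m : ℤ) : ℤ) : ℝ) =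
        (((m : ℤ) ^ (b + (Fintype.card V + kc ends Finset.univ)) *
          (tutd ends).eval (m : ℤ) : ℤ) : ℝ) := by
      push_cast
      linear_combination e3
    have e6 := Int.cast_injective e5
    simpa only [eval_mul, eval_pow, eval_X] using e6
  apply Polynomial.eq_of_infinite_eval_eq
  refine Set.infinite_of_injective_forall_mem (f := fun m : ℕ => ((m + 1 : ℕ) : ℤ)) ?_ ?_
  · intro x y hxy
    have h7 : ((x + 1 : ℕ) : ℤ) = ((y + 1 : ℕ) : ℤ) := hxy
    have h8 : x + 1 = y + 1 := by exact_mod_cast h7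
    omega
  · intro m
    exact key (m + 1) (by omega)

end Pool.Agent.H696R3.LV
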