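import Pool.Agent.H696R3.LV.Defs

/-! Task POTTS: the colouring representation. -/

set_option autoImplicit false

namespace Pool.Agent.H696R3.LV

open Polynomial Pool.Agent.H207R2.BL Pool.Agent.H110R3.BP

namespace POTTSaux

/-- scaling factor -/
noncomputable def cc (m j : ℕ) : ℝ := if Even j then (m : ℝ)⁻¹ else (m : ℝ)

lemma pe_eq (n m j : ℕ) : pe n m j = cc m j • (PR n (m ^ 2)).e j := by
  unfold pe cc
  split_ifs <;> rfl

lemma cc_succ (m j : ℕ) (hm : 1 ≤ m) : cc m j * cc m (j + 1) = 1 := by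
  have hmpos : (m : ℝ) ≠ 0 := by
    have : (0 : ℝ) < m := by exact_mod_cast hm
    exact this.ne'
  unfold cc
  by_cases h : Even j
  · have h2 : ¬ Even (j + 1) := by
      rw [Nat.even_add_one]; simpa using h
    rw [if_pos h, if_neg h2]
    exact inv_mul_cancel₀ hmpos
  · have h2 : Even (j + 1) := by
      rw [Nat.even_add_one]; exact h
    rw [if_neg h, if_pos h2]
    exact mul_inv_cancel₀ hmpos

end POTTSaux

open POTTSaux in
theorem POTTS_ok : S_POTTS := by
  intro n m hm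
  have hmpos : (0 : ℝ) < m := by exact_mod_cast hm
  refine ⟨⟨?_, ?_, ?_, ?_⟩, ⟨?_, ?_⟩⟩
  · intro j hj
    rw [pe_eq, smul_mul_smul_comm, (PR n (m ^ 2)).sq j hj, smul_smul, smul_smul]
    congr 1
    unfold cc
    by_cases h : Even j
    · rw [if_pos h, if_pos h]
      push_cast
      field_simp
    · rw [if_neg h, if_neg h, mul_one]
  · intro j hj
    rw [pe_eq, pe_eq, smul_mul_smul_comm, smul_mul_smul_comm, (PR n (m ^ 2)).r1 j hj,
      cc_succ m j hm, one_mul]
  · intro j hj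
    rw [pe_eq, pe_eq, smul_mul_smul_comm, smul_mul_smul_comm, (PR n (m ^ 2)).r2 j hj,
      mul_comm (cc m (j + 1)), cc_succ m j hm, one_mul]
  · intro i j hij hj
    rw [pe_eq, pe_eq, smul_mul_smul_comm, smul_mul_smul_comm, (PR n (m ^ 2)).comm i j hij hj,
      mul_comm (cc m i)]
  · intro j hj hje x
    obtain ⟨i, rfl⟩ := hje.two_dvd
    rw [pe_eq, PR_even]
    show ∑ c, ((cc m (2 * i) • Cop (pt n i) : Module.End ℝ (Fn (Fin (n + 1)) (Fin (m ^ 2)))) * x)
      (fun _ => 1) c = m * ∑ c, x (fun _ => 1) c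
    have h1 : ∀ c, ((cc m (2 * i) • Cop (pt n i) :
        Module.End ℝ (Fn (Fin (n + 1)) (Fin (m ^ 2)))) * x) (fun _ => 1) c =
        (m : ℝ)⁻¹ * ∑ y, x (fun _ => 1) (Function.update c (pt n i) y) := by
      intro c
      have hc : cc m (2 * i) = (m : ℝ)⁻¹ := by
        unfold cc; rw [if_pos (even_two_mul i)]
      rw [hc]
      rfl
    rw [Finset.sum_congr rfl (fun c _ => h1 c), ← Finset.mul_sum,
      sum_update' (pt n i) (x (fun _ => 1)), Fintype.card_fin]
    push_cast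
    field_simp
  · intro j hj hje x
    obtain ⟨i, rfl⟩ := hje.two_dvd
    rw [pe_eq, PR_even]
    have hc : cc m (2 * i) = (m : ℝ)⁻¹ := by
      unfold cc; rw [if_pos (even_two_mul i)]
    have h1 : (cc m (2 * i) • Cop (pt n i) : Module.End ℝ (Fn (Fin (n + 1)) (Fin (m ^ 2))))
        (fun _ => 1) = (m : ℝ) • (fun _ => 1) := by
      funext c
      rw [hc]
      show (m : ℝ)⁻¹ * ∑ _y : Fin (m ^ 2), (1 : ℝ) = (m : ℝ) * 1
      rw [Finset.sum_const, Finset.card_univ, Fintype.card_fin, nsmul_eq_mul]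
      push_cast
      field_simp
    show ∑ c, x ((cc m (2 * i) • Cop (pt n i) :
      Module.End ℝ (Fn (Fin (n + 1)) (Fin (m ^ 2)))) (fun _ => 1)) c = m * ∑ c, x (fun _ => 1) c
    rw [h1, map_smul, Finset.mul_sum]
    rfl

end Pool.Agent.H696R3.LV
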