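import Pool.Agent.H696R3.LV.Defs

set_option autoImplicit false

namespace Pool.Agent.H696R3.LV

open Polynomial Pool.Agent.H207R2.BL Pool.Agent.H110R3.BP

namespace QUADaux

/-- The nontrivial character. -/
def chi (t : ZMod 2) : ℤ := if t = 0 then 1 else -1

theorem chi_add (s t : ZMod 2) : chi (s + t) = chi s * chi t := by
  revert s t; decide

theorem chi_zero : chi 0 = 1 := rfl

theorem chi_abs (t : ZMod 2) : |chi t| = 1 := by
  revert t; decide

theorem chi_sum {ι : Type} (s : Finset ι) (f : ι → ZMod 2) :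
    chi (∑ x ∈ s, f x) = ∏ x ∈ s, chi (f x) := by
  classical
  induction s using Finset.induction_on with
  | empty => simp [chi_zero]
  | insert a s ha ih => rw [Finset.sum_insert ha, Finset.prod_insert ha, chi_add, ih]

theorem chi_or (s t : ZMod 2) [Decidable (s ≠ 0 ∨ t ≠ 0)] :
    (if s ≠ 0 ∨ t ≠ 0 then (-1 : ℤ) else 1) = chi (s + t + s * t) := by
  have key : ∀ s t : ZMod 2, (if s ≠ 0 ∨ t ≠ 0 then (-1 : ℤ) else 1) = chi (s + t + s * t) := by
    decide
  rw [← key s t]
  congr

variable {E : Type} [Fintype E] (C : Submodule (ZMod 2) (E → ZMod 2))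

/-- The bilinear form on `C`. -/
noncomputable def B : C →ₗ[ZMod 2] Module.Dual (ZMod 2) C :=
  LinearMap.mk₂ (ZMod 2) (fun a b : C => ∑ x, a.1 x * b.1 x)
    (by intro a b c; simp [add_mul, Finset.sum_add_distrib])
    (by intro r a b; simp [Finset.mul_sum, mul_assoc])
    (by intro a b c; simp [mul_add, Finset.sum_add_distrib])
    (by intro r a b; simp [Finset.mul_sum, mul_left_comm])

/-- The linear functional. -/
noncomputable def ell : Module.Dual (ZMod 2) C where
  toFun a := ∑ x, a.1 x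
  map_add' a b := by simp [Finset.sum_add_distrib]
  map_smul' r a := by simp [Finset.mul_sum]

theorem B_apply (a b : C) : B C a b = ∑ x, a.1 x * b.1 x := rfl

theorem ell_apply (a : C) : ell C a = ∑ x, a.1 x := rfl

theorem B_symm (a b : C) : B C a b = B C b a := by
  rw [B_apply, B_apply]
  exact Finset.sum_congr rfl fun x _ => mul_comm _ _

theorem B_self (a : C) : B C a a = ell C a := by
  rw [B_apply, ell_apply]
  refine Finset.sum_congr rfl fun x _ => ?_
  have : ∀ t : ZMod 2, t * t = t := by decide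
  exact this _

theorem exists_u : ∃ u : C, ∀ a : C, ell C a = B C u a := by
  have h1 : ell C ∈ (LinearMap.ker (B C)).dualAnnihilator := by
    rw [Submodule.mem_dualAnnihilator]
    intro c hc
    rw [LinearMap.mem_ker] at hc
    rw [← B_self, hc]
    rfl
  rw [← LinearMap.range_dualMap_eq_dualAnnihilator_ker] at h1
  obtain ⟨φ, hφ⟩ := h1
  obtain ⟨u, hu⟩ := (Module.evalEquiv (ZMod 2) C).surjective φ
  refine ⟨u, fun a => ?_⟩
  rw [← hφ, ← hu]
  simp only [LinearMap.dualMap_apply, Module.evalEquiv_apply]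
  exact B_symm C a u

theorem inner_sum [Fintype C] (a : C) [Decidable (B C a = 0)] :
    ∑ b : C, chi (B C a b) = if B C a = 0 then (Fintype.card C : ℤ) else 0 := by
  split_ifs with h
  · simp [h, chi_zero]
  · obtain ⟨b0, hb0⟩ : ∃ b0, B C a b0 ≠ 0 := by
      by_contra hc
      push Not at hc
      exact h (LinearMap.ext hc)
    have h1 : ∑ b : C, chi (B C a b) = ∑ b : C, chi (B C a (b + b0)) :=
      (Equiv.sum_comp (Equiv.addRight b0) (fun b => chi (B C a b))).symm
    have h2 : chi (B C a b0) = -1 := by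
      rw [chi, if_neg hb0]
    have h3 : ∑ b : C, chi (B C a (b + b0)) = - ∑ b : C, chi (B C a b) := by
      rw [← Finset.sum_neg_distrib]
      refine Finset.sum_congr rfl fun b _ => ?_
      rw [map_add, chi_add, h2]
      ring
    linarith

end QUADaux

open QUADaux in
theorem QUAD_ok : S_QUAD := by
  classical
  intro E _ C
  have hfin : Finite C := inferInstance
  obtain ⟨u, hu⟩ := exists_u C
  have hcardC : (Fintype.card C : ℤ) = 2 ^ Module.finrank (ZMod 2) C := by
    rw [Module.card_eq_pow_finrank (K := ZMod 2) (V := C)]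
    simp
  have hker : ((Finset.univ.filter fun a : C => B C a = 0).card : ℤ) =
      2 ^ Module.finrank (ZMod 2) (C ⊓ orth C : Submodule (ZMod 2) (E → ZMod 2)) := by
    have h1 : Fintype.card (C ⊓ orth C : Submodule (ZMod 2) (E → ZMod 2)) =
        2 ^ Module.finrank (ZMod 2) (C ⊓ orth C : Submodule (ZMod 2) (E → ZMod 2)) := by
      rw [Module.card_eq_pow_finrank (K := ZMod 2)
        (V := (C ⊓ orth C : Submodule (ZMod 2) (E → ZMod 2)))]
      simp
    have h2 : (Finset.univ.filter fun a : C => B C a = 0).card =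
        Fintype.card (C ⊓ orth C : Submodule (ZMod 2) (E → ZMod 2)) := by
      rw [← Fintype.card_subtype]
      refine Fintype.card_congr ⟨fun a => ⟨a.1.1, a.1.2, ?_⟩, fun a => ⟨⟨a.1, a.2.1⟩, ?_⟩, ?_, ?_⟩
      · intro c' hc'
        have h3 : B C a.1 ⟨c', hc'⟩ = 0 := by rw [a.2]; rfl
        rw [B_apply] at h3
        exact h3
      · refine LinearMap.ext fun b => ?_
        have h3 := a.2.2 b.1 b.2
        rw [B_apply]
        exact h3
      · intro a; rfl
      · intro a; rfl
    rw [h2, h1]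
    push_cast
    rfl
  have hterm : ∀ p : C × C,
      (-1 : ℤ) ^ (Finset.univ.filter (fun x => p.1.1 x ≠ 0 ∨ p.2.1 x ≠ 0)).card =
        chi (B C u u) * chi (B C (p.1 + u) (p.2 + u)) := by
    intro p
    have h1 : (-1 : ℤ) ^ (Finset.univ.filter (fun x => p.1.1 x ≠ 0 ∨ p.2.1 x ≠ 0)).card =
        ∏ x : E, chi (p.1.1 x + p.2.1 x + p.1.1 x * p.2.1 x) := by
      rw [← Finset.prod_const, Finset.prod_filter]
      exact Finset.prod_congr rfl fun x _ => chi_or _ _
    rw [h1, ← chi_sum, ← chi_add]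
    congr 1
    rw [Finset.sum_add_distrib, Finset.sum_add_distrib]
    have e1 : ∑ x, p.1.1 x = B C u p.1 := by rw [← hu]; rfl
    have e2 : ∑ x, p.2.1 x = B C u p.2 := by rw [← hu]; rfl
    have e3 : ∑ x, p.1.1 x * p.2.1 x = B C p.1 p.2 := rfl
    rw [e1, e2, e3, map_add, map_add, LinearMap.add_apply, LinearMap.add_apply,
      B_symm C p.1 u]
    have h4 : ∀ a b c d : ZMod 2, a + b + c = d + (c + b + (a + d)) := by decide
    exact h4 _ _ _ _
  have hsum : ∑ p : C × C,
      (-1 : ℤ) ^ (Finset.univ.filter (fun x => p.1.1 x ≠ 0 ∨ p.2.1 x ≠ 0)).card =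
      chi (B C u u) * (2 ^ Module.finrank (ZMod 2) C *
        2 ^ Module.finrank (ZMod 2) (C ⊓ orth C : Submodule (ZMod 2) (E → ZMod 2))) := by
    rw [Finset.sum_congr rfl fun p _ => hterm p, ← Finset.mul_sum]
    congr 1
    have h5 : ∑ p : C × C, chi (B C (p.1 + u) (p.2 + u)) = ∑ p : C × C, chi (B C p.1 p.2) :=
      Equiv.sum_comp (Equiv.addRight ((u, u) : C × C)) (fun p => chi (B C p.1 p.2))
    rw [h5, Fintype.sum_prod_type]
    simp only [QUADaux.inner_sum]
    rw [← Finset.sum_filter, Finset.sum_const, nsmul_eq_mul, hker, hcardC]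
    ring
  calc _ = |chi (B C u u) * (2 ^ Module.finrank (ZMod 2) C *
        2 ^ Module.finrank (ZMod 2) (C ⊓ orth C : Submodule (ZMod 2) (E → ZMod 2)))| := by
        rw [← hsum]
    _ = _ := by
        rw [abs_mul, chi_abs, one_mul, ← pow_add, abs_of_nonneg (by positivity)]

end Pool.Agent.H696R3.LV
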