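import Pool.Agent.H696R3.LV.Defs

set_option autoImplicit false
set_option linter.unusedSectionVars false

namespace Pool.Agent.H696R3.LV

open Polynomial Function

namespace REPaux

section general

variable {R : Type} [CommRing R] {ι κ : Type} [Fintype ι] [DecidableEq ι] [Fintype κ]
  [DecidableEq κ]

/-- contraction of the positions `a`, `b` with `C` -/
def con (C : κ → κ → R) (a b : ι) (f : (ι → κ) → R) (s : ι → κ) : R :=
  ∑ p : κ × κ, C p.1 p.2 * f (update (update s a p.1) b p.2)

/-- the generator -/
def op (B C : κ → κ → R) (a b : ι) : Module.End R ((ι → κ) → R) where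
  toFun f s := B (s a) (s b) * con C a b f s
  map_add' f g := by
    ext s
    simp only [con, Pi.add_apply, mul_add, Finset.sum_add_distrib]
  map_smul' r f := by
    ext s
    simp only [con, Pi.smul_apply, smul_eq_mul, Finset.mul_sum, RingHom.id_apply]
    exact Finset.sum_congr rfl fun p _ => by ring

theorem op_apply (B C : κ → κ → R) (a b : ι) (f : (ι → κ) → R) (s : ι → κ) :
    op B C a b f s = B (s a) (s b) * con C a b f s := rfl

theorem upd2 (a b : ι) (hab : a ≠ b) (s : ι → κ) (x y z w : κ) :
    update (update (update (update s a x) b y) a z) b w = update (update s a z) b w := by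
  ext i
  by_cases h1 : i = b
  · subst h1; simp
  · by_cases h2 : i = a
    · subst h2; simp [h1]
    · simp [h1, h2]

theorem con_update (C : κ → κ → R) (a b : ι) (hab : a ≠ b) (f : (ι → κ) → R) (s : ι → κ)
    (x y : κ) : con C a b f (update (update s a x) b y) = con C a b f s := by
  unfold con
  simp only [upd2 a b hab]

theorem op_sq (B C : κ → κ → R) (δ : R) (hδ : ∑ p : κ × κ, B p.1 p.2 * C p.1 p.2 = δ)
    (a b : ι) (hab : a ≠ b) : op B C a b * op B C a b = δ • op B C a b := by
  refine LinearMap.ext (fun f => funext (fun s => ?_))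
  simp only [Module.End.mul_apply, LinearMap.smul_apply, Pi.smul_apply, smul_eq_mul]
  rw [op_apply, op_apply]
  have h1 : con C a b (op B C a b f) s = δ * con C a b f s := by
    conv_lhs => unfold con
    rw [← hδ, Finset.sum_mul]
    refine Finset.sum_congr rfl fun p _ => ?_
    rw [op_apply, con_update C a b hab]
    simp only [update_self, update_of_ne hab]
    ring
  rw [h1]
  ring

theorem con_zig1 (B C : κ → κ → R) (hBC : ∀ x y, ∑ z, B x z * C z y = if x = y then 1 else 0)
    (hCB : ∀ x y, ∑ z, C x z * B z y = if x = y then 1 else 0)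
    (a b c : ι) (hab : a ≠ b) (hbc : b ≠ c) (hac : a ≠ c) (f : (ι → κ) → R) (s : ι → κ) :
    con C a b (op B C b c (op B C a b f)) s = con C a b f s := by
  have h1 : ∀ x y : κ, op B C b c (op B C a b f) (update (update s a x) b y) =
      B y (s c) * ∑ w : κ, (∑ z : κ, B x z * C z w) * con C a b f (update s c w) := by
    intro x y
    rw [op_apply]
    simp only [update_self, update_of_ne hbc.symm, update_of_ne hac.symm]
    congr 1
    unfold con
    rw [Fintype.sum_prod_type, Finset.sum_comm]
    refine Finset.sum_congr rfl fun w _ => ?_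
    rw [Finset.sum_mul]
    refine Finset.sum_congr rfl fun z _ => ?_
    have e3 : update (update (update (update s a x) b y) b z) c w =
        update (update (update s c w) a x) b z := by
      ext i
      by_cases h1 : i = c
      · subst h1; simp [update_of_ne hbc.symm, update_of_ne hac.symm]
      · by_cases h2 : i = b
        · subst h2; simp [h1]
        · simp [h1, h2, Function.update_apply]
    simp only
    rw [e3, op_apply, con_update C a b hab]
    simp only [update_self, update_of_ne hab]
    show C z w * (B x z * con C a b f (update s c w)) = B x z * C z w * con C a b f (update s c w)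
    ring
  have h2 : con C a b (op B C b c (op B C a b f)) s =
      ∑ x : κ, ∑ y : κ, C x y * (B y (s c) *
        ∑ w : κ, (∑ z : κ, B x z * C z w) * con C a b f (update s c w)) := by
    conv_lhs => unfold con
    rw [Fintype.sum_prod_type]
    exact Finset.sum_congr rfl fun x _ => Finset.sum_congr rfl fun y _ => by rw [h1]
  rw [h2]
  have h3 : ∀ x : κ, ∑ y : κ, C x y * (B y (s c) *
        ∑ w : κ, (∑ z : κ, B x z * C z w) * con C a b f (update s c w)) =
      (if x = s c then 1 else 0) * con C a b f (update s c x) := by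
    intro x
    simp only [hBC, ite_mul, one_mul, zero_mul, Finset.sum_ite_eq, Finset.mem_univ, if_true]
    simp only [← mul_assoc]
    rw [← Finset.sum_mul, hCB]
    split_ifs <;> simp
  rw [Finset.sum_congr rfl fun x _ => h3 x]
  simp

theorem zig1 (B C : κ → κ → R) (hBC : ∀ x y, ∑ z, B x z * C z y = if x = y then 1 else 0)
    (hCB : ∀ x y, ∑ z, C x z * B z y = if x = y then 1 else 0)
    (a b c : ι) (hab : a ≠ b) (hbc : b ≠ c) (hac : a ≠ c) :
    op B C a b * op B C b c * op B C a b = op B C a b := by
  refine LinearMap.ext (fun f => funext (fun s => ?_))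
  simp only [Module.End.mul_apply]
  rw [op_apply, op_apply, con_zig1 B C hBC hCB a b c hab hbc hac]

theorem con_zig2 (B C : κ → κ → R) (hBC : ∀ x y, ∑ z, B x z * C z y = if x = y then 1 else 0)
    (hCB : ∀ x y, ∑ z, C x z * B z y = if x = y then 1 else 0)
    (a b c : ι) (hab : a ≠ b) (hbc : b ≠ c) (hac : a ≠ c) (f : (ι → κ) → R) (s : ι → κ) :
    con C b c (op B C a b (op B C b c f)) s = con C b c f s := by
  have h1 : ∀ x y : κ, op B C a b (op B C b c f) (update (update s b x) c y) =
      B (s a) x * ∑ z : κ, (∑ w : κ, C z w * B w y) * con C b c f (update s a z) := by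
    intro x y
    rw [op_apply]
    simp only [update_self, update_of_ne hbc, update_of_ne hab, update_of_ne hac]
    congr 1
    unfold con
    rw [Fintype.sum_prod_type]
    refine Finset.sum_congr rfl fun z _ => ?_
    rw [Finset.sum_mul]
    refine Finset.sum_congr rfl fun w _ => ?_
    have e3 : update (update (update (update s b x) c y) a z) b w =
        update (update (update s a z) b w) c y := by
      ext i
      by_cases h1 : i = c
      · subst h1; simp [update_of_ne hbc.symm, update_of_ne hac.symm]
      · by_cases h2 : i = b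
        · subst h2; simp [h1]
        · simp [h1, h2, Function.update_apply]
    simp only
    rw [e3, op_apply, con_update C b c hbc]
    simp only [update_self, update_of_ne hbc]
    show C z w * (B w y * con C b c f (update s a z)) = C z w * B w y * con C b c f (update s a z)
    ring
  have h2 : con C b c (op B C a b (op B C b c f)) s =
      ∑ y : κ, ∑ x : κ, C x y * (B (s a) x *
        ∑ z : κ, (∑ w : κ, C z w * B w y) * con C b c f (update s a z)) := by
    conv_lhs => unfold con
    rw [Fintype.sum_prod_type, Finset.sum_comm]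
    exact Finset.sum_congr rfl fun x _ => Finset.sum_congr rfl fun y _ => by rw [h1]
  rw [h2]
  have h3 : ∀ y : κ, ∑ x : κ, C x y * (B (s a) x *
        ∑ z : κ, (∑ w : κ, C z w * B w y) * con C b c f (update s a z)) =
      (if s a = y then 1 else 0) * con C b c f (update s a y) := by
    intro y
    simp only [hCB, ite_mul, one_mul, zero_mul, Finset.sum_ite_eq', Finset.mem_univ, if_true]
    have h4 : ∀ x : κ, C x y * (B (s a) x * con C b c f (update s a y)) =
        B (s a) x * C x y * con C b c f (update s a y) := fun x => by ring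
    rw [Finset.sum_congr rfl fun x _ => h4 x, ← Finset.sum_mul, hBC]
    split_ifs <;> simp
  rw [Finset.sum_congr rfl fun y _ => h3 y]
  simp

theorem zig2 (B C : κ → κ → R) (hBC : ∀ x y, ∑ z, B x z * C z y = if x = y then 1 else 0)
    (hCB : ∀ x y, ∑ z, C x z * B z y = if x = y then 1 else 0)
    (a b c : ι) (hab : a ≠ b) (hbc : b ≠ c) (hac : a ≠ c) :
    op B C b c * op B C a b * op B C b c = op B C b c := by
  refine LinearMap.ext (fun f => funext (fun s => ?_))
  simp only [Module.End.mul_apply]
  rw [op_apply, op_apply, con_zig2 B C hBC hCB a b c hab hbc hac]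

theorem far (B C : κ → κ → R) (a b c d : ι) (hac : a ≠ c) (had : a ≠ d) (hbc : b ≠ c)
    (hbd : b ≠ d) : op B C a b * op B C c d = op B C c d * op B C a b := by
  refine LinearMap.ext (fun f => funext (fun s => ?_))
  simp only [Module.End.mul_apply, op_apply, con, update_of_ne hac.symm, update_of_ne had.symm,
    update_of_ne hbc.symm, update_of_ne hbd.symm, update_of_ne hac, update_of_ne had,
    update_of_ne hbc, update_of_ne hbd, Finset.mul_sum]
  rw [Finset.sum_comm]
  refine Finset.sum_congr rfl fun p _ => Finset.sum_congr rfl fun q _ => ?_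
  have e3 : update (update (update (update s a q.1) b q.2) c p.1) d p.2 =
      update (update (update (update s c p.1) d p.2) a q.1) b q.2 := by
    rw [update_comm hbc, update_comm hbd, update_comm hac, update_comm had]
  rw [e3]
  ring

/-- change of variables -/
theorem sum_change (a b : ι) (hab : a ≠ b) (G : (ι → κ) → (ι → κ) → R) :
    ∑ s : ι → κ, ∑ p : κ × κ, G s (update (update s a p.1) b p.2) =
      ∑ s : ι → κ, ∑ p : κ × κ, G (update (update s a p.1) b p.2) s := by
  rw [← Fintype.sum_prod_type', ← Fintype.sum_prod_type']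
  let T : (ι → κ) × (κ × κ) → (ι → κ) × (κ × κ) :=
    fun q => (update (update q.1 a q.2.1) b q.2.2, (q.1 a, q.1 b))
  have hT : Function.Involutive T := by
    rintro ⟨s, x, y⟩
    simp only [T, upd2 a b hab, update_self, update_of_ne hab, Prod.mk.injEq, and_true]
    ext i
    by_cases h1 : i = b
    · subst h1; simp
    · by_cases h2 : i = a
      · subst h2; simp [h1]
      · simp [h1, h2]
  refine Fintype.sum_equiv hT.toPerm _ _ ?_
  rintro ⟨s, x, y⟩
  simp only [Function.Involutive.toPerm, Equiv.coe_fn_mk, T]
  congr 1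
  ext i
  by_cases h1 : i = b
  · subst h1; simp
  · by_cases h2 : i = a
    · subst h2; simp [h1]
    · simp [h1, h2]

end general

section state

variable {R : Type} [CommRing R] {κ : Type} [Fintype κ] [DecidableEq κ] {n : ℕ}

/-- product of the entries of `D` at the pairs -/
def pr (D : κ → κ → R) (s : Fin n × Bool → κ) : R := ∏ i, D (s (i, false)) (s (i, true))

/-- product without the pair `i` -/
def pr' (D : κ → κ → R) (i : Fin n) (s : Fin n × Bool → κ) : R :=
  ∏ j ∈ Finset.univ.erase i, D (s (j, false)) (s (j, true))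

theorem pr_eq (D : κ → κ → R) (i : Fin n) (s : Fin n × Bool → κ) :
    pr D s = D (s (i, false)) (s (i, true)) * pr' D i s :=
  (Finset.mul_prod_erase Finset.univ (fun j => D (s (j, false)) (s (j, true)))
    (Finset.mem_univ i)).symm

theorem pr'_update (D : κ → κ → R) (i : Fin n) (s : Fin n × Bool → κ) (x y : κ) :
    pr' D i (update (update s (i, false) x) (i, true) y) = pr' D i s := by
  refine Finset.prod_congr rfl fun j hj => ?_
  have hji : j ≠ i := (Finset.mem_erase.1 hj).1
  simp [update_apply, hji]

theorem pr_update (D : κ → κ → R) (i : Fin n) (s : Fin n × Bool → κ) (x y : κ) :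
    pr D (update (update s (i, false) x) (i, true) y) = D x y * pr' D i s := by
  rw [pr_eq D i, pr'_update]
  simp [update_apply]

theorem pr_sum (D : κ → κ → R) :
    ∑ s : Fin n × Bool → κ, pr D s = (∑ p : κ × κ, D p.1 p.2) ^ n := by
  have h1 : ∀ i : Fin n, ∑ q : Bool → κ, D (q false) (q true) = ∑ p : κ × κ, D p.1 p.2 := by
    intro i
    refine Fintype.sum_equiv (Equiv.boolArrowEquivProd κ) _ _ fun q => rfl
  have h2 : ∏ _i : Fin n, ∑ q : Bool → κ, D (q false) (q true) =
      ∑ t : Fin n → Bool → κ, ∏ i, D (t i false) (t i true) := by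
    rw [Finset.prod_univ_sum]
    simp
  calc ∑ s : Fin n × Bool → κ, pr D s = ∑ t : Fin n → Bool → κ, ∏ i, D (t i false) (t i true) :=
        Fintype.sum_equiv (Equiv.curry (Fin n) Bool κ) _ _ fun s => rfl
    _ = _ := by
        rw [← h2, Finset.prod_congr rfl fun i _ => h1 i]
        simp

/-- the functional -/
def fn (B C : κ → κ → R) : Module.End R ((Fin n × Bool → κ) → R) →ₗ[R] R where
  toFun x := ∑ s, pr C s * x (pr B) s
  map_add' x y := by simp [mul_add, Finset.sum_add_distrib]
  map_smul' r x := by
    simp only [LinearMap.smul_apply, Pi.smul_apply, smul_eq_mul, RingHom.id_apply, Finset.mul_sum]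
    exact Finset.sum_congr rfl fun s _ => by ring

theorem fn_apply (B C : κ → κ → R) (x : Module.End R ((Fin n × Bool → κ) → R)) :
    fn B C x = ∑ s, pr C s * x (pr B) s := rfl

theorem op_pr (B C : κ → κ → R) (δ : R) (hδ : ∑ p : κ × κ, B p.1 p.2 * C p.1 p.2 = δ)
    (i : Fin n) : op B C (i, false) (i, true) (pr B) = δ • pr B := by
  funext s
  rw [op_apply, Pi.smul_apply, smul_eq_mul, pr_eq B i s]
  unfold con
  simp only [pr_update]
  have h1 : ∀ p : κ × κ, C p.1 p.2 * (B p.1 p.2 * pr' B i s) =
      B p.1 p.2 * C p.1 p.2 * pr' B i s := fun p => by ring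
  rw [Finset.sum_congr rfl fun p _ => h1 p, ← Finset.sum_mul, hδ]
  ring

theorem fn_left (B C : κ → κ → R) (δ : R) (hδ : ∑ p : κ × κ, B p.1 p.2 * C p.1 p.2 = δ)
    (i : Fin n) (g : (Fin n × Bool → κ) → R) :
    ∑ s, pr C s * op B C (i, false) (i, true) g s = δ * ∑ s, pr C s * g s := by
  have hab : ((i, false) : Fin n × Bool) ≠ (i, true) := by simp
  have h1 : ∑ s, pr C s * op B C (i, false) (i, true) g s =
      ∑ s : Fin n × Bool → κ, ∑ p : κ × κ,
        (fun s t : Fin n × Bool → κ => pr C s * B (s (i, false)) (s (i, true)) *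
          (C (t (i, false)) (t (i, true)) * g t))
          s (update (update s (i, false) p.1) (i, true) p.2) := by
    refine Finset.sum_congr rfl fun s _ => ?_
    rw [op_apply]
    unfold con
    rw [Finset.mul_sum, Finset.mul_sum]
    refine Finset.sum_congr rfl fun p _ => ?_
    simp only [update_self, update_of_ne hab]
    ring
  rw [h1, Finset.mul_sum]
  refine (sum_change (i, false) (i, true) hab
    (fun s t : Fin n × Bool → κ => pr C s * B (s (i, false)) (s (i, true)) *
      (C (t (i, false)) (t (i, true)) * g t))).trans ?_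
  refine Finset.sum_congr rfl fun s _ => ?_
  simp only [update_self, update_of_ne hab, pr_update]
  rw [pr_eq C i s, ← hδ, Finset.sum_mul]
  exact Finset.sum_congr rfl fun p _ => by ring

end state

/-- the matrices -/
noncomputable def Bm : Fin 3 → Fin 3 → ℤ[X] := ![![0, 1, 0], ![0, 0, 1], ![1, 0, -X]]

/-- the inverse matrix -/
noncomputable def Cm : Fin 3 → Fin 3 → ℤ[X] := ![![0, X, 1], ![1, 0, 0], ![0, 1, 0]]

theorem hBC (x y : Fin 3) : ∑ z, Bm x z * Cm z y = if x = y then 1 else 0 := by
  fin_cases x <;> fin_cases y <;> simp [Bm, Cm, Fin.sum_univ_three]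

theorem hCB (x y : Fin 3) : ∑ z, Cm x z * Bm z y = if x = y then 1 else 0 := by
  fin_cases x <;> fin_cases y <;> simp [Bm, Cm, Fin.sum_univ_three]

theorem hX : ∑ p : Fin 3 × Fin 3, Bm p.1 p.2 * Cm p.1 p.2 = X := by
  rw [Fintype.sum_prod_type]
  simp [Bm, Cm, Fin.sum_univ_three]

/-- the positions -/
def pt (n : ℕ) (j : ℕ) : Fin (n + 1) × Bool := (Fin.ofNat (n + 1) (j / 2), decide (j % 2 = 1))

theorem pt_ne (n : ℕ) (i j : ℕ) (hi : i < 2 * n + 2) (hj : j < 2 * n + 2) (h : i ≠ j) :
    pt n i ≠ pt n j := by
  intro h1
  unfold pt at h1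
  rw [Prod.mk.injEq] at h1
  obtain ⟨h2, h3⟩ := h1
  have h4 := congrArg Fin.val h2
  simp only [Fin.ofNat] at h4
  rw [Nat.mod_eq_of_lt (by omega), Nat.mod_eq_of_lt (by omega)] at h4
  have h5 : (i % 2 = 1) ↔ (j % 2 = 1) := by simpa using h3
  omega

end REPaux

open REPaux in
theorem REP_ok : S_REP := by
  intro n
  refine ⟨Module.End ℤ[X] ((Fin (n + 1) × Bool → Fin 3) → ℤ[X]), inferInstance, inferInstance,
    fun j => op Bm Cm (pt n j) (pt n (j + 1)), fn Bm Cm, ?_, ?_, ?_⟩
  · constructor
    · intro j hj
      exact op_sq Bm Cm X hX _ _ (pt_ne n _ _ (by omega) (by omega) (by omega))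
    · intro j hj
      exact zig1 Bm Cm hBC hCB _ _ _ (pt_ne n _ _ (by omega) (by omega) (by omega))
        (pt_ne n _ _ (by omega) (by omega) (by omega))
        (pt_ne n _ _ (by omega) (by omega) (by omega))
    · intro j hj
      exact zig2 Bm Cm hBC hCB _ _ _ (pt_ne n _ _ (by omega) (by omega) (by omega))
        (pt_ne n _ _ (by omega) (by omega) (by omega))
        (pt_ne n _ _ (by omega) (by omega) (by omega))
    · intro i j hij hj
      exact far Bm Cm _ _ _ _ (pt_ne n _ _ (by omega) (by omega) (by omega))
        (pt_ne n _ _ (by omega) (by omega) (by omega))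
        (pt_ne n _ _ (by omega) (by omega) (by omega))
        (pt_ne n _ _ (by omega) (by omega) (by omega))
  · have hpt : ∀ j, Even j → pt n j = (Fin.ofNat (n + 1) (j / 2), false) ∧
        pt n (j + 1) = (Fin.ofNat (n + 1) (j / 2), true) := by
      rintro j ⟨k, rfl⟩
      unfold pt
      have h1 : (k + k) / 2 = k := by omega
      have h2 : (k + k + 1) / 2 = k := by omega
      have h3 : (k + k) % 2 = 0 := by omega
      have h4 : (k + k + 1) % 2 = 1 := by omega
      rw [h1, h2, h3, h4]
      simp
    constructor
    · intro j hj he x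
      obtain ⟨h1, h2⟩ := hpt j he
      rw [fn_apply, fn_apply]
      simp only [h1, h2, Module.End.mul_apply]
      exact fn_left Bm Cm X hX _ _
    · intro j hj he x
      obtain ⟨h1, h2⟩ := hpt j he
      rw [fn_apply, fn_apply]
      simp only [h1, h2, Module.End.mul_apply]
      rw [op_pr Bm Cm X hX, map_smul, Finset.mul_sum]
      exact Finset.sum_congr rfl fun s _ => by
        rw [Pi.smul_apply, smul_eq_mul]; ring
  · rw [fn_apply]
    have h1 : ∀ s : Fin (n + 1) × Bool → Fin 3, pr Cm s * (1 : Module.End ℤ[X] _) (pr Bm) s =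
        pr (fun x y => Bm x y * Cm x y) s := by
      intro s
      rw [Module.End.one_apply]
      unfold pr
      rw [← Finset.prod_mul_distrib]
      exact Finset.prod_congr rfl fun i _ => mul_comm _ _
    rw [Finset.sum_congr rfl fun s _ => h1 s, pr_sum, hX]

end Pool.Agent.H696R3.LV
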