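import Pool.Agent.H696R3.LV.Defs

set_option autoImplicit false

namespace Pool.Agent.H696R3.LV

open Polynomial Pool.Agent.H207R2.BL Pool.Agent.H110R3.BP

theorem RRaux.term (N a r R : ℕ) (h1 : a ≤ N) (h2 : r ≤ a) (h3 : r ≤ R) (h4 : R ≤ N) :
    (-1 : ℤ) ^ a * 2 ^ (N - a) * (2 ^ (a - r)) ^ 2 =
      2 ^ (N - R) * (-1) ^ R * (-2) ^ ((R - r) + (a - r)) := by
  obtain ⟨b, rfl⟩ := Nat.exists_eq_add_of_le h2
  obtain ⟨c, rfl⟩ := Nat.exists_eq_add_of_le h3
  obtain ⟨d, hd⟩ := Nat.exists_eq_add_of_le h4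
  have e1 : r + b - r = b := by omega
  have e2 : r + c - r = c := by omega
  have e3 : N - (r + c) = d := by omega
  rw [e1, e2, e3]
  have e4 : (-2 : ℤ) = (-1) * 2 := by norm_num
  have e5 : (-1 : ℤ) ^ (r + c) * (-1) ^ (c + b) = (-1) ^ (r + b) := by
    rw [← pow_add, show r + c + (c + b) = (r + b) + 2 * c by ring, pow_add, pow_mul]
    norm_num
  have e6 : (2 : ℤ) ^ (N - (r + b)) * (2 ^ b) ^ 2 = 2 ^ d * 2 ^ (c + b) := by
    rw [← pow_mul, ← pow_add, ← pow_add]
    congr 1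
    omega
  rw [e4, mul_pow]
  calc (-1 : ℤ) ^ (r + b) * 2 ^ (N - (r + b)) * (2 ^ b) ^ 2
      = (-1 : ℤ) ^ (r + b) * (2 ^ (N - (r + b)) * (2 ^ b) ^ 2) := by ring
    _ = ((-1 : ℤ) ^ (r + c) * (-1) ^ (c + b)) * (2 ^ d * 2 ^ (c + b)) := by rw [e5, e6]
    _ = _ := by ring

/-- RR -/
theorem RR_ok (hCYN : S_CYN) (hGRE : S_GRE) (hQUAD : S_QUAD) (hEXP : S_EXP) : S_RR := by
  intro V E _ _ ends
  classical
  have hG := hGRE (cyc ends)
  have hQ := hQUAD (cyc ends)
  have hr1 : ∀ A : Finset E, rk ends A ≤ A.card := by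
    intro A
    have := (hEXP ends A).2.2.1
    unfold rk
    omega
  have hr2 : ∀ A : Finset E, rk ends A ≤ rk ends Finset.univ := by
    intro A
    have := (hEXP ends A).1
    unfold rk
    omega
  have hRN : rk ends Finset.univ ≤ Fintype.card E := by
    have := hr1 Finset.univ
    rwa [Finset.card_univ] at this
  have hfin : Module.finrank (ZMod 2) (cyc ends) = Fintype.card E - rk ends Finset.univ := by
    have h1 := hCYN ends Finset.univ
    rw [Finset.card_univ] at h1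
    have h2 : Nat.card {c : E → ZMod 2 // c ∈ cyc ends ∧ ∀ x, x ∉ (Finset.univ : Finset E) → c x = 0}
        = Nat.card (cyc ends) := by
      apply Nat.card_congr
      refine Equiv.subtypeEquivRight ?_
      intro c
      simp
    have h3 : Nat.card (cyc ends) = Nat.card (ZMod 2) ^ Module.finrank (ZMod 2) (cyc ends) :=
      Module.natCard_eq_pow_finrank
    rw [h2, h3, Nat.card_zmod] at h1
    exact Nat.pow_right_injective le_rfl h1
  have hS : ∑ A : Finset E, (-1 : ℤ) ^ A.card * 2 ^ (Fintype.card E - A.card) *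
      (Nat.card {c : E → ZMod 2 // c ∈ cyc ends ∧ ∀ x, x ∉ A → c x = 0} : ℤ) ^ 2 =
      2 ^ (Fintype.card E - rk ends Finset.univ) * (-1) ^ (rk ends Finset.univ) *
        (tutd ends).eval (-2) := by
    unfold tutd
    rw [eval_finsetSum, Finset.mul_sum]
    refine Finset.sum_congr rfl fun A _ => ?_
    rw [hCYN ends A, eval_pow, eval_X]
    push_cast
    refine RRaux.term _ _ _ _ ?_ (hr1 A) (hr2 A) hRN
    exact Finset.card_le_univ A
  rw [hG, hS, abs_mul, abs_mul, abs_pow, abs_pow, hfin] at hQ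
  have h5 : |(2 : ℤ)| = 2 := by norm_num
  have h6 : |(-1 : ℤ)| = 1 := by norm_num
  rw [h5, h6, one_pow, mul_one, pow_add] at hQ
  have h7 : (2 : ℤ) ^ (Fintype.card E - rk ends Finset.univ) ≠ 0 := by positivity
  exact mul_left_cancel₀ h7 hQ

end Pool.Agent.H696R3.LV
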