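import Pool.Agent.H696R3.LV.Defs

/-! Task TRANS: transfer from `ℤ[X]` to real parameters. -/

set_option autoImplicit false

namespace Pool.Agent.H696R3.LV

open Polynomial Pool.Agent.H207R2.BL Pool.Agent.H110R3.BP

theorem TRANS_ok (hU : S_UNI) : S_TRANS := by
  intro n A _ _ e φ hT hS h1 B _ _ m f ψ hm hTf hSf
  have hmpos : (0 : ℝ) < m := by exact_mod_cast hm
  -- words in the generators only
  have base : ∀ u : List ℕ, (∀ j ∈ u, j < 2 * n + 1) →
      (m : ℝ) ^ (n + 1) * ψ (u.map f).prod =
        ψ 1 * (((φ (u.map e).prod).eval (m : ℤ) : ℤ) : ℝ) := by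
    intro u hu
    obtain ⟨a, b, hab⟩ := hU n u hu
    have e1 := hab ℤ[X] A X e φ (fun x hx => by
      rcases mul_eq_zero.1 hx with h | h
      · exact absurd h X_ne_zero
      · exact h) hT hS
    have e2 := hab ℝ B (m : ℝ) f ψ (fun x hx => by
      rcases mul_eq_zero.1 hx with h | h
      · exact absurd h hmpos.ne'
      · exact h) hTf hSf
    rw [h1] at e1
    have e3 : ((m : ℤ) : ℤ) ^ a * (φ (u.map e).prod).eval (m : ℤ) = (m : ℤ) ^ b * (m : ℤ) ^ (n + 1) := by
      have := congrArg (Polynomial.eval (m : ℤ)) e1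
      simpa using this
    have e4 : (m : ℝ) ^ a * (((φ (u.map e).prod).eval (m : ℤ) : ℤ) : ℝ) =
        (m : ℝ) ^ b * (m : ℝ) ^ (n + 1) := by
      exact_mod_cast e3
    have hma : (0 : ℝ) < (m : ℝ) ^ a := by positivity
    apply mul_left_cancel₀ hma.ne'
    calc (m : ℝ) ^ a * ((m : ℝ) ^ (n + 1) * ψ (u.map f).prod)
        = (m : ℝ) ^ (n + 1) * ((m : ℝ) ^ a * ψ (u.map f).prod) := by ring
      _ = ψ 1 * ((m : ℝ) ^ b * (m : ℝ) ^ (n + 1)) := by rw [e2]; ring
      _ = (m : ℝ) ^ a * (ψ 1 * (((φ (u.map e).prod).eval (m : ℤ) : ℤ) : ℝ)) := by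
          rw [← e4]; ring
  have main : ∀ (w : List (ℕ × Bool)), (∀ l ∈ w, l.1 < 2 * n + 1) → ∀ u : List ℕ,
      (∀ j ∈ u, j < 2 * n + 1) →
      (m : ℝ) ^ (n + 1) * ψ ((u.map f).prod * W f w) =
        ψ 1 * (((φ ((u.map e).prod * W e w)).eval (m : ℤ) : ℤ) : ℝ) := by
    intro w
    induction w with
    | nil =>
      intro _ u hu
      simp only [W, List.map_nil, List.prod_nil, mul_one]
      exact base u hu
    | cons l w ih =>
      intro hw u hu
      obtain ⟨j, b⟩ := l
      have hj : j < 2 * n + 1 := hw (j, b) (by simp)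
      have hw' : ∀ l ∈ w, l.1 < 2 * n + 1 := fun l hl => hw l (by simp [hl])
      have hu' : ∀ i ∈ u ++ [j], i < 2 * n + 1 := by
        intro i hi
        rw [List.mem_append, List.mem_singleton] at hi
        rcases hi with hi | rfl
        · exact hu i hi
        · exact hj
      have ih1 := ih hw' (u ++ [j]) hu'
      have ih2 := ih hw' u hu
      have hWf : W f ((j, b) :: w) = lv f (j, b) * W f w := by simp [W]
      have hWe : W e ((j, b) :: w) = lv e (j, b) * W e w := by simp [W]
      rw [hWf, hWe]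
      simp only [List.map_append, List.map_cons, List.map_nil, List.prod_append, List.prod_cons,
        List.prod_nil, mul_one] at ih1
      cases b with
      | false =>
        simp only [lv, Bool.false_eq_true, if_false]
        rw [← mul_assoc, ← mul_assoc]
        exact ih1
      | true =>
        simp only [lv, if_true]
        rw [add_mul, add_mul, one_mul, one_mul, mul_add, mul_add, map_add, map_add, ← mul_assoc,
          ← mul_assoc, Polynomial.eval_add, mul_add, ih1, ih2]
        push_cast
        ring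
  intro w hw
  have := main w hw [] (by simp)
  simpa using this

end Pool.Agent.H696R3.LV
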