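import Mathlib
import Pool.Agent.H696R3.LV.Defs

/-!
Task UNI (helper804, for the project of helper696): the value of a state on a word of generators.
Adapted from `Pool/Agent/H207R2/BL/TL.lean` to a commutative ring.
-/

set_option autoImplicit false

namespace Pool.Agent.H696R3.LV

namespace UNIaux

/-- The product of a word. -/
def P {A : Type} [Ring A] (e : ℕ → A) (w : List ℕ) : A := (w.map e).prod

section

variable {A : Type} [Ring A] (e : ℕ → A)

theorem P_nil : P e [] = 1 := rfl

theorem P_cons (j : ℕ) (w : List ℕ) : P e (j :: w) = e j * P e w := by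
  simp [P]

theorem P_append (v w : List ℕ) : P e (v ++ w) = P e v * P e w := by
  simp [P]

end

theorem P_comm {R : Type} [CommRing R] {A : Type} [Ring A] [Algebra R A] {δ : R} {M : ℕ}
    {e : ℕ → A} (S : TLR R A δ M e) (m : ℕ) (hm : m < M) (w : List ℕ) (hw : ∀ j ∈ w, j + 2 ≤ m) :
    P e w * e m = e m * P e w := by
  induction w with
  | nil => simp [P_nil]
  | cons j w ih =>
    have h1 := ih (fun i hi => hw i (List.mem_cons_of_mem _ hi))
    have h2 := S.comm j m (hw j List.mem_cons_self) hm
    rw [P_cons, mul_assoc, h1, ← mul_assoc, h2, mul_assoc]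

/-- Normal form statement: the letter `m` occurs at most once. -/
def NF (M m : ℕ) (w : List ℕ) : Prop :=
  ∃ a : ℕ,
    (∃ w' : List ℕ, (∀ j ∈ w', j < m) ∧
      ∀ (R : Type) [CommRing R] (A : Type) [Ring A] [Algebra R A] (δ : R) (e : ℕ → A),
        TLR R A δ M e → P e w = δ ^ a • P e w') ∨
    (∃ x y : List ℕ, (∀ j ∈ x, j < m) ∧ (∀ j ∈ y, j < m) ∧
      ∀ (R : Type) [CommRing R] (A : Type) [Ring A] [Algebra R A] (δ : R) (e : ℕ → A),
        TLR R A δ M e → P e w = δ ^ a • (P e x * e m * P e y))

theorem nf (M m : ℕ) (hm : m < M) (w : List ℕ) (hw : ∀ j ∈ w, j ≤ m) : NF M m w := by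
  induction m generalizing w with
  | zero =>
    induction w with
    | nil => exact ⟨0, Or.inl ⟨[], by simp, by intro R _ A _ _ δ e S; simp⟩⟩
    | cons j w ih =>
      have hj : j = 0 := Nat.le_zero.1 (hw j List.mem_cons_self)
      subst hj
      obtain ⟨a, h | h⟩ := ih (fun i hi => hw i (List.mem_cons_of_mem _ hi))
      · obtain ⟨w', hw', h⟩ := h
        have hw'0 : w' = [] := by
          rcases w' with _ | ⟨i, w'⟩
          · rfl
          · exact absurd (hw' i List.mem_cons_self) (by omega)
        subst hw'0
        refine ⟨a, Or.inr ⟨[], [], by simp, by simp, ?_⟩⟩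
        intro R _ A _ _ δ e S
        rw [P_cons, h R A δ e S]
        simp [P_nil]
      · obtain ⟨x, y, hx, hy, h⟩ := h
        have hx0 : x = [] := by
          rcases x with _ | ⟨i, x⟩
          · rfl
          · exact absurd (hx i List.mem_cons_self) (by omega)
        have hy0 : y = [] := by
          rcases y with _ | ⟨i, y⟩
          · rfl
          · exact absurd (hy i List.mem_cons_self) (by omega)
        subst hx0
        subst hy0
        refine ⟨a + 1, Or.inr ⟨[], [], by simp, by simp, ?_⟩⟩
        intro R _ A _ _ δ e S
        have h2 := S.sq 0 hm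
        rw [P_cons, h R A δ e S]
        simp only [P_nil, one_mul, mul_one, mul_smul_comm]
        rw [h2, smul_smul, pow_succ]
  | succ m ihm =>
    induction w with
    | nil => exact ⟨0, Or.inl ⟨[], by simp, by intro R _ A _ _ δ e S; simp⟩⟩
    | cons j w ih =>
      have hj : j ≤ m + 1 := hw j List.mem_cons_self
      obtain ⟨a, h | h⟩ := ih (fun i hi => hw i (List.mem_cons_of_mem _ hi))
      · obtain ⟨w', hw', h⟩ := h
        rcases Nat.lt_or_ge j (m + 1) with hj1 | hj1
        · refine ⟨a, Or.inl ⟨j :: w', ?_, ?_⟩⟩
          · intro i hi
            rcases List.mem_cons.1 hi with rfl | hi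
            · exact hj1
            · exact hw' i hi
          · intro R _ A _ _ δ e S
            rw [P_cons, h R A δ e S, P_cons, mul_smul_comm]
        · have hj2 : j = m + 1 := le_antisymm hj hj1
          subst hj2
          refine ⟨a, Or.inr ⟨[], w', by simp, hw', ?_⟩⟩
          intro R _ A _ _ δ e S
          rw [P_cons, h R A δ e S]
          simp [P_nil]
      · obtain ⟨x, y, hx, hy, h⟩ := h
        rcases Nat.lt_or_ge j (m + 1) with hj1 | hj1
        · refine ⟨a, Or.inr ⟨j :: x, y, ?_, hy, ?_⟩⟩
          · intro i hi
            rcases List.mem_cons.1 hi with rfl | hi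
            · exact hj1
            · exact hx i hi
          · intro R _ A _ _ δ e S
            rw [P_cons, h R A δ e S, P_cons, mul_smul_comm]
            simp only [mul_assoc]
        · have hj2 : j = m + 1 := le_antisymm hj hj1
          subst hj2
          obtain ⟨b, h' | h'⟩ := ihm (by omega) x (fun i hi => Nat.lt_succ_iff.1 (hx i hi))
          · obtain ⟨x', hx', h'⟩ := h'
            refine ⟨a + b + 1, Or.inr ⟨x', y, ?_, hy, ?_⟩⟩
            · intro i hi
              exact (hx' i hi).trans (Nat.lt_succ_self m)
            · intro R _ A _ _ δ e S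
              have hc := P_comm S (m + 1) hm x' (fun i hi => by have := hx' i hi; omega)
              have h2 := S.sq (m + 1) hm
              rw [P_cons, h R A δ e S, h' R A δ e S]
              calc e (m + 1) * δ ^ a • (δ ^ b • P e x' * e (m + 1) * P e y)
                  = (δ ^ a * δ ^ b) • ((e (m + 1) * P e x') * e (m + 1) * P e y) := by
                    simp only [smul_mul_assoc, mul_smul_comm, smul_smul, mul_assoc]
                _ = (δ ^ a * δ ^ b) • (P e x' * (e (m + 1) * e (m + 1)) * P e y) := by
                    rw [← hc]; simp only [mul_assoc]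
                _ = δ ^ (a + b + 1) • (P e x' * e (m + 1) * P e y) := by
                    rw [h2]
                    simp only [smul_mul_assoc, mul_smul_comm, smul_smul]
                    rw [← pow_add, ← pow_succ]
          · obtain ⟨x1, x2, hx1, hx2, h'⟩ := h'
            refine ⟨a + b, Or.inr ⟨x1, x2 ++ y, ?_, ?_, ?_⟩⟩
            · intro i hi
              exact (hx1 i hi).trans (Nat.lt_succ_self m)
            · intro i hi
              rcases List.mem_append.1 hi with hi | hi
              · exact (hx2 i hi).trans (Nat.lt_succ_self m)
              · exact hy i hi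
            · intro R _ A _ _ δ e S
              have hc1 := P_comm S (m + 1) hm x1 (fun i hi => by have := hx1 i hi; omega)
              have hc2 := P_comm S (m + 1) hm x2 (fun i hi => by have := hx2 i hi; omega)
              have h2 := S.r2 m hm
              rw [P_cons, h R A δ e S, h' R A δ e S, P_append]
              calc e (m + 1) * δ ^ a • (δ ^ b • (P e x1 * e m * P e x2) * e (m + 1) * P e y)
                  = (δ ^ a * δ ^ b) • ((e (m + 1) * P e x1) * e m *
                      (P e x2 * e (m + 1)) * P e y) := by
                    simp only [smul_mul_assoc, mul_smul_comm, smul_smul, mul_assoc]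
                _ = (δ ^ a * δ ^ b) • (P e x1 * (e (m + 1) * e m * e (m + 1)) *
                      (P e x2 * P e y)) := by
                    rw [← hc1, hc2]; simp only [mul_assoc]
                _ = δ ^ (a + b) • (P e x1 * e (m + 1) * (P e x2 * P e y)) := by
                    rw [h2, pow_add]

theorem state_eval (n m : ℕ) (hm : m ≤ 2 * n + 1) (w : List ℕ) (hw : ∀ j ∈ w, j < m) :
    ∃ a b : ℕ, ∀ (R : Type) [CommRing R] (A : Type) [Ring A] [Algebra R A] (δ : R) (e : ℕ → A)
      (φ : A →ₗ[R] R), (∀ x : R, δ * x = 0 → x = 0) → TLR R A δ (2 * n + 1) e →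
      St R A δ (2 * n + 1) e φ → δ ^ a * φ (P e w) = δ ^ b * φ 1 := by
  induction m generalizing w with
  | zero =>
    have hw0 : w = [] := by
      rcases w with _ | ⟨i, w⟩
      · rfl
      · exact absurd (hw i List.mem_cons_self) (by omega)
    subst hw0
    exact ⟨0, 0, by intro R _ A _ _ δ e φ _ S F; rw [P_nil]⟩
  | succ m ihm =>
    have ih := fun w hw => ihm (by omega) w hw
    obtain ⟨a, h | h⟩ := nf (2 * n + 1) m (by omega) w (fun j hj => Nat.lt_succ_iff.1 (hw j hj))
    · obtain ⟨w', hw', h⟩ := h
      obtain ⟨a', b', hN⟩ := ih w' hw'
      refine ⟨a', a + b', ?_⟩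
      intro R _ A _ _ δ e φ hδ S F
      rw [h R A δ e S, map_smul, smul_eq_mul, mul_left_comm, hN R A δ e φ hδ S F, pow_add,
        mul_assoc]
    · obtain ⟨x, y, hx, hy, h⟩ := h
      rcases Nat.even_or_odd m with he | ho
      · -- even top letter
        rcases Nat.eq_zero_or_pos m with h0 | hpos
        · subst h0
          have hx0 : x = [] := by
            rcases x with _ | ⟨i, x⟩
            · rfl
            · exact absurd (hx i List.mem_cons_self) (by omega)
          have hy0 : y = [] := by
            rcases y with _ | ⟨i, y⟩
            · rfl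
            · exact absurd (hy i List.mem_cons_self) (by omega)
          subst hx0
          subst hy0
          refine ⟨0, a + 1, ?_⟩
          intro R _ A _ _ δ e φ hδ S F
          have := F.right 0 (by omega) he 1
          rw [h R A δ e S, map_smul, smul_eq_mul]
          simp only [P_nil, one_mul, mul_one] at this ⊢
          rw [this, pow_succ, mul_assoc, pow_zero, one_mul]
        · obtain ⟨m', rfl⟩ : ∃ m', m = m' + 1 := ⟨m - 1, by omega⟩
          obtain ⟨b, h' | h'⟩ := nf (2 * n + 1) m' (by omega) y
            (fun j hj => Nat.lt_succ_iff.1 (hy j hj))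
          · obtain ⟨y', hy', h'⟩ := h'
            obtain ⟨a', b', hN⟩ := ih (x ++ y') (by
              intro j hj
              rcases List.mem_append.1 hj with hj | hj
              · exact hx j hj
              · exact (hy' j hj).trans (Nat.lt_succ_self m'))
            refine ⟨a', a + (b + 1 + b'), ?_⟩
            intro R _ A _ _ δ e φ hδ S F
            have hc := P_comm S (m' + 1) (by omega) y' (fun i hi => by have := hy' i hi; omega)
            have h1 := F.right (m' + 1) (by omega) he (P e x * P e y')
            have h2 := hN R A δ e φ hδ S F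
            rw [P_append] at h2
            have h3 : P e x * e (m' + 1) * δ ^ b • P e y'
                = δ ^ b • (P e x * P e y' * e (m' + 1)) := by
              rw [mul_smul_comm, mul_assoc, ← hc, mul_assoc]
            rw [h R A δ e S, h' R A δ e S, map_smul, smul_eq_mul, h3, map_smul, h1, smul_eq_mul]
            calc δ ^ a' * (δ ^ a * (δ ^ b * (δ * φ (P e x * P e y'))))
                = δ ^ a * (δ ^ b * (δ * (δ ^ a' * φ (P e x * P e y')))) := by ring
              _ = δ ^ (a + (b + 1 + b')) * φ 1 := by rw [h2]; ring
          · obtain ⟨y1, y2, hy1, hy2, h'⟩ := h'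
            obtain ⟨a', b', hN⟩ := ih (x ++ (y1 ++ y2)) (by
              intro j hj
              rcases List.mem_append.1 hj with hj | hj
              · exact hx j hj
              · rcases List.mem_append.1 hj with hj | hj
                · exact (hy1 j hj).trans (Nat.lt_succ_self m')
                · exact (hy2 j hj).trans (Nat.lt_succ_self m'))
            refine ⟨a', a + (b + b'), ?_⟩
            intro R _ A _ _ δ e φ hδ S F
            have hc1 := P_comm S (m' + 1) (by omega) y1 (fun i hi => by have := hy1 i hi; omega)
            have hc2 := P_comm S (m' + 1) (by omega) y2 (fun i hi => by have := hy2 i hi; omega)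
            have hr := S.r2 m' (by omega)
            have hR := fun z => F.right (m' + 1) (by omega) he z
            have h2 := hN R A δ e φ hδ S F
            rw [P_append, P_append] at h2
            have key : δ * φ (P e x * e (m' + 1) * (P e y1 * e m' * P e y2))
                = δ * φ (P e x * (P e y1 * P e y2)) := by
              rw [← hR, ← hR]
              congr 1
              calc P e x * e (m' + 1) * (P e y1 * e m' * P e y2) * e (m' + 1)
                  = P e x * (e (m' + 1) * P e y1) * e m' * (P e y2 * e (m' + 1)) := by
                    simp only [mul_assoc]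
                _ = P e x * P e y1 * (e (m' + 1) * e m' * e (m' + 1)) * P e y2 := by
                    rw [← hc1, hc2]; simp only [mul_assoc]
                _ = P e x * P e y1 * (e (m' + 1) * P e y2) := by
                    rw [hr]; simp only [mul_assoc]
                _ = P e x * (P e y1 * P e y2) * e (m' + 1) := by
                    rw [← hc2]; simp only [mul_assoc]
            have key2 : φ (P e x * e (m' + 1) * (P e y1 * e m' * P e y2))
                = φ (P e x * (P e y1 * P e y2)) :=
              sub_eq_zero.1 (hδ _ (by rw [mul_sub, key, sub_self]))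
            rw [h R A δ e S, h' R A δ e S, map_smul, smul_eq_mul, mul_smul_comm, map_smul, key2,
              smul_eq_mul]
            calc δ ^ a' * (δ ^ a * (δ ^ b * φ (P e x * (P e y1 * P e y2))))
                = δ ^ a * (δ ^ b * (δ ^ a' * φ (P e x * (P e y1 * P e y2)))) := by ring
              _ = δ ^ (a + (b + b')) * φ 1 := by rw [h2]; ring
      · -- odd top letter
        have hm1 : m + 1 < 2 * n + 1 := by
          obtain ⟨t, ht⟩ := ho
          omega
        have he1 : Even (m + 1) := ho.add_one
        obtain ⟨a', b', hN⟩ := ih (x ++ y) (by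
          intro j hj
          rcases List.mem_append.1 hj with hj | hj
          · exact hx j hj
          · exact hy j hj)
        refine ⟨a' + 1, a + b', ?_⟩
        intro R _ A _ _ δ e φ hδ S F
        have hc1 := P_comm S (m + 1) hm1 x (fun i hi => by have := hx i hi; omega)
        have hc2 := P_comm S (m + 1) hm1 y (fun i hi => by have := hy i hi; omega)
        have hr := S.r2 m hm1
        have hR := fun z => F.right (m + 1) hm1 he1 z
        have hL := fun z => F.left (m + 1) hm1 he1 z
        have h2 := hN R A δ e φ hδ S F
        rw [P_append] at h2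
        have key : δ * (δ * φ (P e x * e m * P e y)) = δ * φ (P e x * P e y) := by
          rw [← hR, ← hL, ← hR]
          congr 1
          calc e (m + 1) * (P e x * e m * P e y * e (m + 1))
              = (e (m + 1) * P e x) * e m * (P e y * e (m + 1)) := by
                simp only [mul_assoc]
            _ = P e x * (e (m + 1) * e m * e (m + 1)) * P e y := by
                rw [← hc1, hc2]; simp only [mul_assoc]
            _ = P e x * (e (m + 1) * P e y) := by
                rw [hr]; simp only [mul_assoc]
            _ = P e x * P e y * e (m + 1) := by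
                rw [← hc2]; simp only [mul_assoc]
        have key2 : δ * φ (P e x * e m * P e y) = φ (P e x * P e y) :=
          sub_eq_zero.1 (hδ _ (by rw [mul_sub, key, sub_self]))
        rw [h R A δ e S, map_smul, smul_eq_mul]
        calc δ ^ (a' + 1) * (δ ^ a * φ (P e x * e m * P e y))
            = δ ^ a * (δ ^ a' * (δ * φ (P e x * e m * P e y))) := by ring
          _ = δ ^ (a + b') * φ 1 := by rw [key2, h2]; ring

end UNIaux

theorem UNI_ok : S_UNI := by
  intro n w hw
  exact UNIaux.state_eval n (2 * n + 1) le_rfl w hw

end Pool.Agent.H696R3.LV
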