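import Pool.Agent.H696R3.LV.Defs

/-! Task WDROP of project LV. -/

set_option autoImplicit false

namespace Pool.Agent.H696R3.LV

open Polynomial Pool.Agent.H207R2.BL Pool.Agent.H110R3.BP

namespace WDROPaux

theorem iff1 {α : Type} (a1 a2 b1 b2 : List α) (x y : α) (h : a1.length = b1.length) :
    a1 ++ x :: a2 = b1 ++ y :: b2 ↔ (a1 = b1 ∧ a2 = b2) ∧ x = y := by
  constructor
  · intro h1
    obtain ⟨h2, h3⟩ := List.append_inj h1 h
    rw [List.cons.injEq] at h3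
    exact ⟨⟨h2, h3.2⟩, h3.1⟩
  · rintro ⟨⟨rfl, rfl⟩, rfl⟩
    rfl

theorem iff2 {α : Type} (a1 a2 b1 b2 : List α) (h : a1.length = b1.length) :
    a1 ++ a2 = b1 ++ b2 ↔ (a1 = b1 ∧ a2 = b2) := by
  constructor
  · intro h1
    exact List.append_inj h1 h
  · rintro ⟨rfl, rfl⟩
    rfl

end WDROPaux

theorem WDROP_ok : S_WDROP := by
  classical
  intro V E _ _ ends m L1 L2 U Es v l1 l2 hl
  unfold wc
  rw [Finset.sum_comm]
  refine Finset.sum_congr rfl fun g _ => ?_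
  have h1 : (L1.map g).length = l1.length := by rw [List.length_map, hl]
  have e1 : ∀ x : Fin (m ^ 2), (L1 ++ v :: L2).map g = l1 ++ x :: l2 ↔
      (x = g v ∧ (L1.map g = l1 ∧ L2.map g = l2)) := by
    intro x
    rw [List.map_append, List.map_cons, WDROPaux.iff1 _ _ _ _ _ _ h1]
    constructor
    · rintro ⟨b, c⟩; exact ⟨c.symm, b⟩
    · rintro ⟨c, b⟩; exact ⟨b, c.symm⟩
  have e2 : (L1 ++ L2).map g = l1 ++ l2 ↔ (L1.map g = l1 ∧ L2.map g = l2) := by
    rw [List.map_append, WDROPaux.iff2 _ _ _ _ h1]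
  by_cases hQ : (L1.map g = l1 ∧ L2.map g = l2)
  · rw [if_pos (e2.mpr hQ)]
    rw [Finset.sum_eq_single (g v)]
    · rw [if_pos ((e1 _).mpr ⟨rfl, hQ⟩)]
    · intro x _ hx
      rw [if_neg (fun h => hx ((e1 x).mp h).1)]
    · intro h
      exact absurd (Finset.mem_univ _) h
  · rw [if_neg (fun h => hQ (e2.mp h))]
    refine Finset.sum_eq_zero fun x _ => ?_
    rw [if_neg (fun h => hQ ((e1 x).mp h).2)]

end Pool.Agent.H696R3.LV
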