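import Pool.Agent.H696R3.LV.Defs

set_option autoImplicit false

namespace Pool.Agent.H696R3.LV

theorem WDUPaux.app {C : Type} (a b c d : List C) (h : a.length = b.length) :
    a ++ c = b ++ d ↔ a = b ∧ c = d :=
  ⟨fun hh => List.append_inj hh h, fun hh => by rw [hh.1, hh.2]⟩

theorem WDUPaux.iff {V C : Type} (L1 L2 : List V) (v : V) (g : V → C) (l1 l2 : List C) (x y : C)
    (h : l1.length = L1.length) :
    (L1 ++ v :: v :: L2).map g = l1 ++ x :: y :: l2 ↔
      x = y ∧ (L1 ++ v :: L2).map g = l1 ++ x :: l2 := by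
  have hl : (L1.map g).length = l1.length := by simp [h]
  rw [List.map_append, List.map_append, WDUPaux.app _ _ _ _ hl, WDUPaux.app _ _ _ _ hl]
  simp only [List.map_cons, List.cons.injEq]
  constructor
  · rintro ⟨a, b, c, d⟩
    exact ⟨b.symm.trans c, a, b, d⟩
  · rintro ⟨a, b, c, d⟩
    exact ⟨b, c, c.trans a, d⟩

theorem WDUP_ok : S_WDUP := by
  classical
  intro V E _ _ ends m L1 L2 U Es v l1 l2 x y h
  unfold wc
  by_cases hxy : x = y
  · rw [if_pos hxy]
    refine Finset.sum_congr rfl fun g _ => ?_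
    by_cases hg : (L1 ++ v :: L2).map g = l1 ++ x :: l2
    · rw [if_pos hg, if_pos ((WDUPaux.iff L1 L2 v g l1 l2 x y h).2 ⟨hxy, hg⟩)]
    · rw [if_neg hg, if_neg fun hh => hg ((WDUPaux.iff L1 L2 v g l1 l2 x y h).1 hh).2]
  · rw [if_neg hxy]
    refine Finset.sum_eq_zero fun g _ => ?_
    rw [if_neg fun hh => hxy ((WDUPaux.iff L1 L2 v g l1 l2 x y h).1 hh).1]

end Pool.Agent.H696R3.LV
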