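import Pool.Agent.H696R3.LV.Defs

/-! Task WEDGE of project LV. -/

set_option autoImplicit false

namespace Pool.Agent.H696R3.LV

open Polynomial Pool.Agent.H207R2.BL Pool.Agent.H110R3.BP

namespace WEDGEaux

theorem map2 {V : Type} {k : ℕ} (g : V → Fin k) (L1 L2 : List V) (u v : V)
    (l1 l2 : List (Fin k)) (x y : Fin k) (hl : l1.length = L1.length)
    (h : (L1 ++ u :: v :: L2).map g = l1 ++ x :: y :: l2) : g u = x ∧ g v = y := by
  rw [List.map_append, List.map_cons, List.map_cons] at h
  have h1 := List.append_inj h (by rw [List.length_map, hl])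
  have h2 := List.cons.inj h1.2
  have h3 := List.cons.inj h2.2
  exact ⟨h2.1, h3.1⟩

theorem wt_insert {V E : Type} [Fintype V] [Fintype E] (ends : E → Sym2 V) (m : ℕ)
    (U : Set V) (Es : Set (Sym2 V)) (u v : V) (huv : u ≠ v) (hE : s(u, v) ∉ Es)
    (g : V → Fin (m ^ 2)) :
    wt ends m U (insert s(u, v) Es) g =
      (if g u = g v then (1 + m : ℝ) ^ mul ends s(u, v) else 1) * wt ends m U Es g := by
  classical
  have hprod : (if g u = g v then (1 + m : ℝ) ^ mul ends s(u, v) else 1) =
      ∏ z : E, if ends z = s(u, v) then (if g u = g v then (1 + m : ℝ) else 1) else 1 := by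
    rw [Finset.prod_ite, Finset.prod_const, Finset.prod_const_one, mul_one]
    have hc : mul ends s(u, v) = (Finset.univ.filter fun z => ends z = s(u, v)).card := by
      unfold mul
      rw [Nat.card_eq_fintype_card, Fintype.card_subtype]
    rw [← hc]
    split_ifs with h
    · rfl
    · rw [one_pow]
  rw [hprod]
  unfold wt
  rw [← Finset.prod_mul_distrib]
  refine Finset.prod_congr rfl fun z _ => ?_
  by_cases hz : ends z = s(u, v)
  · have h1 : ¬ Done ends U Es z := by
      rintro (h | ⟨h, -⟩)
      · rw [hz] at h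
        exact hE h
      · rw [hz, Sym2.mk_isDiag_iff] at h
        exact huv h
    have h2 : Done ends U (insert s(u, v) Es) z := Or.inl (by rw [hz]; exact Set.mem_insert _ _)
    have h3 : ((ends z).map g).IsDiag ↔ g u = g v := by
      rw [hz, Sym2.map_mk, Sym2.mk_isDiag_iff]
    have h4 : (if Done ends U Es z ∧ ((ends z).map g).IsDiag then (1 + m : ℝ) else 1) = 1 :=
      if_neg (fun h => h1 h.1)
    rw [if_pos hz, h4, mul_one]
    by_cases hg : g u = g v
    · rw [if_pos ⟨h2, h3.2 hg⟩, if_pos hg]
    · rw [if_neg (fun h => hg (h3.1 h.2)), if_neg hg]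
  · rw [if_neg hz, one_mul]
    have h1 : Done ends U (insert s(u, v) Es) z ↔ Done ends U Es z := by
      unfold Done
      rw [Set.mem_insert_iff]
      constructor
      · rintro ((h | h) | h)
        · exact absurd h hz
        · exact Or.inl h
        · exact Or.inr h
      · rintro (h | h)
        · exact Or.inl (Or.inr h)
        · exact Or.inr h
    by_cases hD : Done ends U Es z ∧ ((ends z).map g).IsDiag
    · rw [if_pos hD, if_pos ⟨h1.2 hD.1, hD.2⟩]
    · rw [if_neg hD, if_neg (fun h => hD ⟨h1.1 h.1, h.2⟩)]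

end WEDGEaux

theorem WEDGE_ok : S_WEDGE := by
  classical
  intro V E _ _ ends m L1 L2 U Es u v huv hE l1 l2 x y hl
  unfold wc
  rw [Finset.mul_sum]
  refine Finset.sum_congr rfl fun g _ => ?_
  by_cases h : (L1 ++ u :: v :: L2).map g = l1 ++ x :: y :: l2
  · obtain ⟨h1, h2⟩ := WEDGEaux.map2 g L1 L2 u v l1 l2 x y hl h
    rw [if_pos h, if_pos h, WEDGEaux.wt_insert ends m U Es u v huv hE g, h1, h2]
  · rw [if_neg h, if_neg h, mul_zero]

end Pool.Agent.H696R3.LV
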