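import Pool.Agent.H696R3.LV.Defs

/-! LV task WNEW: weighted colourings, new vertex. -/

set_option autoImplicit false

namespace Pool.Agent.H696R3.LV

open Polynomial Pool.Agent.H207R2.BL Pool.Agent.H110R3.BP

namespace WNEWaux

theorem isDiag_map {V W : Type} (g : V → W) (a b : V) :
    ((s(a, b) : Sym2 V).map g).IsDiag ↔ g a = g b := by
  rw [Sym2.map_mk]
  exact Sym2.mk_isDiag_iff

theorem wt_insert {V E : Type} [Fintype V] [Fintype E] (ends : E → Sym2 V) (m : ℕ)
    (U : Set V) (Es : Set (Sym2 V)) (v : V) (hU : v ∉ U) (hE : ∀ u, s(u, v) ∉ Es)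
    (g : V → Fin (m ^ 2)) :
    wt ends m (insert v U) Es g = (1 + m : ℝ) ^ mul ends s(v, v) * wt ends m U Es g := by
  classical
  have h1 : (1 + m : ℝ) ^ mul ends s(v, v) =
      ∏ x : E, if ends x = s(v, v) then (1 + m : ℝ) else 1 := by
    rw [Finset.prod_ite, Finset.prod_const, Finset.prod_const_one, mul_one]
    unfold mul
    rw [Nat.card_eq_fintype_card, Fintype.card_subtype]
  rw [h1]
  unfold wt
  rw [← Finset.prod_mul_distrib]
  refine Finset.prod_congr rfl fun x _ => ?_
  by_cases hx : ends x = s(v, v)
  · have e1 : Done ends (insert v U) Es x ∧ ((ends x).map g).IsDiag := by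
      refine ⟨Or.inr ⟨?_, v, Set.mem_insert _ _, ?_⟩, ?_⟩
      · rw [hx]
        exact Sym2.mk_isDiag_iff.2 rfl
      · rw [hx]
        exact Sym2.mem_mk_left _ _
      · rw [hx]
        exact (isDiag_map g v v).2 rfl
    have e2 : ¬ (Done ends U Es x ∧ ((ends x).map g).IsDiag) := by
      rintro ⟨h | ⟨-, w, hw, hw'⟩, -⟩
      · rw [hx] at h
        exact hE v h
      · rw [hx] at hw'
        have : w = v := by
          rcases Sym2.mem_iff.1 hw' with h | h <;> exact h
        exact hU (this ▸ hw)
    rw [if_pos e1, if_neg e2, if_pos hx, mul_one]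
  · rw [if_neg hx, one_mul]
    refine if_congr ?_ rfl rfl
    refine and_congr_left fun _ => ?_
    unfold Done
    refine or_congr Iff.rfl ?_
    constructor
    · rintro ⟨hd, w, hw, hw'⟩
      refine ⟨hd, w, ?_, hw'⟩
      rcases Set.mem_insert_iff.1 hw with h | h
      · exfalso
        subst h
        apply hx
        generalize ends x = e at *
        induction e using Sym2.ind with
        | _ a b =>
          have hab : a = b := Sym2.mk_isDiag_iff.1 hd
          subst hab
          rcases Sym2.mem_iff.1 hw' with h | h <;> rw [h]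
      · exact h
    · rintro ⟨hd, w, hw, hw'⟩
      exact ⟨hd, w, Set.mem_insert_of_mem _ hw, hw'⟩

theorem wt_update {V E : Type} [Fintype V] [Fintype E] [DecidableEq V] (ends : E → Sym2 V)
    (m : ℕ) (U : Set V) (Es : Set (Sym2 V)) (v : V) (hE : ∀ u, s(u, v) ∉ Es)
    (g : V → Fin (m ^ 2)) (z : Fin (m ^ 2)) :
    wt ends m U Es (Function.update g v z) = wt ends m U Es g := by
  classical
  unfold wt
  refine Finset.prod_congr rfl fun x _ => ?_
  refine if_congr ?_ rfl rfl
  refine and_congr_right fun hD => ?_
  unfold Done at hD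
  generalize ends x = e at *
  induction e using Sym2.ind with
  | _ a b =>
    rw [isDiag_map, isDiag_map]
    rcases hD with h | ⟨h, -⟩
    · have ha : a ≠ v := by
        rintro rfl
        exact hE b (by rwa [Sym2.eq_swap] at h)
      have hb : b ≠ v := by
        rintro rfl
        exact hE a h
      rw [Function.update_of_ne ha, Function.update_of_ne hb]
    · have hab : a = b := Sym2.mk_isDiag_iff.1 h
      subst hab
      exact ⟨fun _ => rfl, fun _ => rfl⟩

end WNEWaux

open WNEWaux in
theorem WNEW_ok : S_WNEW := by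
  intro V E _ _ ends m hm L1 L2 U Es v hv1 hv2 hU hE l1 l2 x hl
  classical
  set P : (V → Fin (m ^ 2)) → Prop := fun g => (L1 ++ L2).map g = l1 ++ l2 with hP
  have hupd : ∀ (g : V → Fin (m ^ 2)) (z : Fin (m ^ 2)), P (Function.update g v z) ↔ P g := by
    intro g z
    have h1 : ∀ a, a ≠ v → Function.update g v z a = g a := fun a ha =>
      Function.update_of_ne ha _ _
    have h2 : (L1 ++ L2).map (Function.update g v z) = (L1 ++ L2).map g := by
      apply List.map_congr_left
      intro a ha
      apply h1
      rintro rfl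
      rcases List.mem_append.1 ha with h | h
      · exact hv1 h
      · exact hv2 h
    simp only [hP]
    rw [h2]
  have hL : wc ends m (insert v U) Es (L1 ++ v :: L2) (l1 ++ x :: l2) =
      ∑ g : V → Fin (m ^ 2), (1 + m : ℝ) ^ mul ends s(v, v) *
        (if P g ∧ g v = x then wt ends m U Es g else 0) := by
    unfold wc
    refine Finset.sum_congr rfl fun g _ => ?_
    rw [wt_insert ends m U Es v hU hE g, mul_ite, mul_zero]
    refine if_congr ?_ rfl rfl
    simp only [hP, List.map_append, List.map_cons]
    constructor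
    · intro h
      obtain ⟨h1, h2⟩ := List.append_inj h (by simp [hl])
      rw [List.cons_eq_cons] at h2
      exact ⟨by rw [h1, h2.2], h2.1⟩
    · rintro ⟨h, h3⟩
      obtain ⟨h1, h2⟩ := List.append_inj h (by simp [hl])
      rw [h1, h2, h3]
  have hR : wc ends m U Es (L1 ++ L2) (l1 ++ l2) =
      ∑ y : Fin (m ^ 2), ∑ g : V → Fin (m ^ 2),
        if P g ∧ g v = y then wt ends m U Es g else 0 := by
    rw [Finset.sum_comm]
    unfold wc
    refine Finset.sum_congr rfl fun g _ => ?_
    by_cases hg : P g
    · rw [if_pos hg]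
      simp [hg]
    · rw [if_neg hg]
      simp [hg]
  have hy : ∀ y : Fin (m ^ 2),
      (∑ g : V → Fin (m ^ 2), if P g ∧ g v = y then wt ends m U Es g else 0) =
      ∑ g : V → Fin (m ^ 2), if P g ∧ g v = x then wt ends m U Es g else 0 := by
    intro y
    have hinv : Function.Involutive
        (fun g : V → Fin (m ^ 2) => Function.update g v (Equiv.swap x y (g v))) := by
      intro g
      simp
    refine Fintype.sum_equiv hinv.toPerm _ _ fun g => ?_
    change _ = if P (Function.update g v (Equiv.swap x y (g v))) ∧
      Function.update g v (Equiv.swap x y (g v)) v = x then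
        wt ends m U Es (Function.update g v (Equiv.swap x y (g v))) else 0
    rw [wt_update ends m U Es v hE]
    refine if_congr ?_ rfl rfl
    rw [hupd, Function.update_self]
    refine and_congr_right fun _ => ?_
    constructor
    · intro h
      rw [h, Equiv.swap_apply_right]
    · intro h
      rw [Equiv.swap_apply_eq_iff, Equiv.swap_apply_left] at h
      exact h
  rw [hL, hR, Finset.sum_congr rfl fun y _ => hy y, ← Finset.mul_sum]
  simp only [Finset.sum_const, Finset.card_univ, Fintype.card_fin, nsmul_eq_mul]
  ring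

end Pool.Agent.H696R3.LV
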